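import Pool.Agent.Lib.MP_706923_coQ.Spec

/-!
# MP_706923_co, package Q: choice of the parameters
-/

set_option autoImplicit false

namespace Pool.Agent.Lib.MP_706923_coQ

open Finset

private theorem pe (K b : ℝ) (n : ℕ) (hb : 0 < b) : ∃ T : ℝ, ∀ t : ℝ, T ≤ t →
    K * t ^ n ≤ Real.exp (b * t) := by
  have h := (isLittleO_pow_exp_pos_mul_atTop n hb).def (c := 1 / (|K| + 1)) (by positivity)
  obtain ⟨T, hT⟩ := Filter.eventually_atTop.1 h
  refine ⟨max T 0, fun t ht => ?_⟩
  have h1 := hT t (le_trans (le_max_left _ _) ht)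
  have h0 : 0 ≤ t := le_trans (le_max_right _ _) ht
  rw [Real.norm_of_nonneg (by positivity), Real.norm_of_nonneg (Real.exp_pos _).le] at h1
  have h2 : (|K| + 1) * t ^ n ≤ Real.exp (b * t) := by
    have h3 := mul_le_mul_of_nonneg_left h1 (show (0 : ℝ) ≤ |K| + 1 by positivity)
    have h4 : (|K| + 1) * (1 / (|K| + 1) * Real.exp (b * t)) = Real.exp (b * t) := by
      field_simp
    linarith
  have h5 : K * t ^ n ≤ (|K| + 1) * t ^ n :=
    mul_le_mul_of_nonneg_right (by linarith [le_abs_self K]) (by positivity)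
  linarith

/-- the bounds for the parameters -/
private theorem par (R : ℕ) (C t L : ℝ) (hC : 1 ≤ C) (ht1 : 1 ≤ t) (hL : L = Real.exp t)
    (h1 : 8 * t ^ 3 ≤ Real.exp t) (h2 : 56 * t ≤ Real.exp t) (hR : 4 * (R : ℝ) ≤ t)
    (hC30 : 30 * C ≤ t) (W J : ℕ) (hW : W = ⌈6 * t⌉₊) (hJ : J = ⌊L / t ^ 2⌋₊) :
    6 * t ≤ W ∧ (W : ℝ) ≤ 7 * t ∧ (J : ℝ) ≤ L / t ^ 2 ∧ L / (2 * t ^ 2) ≤ J ∧ W ≤ J ∧
      (J : ℝ) ≤ L ∧ 1 ≤ (J : ℝ) ∧ Real.log J ≤ t ∧
      2 * (2 * (W : ℝ) + J * R) ≤ L ∧ C * J * (1 + Real.log J) ≤ L := by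
  have ht0 : 0 < t := by linarith
  have hL0 : 0 < L := hL ▸ Real.exp_pos _
  have ht2 : 0 < t ^ 2 := by positivity
  have a1 : 6 * t ≤ W := hW ▸ Nat.le_ceil _
  have a2 : (W : ℝ) ≤ 7 * t := by
    have : (W : ℝ) < 6 * t + 1 := by rw [hW]; exact Nat.ceil_lt_add_one (by positivity)
    linarith
  have a3 : (J : ℝ) ≤ L / t ^ 2 := by rw [hJ]; exact Nat.floor_le (by positivity)
  have b1 : 8 * t ≤ L / t ^ 2 := by
    rw [le_div_iff₀ ht2, hL]
    calc 8 * t * t ^ 2 = 8 * t ^ 3 := by ring
      _ ≤ _ := h1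
  have a4' : L / t ^ 2 < J + 1 := by rw [hJ]; exact Nat.lt_floor_add_one _
  have b2 : L / (2 * t ^ 2) = L / t ^ 2 / 2 := by rw [div_div]; ring_nf
  have a4 : L / (2 * t ^ 2) ≤ J := by rw [b2]; linarith
  have a5 : W ≤ J := by
    have : (W : ℝ) ≤ J := by linarith
    exact_mod_cast this
  have b3 : L / t ^ 2 ≤ L := div_le_self hL0.le (by nlinarith)
  have a6 : (J : ℝ) ≤ L := by linarith
  have a7 : 1 ≤ (J : ℝ) := by linarith
  have a8 : Real.log J ≤ t := by
    have := Real.log_le_log (by linarith) a6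
    rwa [hL, Real.log_exp] at this
  refine ⟨a1, a2, a3, a4, a5, a6, a7, a8, ?_, ?_⟩
  · have c1 : (J : ℝ) * R ≤ L / t ^ 2 * (t / 4) := by
      apply mul_le_mul a3 (by linarith) (by positivity) (by positivity)
    have c2 : L / t ^ 2 * (t / 4) ≤ L / 4 := by
      rw [div_mul_eq_mul_div, div_le_iff₀ ht2]
      have : t ≤ t ^ 2 := by nlinarith
      nlinarith
    have c3 : 56 * t ≤ L := hL ▸ h2
    linarith
  · have c1 : C * J * (1 + Real.log J) ≤ C * (L / t ^ 2) * (1 + t) := by
      apply mul_le_mul (mul_le_mul_of_nonneg_left a3 (by linarith)) (by linarith)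
      · have := Real.log_nonneg a7
        linarith
      · positivity
    have c2 : C * (L / t ^ 2) * (1 + t) = L * (C * (1 + t) / t ^ 2) := by ring
    have c3 : C * (1 + t) / t ^ 2 ≤ 1 := by
      rw [div_le_one ht2]
      nlinarith
    calc _ ≤ _ := c1
      _ = _ := c2
      _ ≤ L * 1 := mul_le_mul_of_nonneg_left c3 hL0.le
      _ = L := mul_one _

theorem tAsy : S_Asy := by
  intro C e0 ε j₀ R hC he0 he2 hε
  obtain ⟨T1, h1⟩ := pe 8 1 3 one_pos
  obtain ⟨T2, h2⟩ := pe 56 1 1 one_pos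
  obtain ⟨T3, h3⟩ := pe (3 * C * 196 * 2 ^ R) ε (6 + R) hε
  set T : ℝ := max (max T1 T2) (max T3 (max 1 (max (4 * R) (max (30 * C) j₀)))) with hT
  refine ⟨⌈Real.exp (Real.exp T)⌉₊ + 2, by omega, fun x hx => ?_⟩
  have hx1 : Real.exp (Real.exp T) ≤ x := by
    have h4 := Nat.le_ceil (Real.exp (Real.exp T))
    have h5 : ((⌈Real.exp (Real.exp T)⌉₊ : ℕ) : ℝ) ≤ x := by exact_mod_cast (by omega)
    linarith
  have hx0 : (0 : ℝ) < x := lt_of_lt_of_le (Real.exp_pos _) hx1
  obtain ⟨L, hLx⟩ : ∃ L : ℝ, L = Real.log x := ⟨_, rfl⟩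
  have hxL : Real.exp L = x := by rw [hLx, Real.exp_log hx0]
  have hLT : Real.exp T ≤ L := by
    rw [hLx]
    exact (Real.le_log_iff_exp_le hx0).2 hx1
  have hL0 : 0 < L := lt_of_lt_of_le (Real.exp_pos _) hLT
  obtain ⟨t, htL⟩ : ∃ t : ℝ, t = Real.log L := ⟨_, rfl⟩
  have hLt : L = Real.exp t := by rw [htL, Real.exp_log hL0]
  have htT : T ≤ t := by
    rw [htL]
    exact (Real.le_log_iff_exp_le hL0).2 hLT
  have q1 : T1 ≤ t := le_trans (le_trans (le_max_left _ _) (le_max_left _ _)) htT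
  have q2 : T2 ≤ t := le_trans (le_trans (le_max_right _ _) (le_max_left _ _)) htT
  have q3 : T3 ≤ t := le_trans (le_trans (le_max_left _ _) (le_max_right _ _)) htT
  have q4 : (1 : ℝ) ≤ t := le_trans (le_trans (le_trans (le_max_left _ _) (le_max_right _ _))
    (le_max_right _ _)) htT
  have q5 : 4 * (R : ℝ) ≤ t := le_trans (le_trans (le_trans (le_trans (le_max_left _ _)
    (le_max_right _ _)) (le_max_right _ _)) (le_max_right _ _)) htT
  have q6 : 30 * C ≤ t := le_trans (le_trans (le_trans (le_trans (le_trans (le_max_left _ _)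
    (le_max_right _ _)) (le_max_right _ _)) (le_max_right _ _)) (le_max_right _ _)) htT
  have q7 : (j₀ : ℝ) ≤ t := le_trans (le_trans (le_trans (le_trans (le_trans (le_max_right _ _)
    (le_max_right _ _)) (le_max_right _ _)) (le_max_right _ _)) (le_max_right _ _)) htT
  have h1' := h1 t q1
  have h2' := h2 t q2
  have h3' := h3 t q3
  rw [one_mul] at h1' h2'
  rw [pow_one] at h2'
  obtain ⟨a1, a2, a3, a4, a5, a6, a7, a8, a9, a10⟩ :=
    par R C t L hC q4 hLt h1' h2' q5 q6 _ _ rfl rfl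
  set W := ⌈6 * t⌉₊ with hW
  set J := ⌊L / t ^ 2⌋₊ with hJ
  have ht0 : 0 < t := by linarith
  have hC0 : 0 < C := by linarith
  refine ⟨W, J, ?_, a5, ?_, ?_, ?_⟩
  · have : (j₀ : ℝ) ≤ W := by linarith
    exact_mod_cast this
  · have e1 : (((2 ^ (2 * W + J * R)) ^ 2 : ℕ) : ℝ) ≤ x := by
      push_cast
      rw [← pow_mul, ← hxL]
      have e2 : (2 : ℝ) ≤ Real.exp 1 := by
        have := Real.add_one_le_exp (1 : ℝ)
        linarith
      calc (2 : ℝ) ^ ((2 * W + J * R) * 2) ≤ (Real.exp 1) ^ ((2 * W + J * R) * 2) :=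
            pow_le_pow_left₀ (by norm_num) e2 _
        _ = Real.exp (((2 * W + J * R) * 2 : ℕ) : ℝ) := by
            rw [← Real.exp_nat_mul, mul_one]
        _ ≤ Real.exp L := by
            apply Real.exp_le_exp.2
            push_cast
            linarith
    exact_mod_cast e1
  · rw [← hLx]
    exact a10
  · rw [← hLx]
    have hL1 : 1 ≤ L := by
      have := Real.add_one_le_exp t
      rw [← hLt] at this
      linarith
    set D : ℝ := L ^ (e0 - ε) with hD
    have hD0 : 0 < D := Real.rpow_pos_of_pos hL0 _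
    have hDL : D ≤ L ^ 2 := by
      rw [← Real.rpow_natCast L 2]
      exact Real.rpow_le_rpow_of_exponent_le hL1 (by push_cast; linarith)
    have hL2 : L ^ 2 = Real.exp (2 * t) := by
      rw [hLt, ← Real.exp_nat_mul]
      norm_num
    -- first term
    have t1 : C * Real.sqrt x ≤ x / (3 * D) := by
      rw [le_div_iff₀ (by positivity)]
      have hs : Real.sqrt x * Real.sqrt x = x := Real.mul_self_sqrt hx0.le
      have hse : Real.sqrt x = Real.exp (L / 2) := by rw [Real.exp_half, hxL]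
      have u1 : 3 * C ≤ Real.exp t := by
        have := Real.add_one_le_exp t
        linarith
      have u2 : 3 * C * D ≤ Real.exp (L / 2) := by
        calc 3 * C * D ≤ Real.exp t * Real.exp (2 * t) :=
              mul_le_mul u1 (hL2 ▸ hDL) hD0.le (Real.exp_pos _).le
          _ = Real.exp (3 * t) := by rw [← Real.exp_add]; ring_nf
          _ ≤ Real.exp (L / 2) := by
              apply Real.exp_le_exp.2
              rw [← hLt] at h2'
              linarith
      calc C * Real.sqrt x * (3 * D) = (3 * C * D) * Real.sqrt x := by ring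
        _ ≤ Real.exp (L / 2) * Real.sqrt x :=
            mul_le_mul_of_nonneg_right u2 (Real.sqrt_nonneg _)
        _ = x := by rw [← hse, hs]
    -- second term
    have t2 : C * ((J : ℝ) ^ 2 * (x / 2 ^ W)) ≤ x / (3 * D) := by
      have v1 : Real.exp (41 / 10 * t) ≤ (2 : ℝ) ^ W := by
        have v2 : (2 : ℝ) ^ W = Real.exp (Real.log 2 * W) := by
          rw [mul_comm, Real.exp_nat_mul, Real.exp_log (by norm_num)]
        rw [v2]
        apply Real.exp_le_exp.2
        have v3 := Real.log_two_gt_d9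
        nlinarith
      have v4 : 3 * C * (L ^ 2 * L ^ 2) ≤ (2 : ℝ) ^ W := by
        have v5 : 3 * C ≤ Real.exp (1 / 10 * t) := by
          have := Real.add_one_le_exp (1 / 10 * t)
          linarith
        calc 3 * C * (L ^ 2 * L ^ 2)
            ≤ Real.exp (1 / 10 * t) * (Real.exp (2 * t) * Real.exp (2 * t)) := by
              rw [hL2]
              exact mul_le_mul_of_nonneg_right v5 (by positivity)
          _ = Real.exp (41 / 10 * t) := by
              rw [← Real.exp_add, ← Real.exp_add]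
              ring_nf
          _ ≤ _ := v1
      have v6 : (J : ℝ) ^ 2 ≤ L ^ 2 := pow_le_pow_left₀ (by positivity) a6 2
      have hW0 : (0 : ℝ) < 2 ^ W := by positivity
      rw [le_div_iff₀ (by positivity)]
      have v7 : C * ((J : ℝ) ^ 2 * (x / 2 ^ W)) * (3 * D) =
          (3 * C * (D * (J : ℝ) ^ 2)) * (x / 2 ^ W) := by ring
      rw [v7]
      have v8 : 3 * C * (D * (J : ℝ) ^ 2) ≤ 2 ^ W := by
        refine le_trans ?_ v4
        apply mul_le_mul_of_nonneg_left _ (by positivity)
        exact mul_le_mul hDL v6 (by positivity) (by positivity)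
      calc _ ≤ 2 ^ W * ((x : ℝ) / 2 ^ W) := mul_le_mul_of_nonneg_right v8 (by positivity)
        _ = x := by field_simp
    -- third term
    have t3 : C * (x * ((W : ℝ) / J) ^ e0 * (C + Real.log J) ^ R) ≤ x / (3 * D) := by
      have hJ0 : (0 : ℝ) < J := by linarith
      have w1 : (W : ℝ) / J ≤ 14 * t ^ 3 / L := by
        rw [div_le_div_iff₀ hJ0 hL0]
        have w2 : L ≤ 2 * t ^ 2 * J := by
          rw [div_le_iff₀ (by positivity)] at a4
          linarith
        calc (W : ℝ) * L ≤ 7 * t * (2 * t ^ 2 * J) :=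
              mul_le_mul a2 w2 hL0.le (by positivity)
          _ = 14 * t ^ 3 * J := by ring
      have w3 : ((W : ℝ) / J) ^ e0 ≤ (14 * t ^ 3) ^ 2 / L ^ e0 := by
        calc ((W : ℝ) / J) ^ e0 ≤ (14 * t ^ 3 / L) ^ e0 :=
              Real.rpow_le_rpow (by positivity) w1 he0
          _ = (14 * t ^ 3) ^ e0 / L ^ e0 := Real.div_rpow (by positivity) hL0.le _
          _ ≤ (14 * t ^ 3) ^ 2 / L ^ e0 := by
              apply div_le_div_of_nonneg_right _ (Real.rpow_pos_of_pos hL0 _).le
              rw [← Real.rpow_natCast _ 2]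
              apply Real.rpow_le_rpow_of_exponent_le
              · have : 1 ≤ t ^ 3 := one_le_pow₀ q4
                linarith
              · push_cast
                linarith
      have w4 : (C + Real.log J) ^ R ≤ (2 * t) ^ R := by
        apply pow_le_pow_left₀
        · have := Real.log_nonneg a7
          linarith
        · linarith
      have hLe : 0 < L ^ e0 := Real.rpow_pos_of_pos hL0 _
      have w5 : D * L ^ ε = L ^ e0 := by
        rw [hD, ← Real.rpow_add hL0]
        ring_nf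
      have w6 : L ^ ε = Real.exp (ε * t) := by
        rw [Real.rpow_def_of_pos hL0, htL, mul_comm]
      rw [le_div_iff₀ (by positivity)]
      have w7 : ((W : ℝ) / J) ^ e0 * (C + Real.log J) ^ R ≤
          (14 * t ^ 3) ^ 2 / L ^ e0 * (2 * t) ^ R := by
        apply mul_le_mul w3 w4
        · apply pow_nonneg
          have := Real.log_nonneg a7
          linarith
        · positivity
      calc C * (x * ((W : ℝ) / J) ^ e0 * (C + Real.log J) ^ R) * (3 * D)
          = (C * x * (3 * D)) * (((W : ℝ) / J) ^ e0 * (C + Real.log J) ^ R) := by ring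
        _ ≤ (C * x * (3 * D)) * ((14 * t ^ 3) ^ 2 / L ^ e0 * (2 * t) ^ R) :=
            mul_le_mul_of_nonneg_left w7 (by positivity)
        _ = x * D / L ^ e0 * (3 * C * 196 * 2 ^ R * t ^ (6 + R)) := by
            rw [mul_pow 2 t R, pow_add]
            ring
        _ ≤ x * D / L ^ e0 * L ^ ε := by
            apply mul_le_mul_of_nonneg_left _ (by positivity)
            rw [w6]
            exact h3'
        _ = x := by
            rw [div_mul_eq_mul_div, mul_assoc, w5, mul_div_assoc, div_self hLe.ne', mul_one]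
    have hsum : x / (3 * D) + x / (3 * D) + x / (3 * D) = x / D := by
      field_simp
      ring
    calc C * (Real.sqrt x + (J : ℝ) ^ 2 * (x / 2 ^ W) +
          x * ((W : ℝ) / J) ^ e0 * (C + Real.log J) ^ R)
        = C * Real.sqrt x + C * ((J : ℝ) ^ 2 * (x / 2 ^ W)) +
          C * (x * ((W : ℝ) / J) ^ e0 * (C + Real.log J) ^ R) := by ring
      _ ≤ x / (3 * D) + x / (3 * D) + x / (3 * D) := by linarith
      _ = x / D := hsum

end Pool.Agent.Lib.MP_706923_coQ
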