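import Pool.Agent.Lib.MP_706923_coQ.Spec

/-!
# MP_706923_coQ, Bad: few bad conductors
-/

set_option autoImplicit false

namespace Pool.Agent.Lib.MP_706923_coQ

open Finset Pool.Agent.Lib.MP_706923_co

private theorem sign_ex (x : ℝ) : ∃ s : ℝ, |s| = 1 ∧ s * x = |x| := by
  rcases le_total 0 x with h | h
  · exact ⟨1, abs_one, by rw [one_mul, abs_of_nonneg h]⟩
  · exact ⟨-1, by rw [abs_neg, abs_one], by rw [abs_of_nonpos h]; ring⟩

private theorem not_sq {d e : ℕ} (hd : Squarefree d) (he : Squarefree e) (hde : d ≠ e) :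
    ¬ IsSquare ((d : ℤ) * (e : ℤ)) := by
  rintro ⟨r, hr⟩
  have h1 : d * e = r.natAbs ^ 2 := by
    have h2 := congrArg Int.natAbs hr
    rw [Int.natAbs_mul, Int.natAbs_mul, Int.natAbs_natCast, Int.natAbs_natCast] at h2
    rw [h2, sq]
  have hd0 : d ≠ 0 := hd.ne_zero
  have h2 : d ∣ r.natAbs := by
    have h3 : d ∣ r.natAbs ^ 2 := ⟨e, h1.symm⟩
    exact (hd.dvd_pow_iff_dvd two_ne_zero).1 h3
  obtain ⟨t, ht⟩ := h2
  rw [ht] at h1
  have h3 : e = d * (t * t) := by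
    have h4 : d * e = d * (d * (t * t)) := by rw [h1]; ring
    exact Nat.eq_of_mul_eq_mul_left (Nat.pos_of_ne_zero hd0) h4
  have h4 : IsUnit t := he t ⟨d, by rw [h3]; ring⟩
  rw [Nat.isUnit_iff] at h4
  rw [h4] at h3
  apply hde
  rw [h3]
  ring

private theorem abs_jac (d : ℤ) (n : ℕ) : |(jacobiSym d n : ℝ)| ≤ 1 := by
  rcases jacobiSym.trichotomy d n with h | h | h
  · rw [h]; simp
  · rw [h]; simp
  · rw [h]; simp

/-- the sum over all odd integers of the block -/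
private theorem pair (h1 : S_Per) {j m d e : ℕ} (hm : 0 < m) (hm3 : m ^ 3 ≤ 2 ^ j)
    (hd : Squarefree d) (hd3 : d ^ 3 ≤ 2 ^ j) (he : Squarefree e) (he3 : e ^ 3 ≤ 2 ^ j) :
    |∑ n ∈ (Ioc (2 ^ j) (2 ^ (j + 1))).filter Odd,
      ((jacobiSym d n : ℝ) * (jacobiSym e n : ℝ))| ≤
      (if d = e then (2 : ℝ) ^ j else 0) + 4 * 2 ^ j / m := by
  have hpos : (0 : ℝ) ≤ 4 * 2 ^ j / m := by positivity
  by_cases hde : d = e
  · rw [if_pos hde]
    have h2 : |∑ n ∈ (Ioc (2 ^ j) (2 ^ (j + 1))).filter Odd,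
        ((jacobiSym d n : ℝ) * (jacobiSym e n : ℝ))| ≤ 2 ^ j := by
      refine (Finset.abs_sum_le_sum_abs _ _).trans ?_
      have h3 : ∀ n ∈ (Ioc (2 ^ j) (2 ^ (j + 1))).filter Odd,
          |(jacobiSym d n : ℝ) * (jacobiSym e n : ℝ)| ≤ 1 := by
        intro n _
        rw [abs_mul]
        exact mul_le_one₀ (abs_jac d n) (abs_nonneg _) (abs_jac e n)
      refine (Finset.sum_le_sum h3).trans ?_
      rw [Finset.sum_const, nsmul_eq_mul, mul_one]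
      have h4 : ((Ioc (2 ^ j) (2 ^ (j + 1))).filter Odd).card ≤ 2 ^ j := by
        refine (Finset.card_filter_le _ _).trans ?_
        rw [Nat.card_Ioc, pow_succ]
        omega
      exact_mod_cast h4
    linarith
  · rw [if_neg hde, zero_add]
    have h2 := h1 ((d : ℤ) * e) (not_sq hd he hde) (2 ^ j) (2 ^ (j + 1))
    have h3 : ∑ n ∈ (Ioc (2 ^ j) (2 ^ (j + 1))).filter Odd,
        ((jacobiSym d n : ℝ) * (jacobiSym e n : ℝ)) =
        ((∑ n ∈ (Ioc (2 ^ j) (2 ^ (j + 1))).filter Odd, jacobiSym ((d : ℤ) * e) n : ℤ) : ℝ) := by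
      rw [Int.cast_sum]
      refine Finset.sum_congr rfl fun n _ => ?_
      rw [jacobiSym.mul_left, Int.cast_mul]
    rw [h3, ← Int.cast_abs]
    have h4 : ((|∑ n ∈ (Ioc (2 ^ j) (2 ^ (j + 1))).filter Odd,
        jacobiSym ((d : ℤ) * e) n| : ℤ) : ℝ) ≤ ((4 * |(d : ℤ) * e| : ℤ) : ℝ) := by
      exact_mod_cast h2
    refine h4.trans ?_
    have h5 : m * (d * e) ≤ 2 ^ j := by
      have h6 : (m * (d * e)) ^ 3 ≤ (2 ^ j) ^ 3 := by
        calc (m * (d * e)) ^ 3 = m ^ 3 * (d ^ 3 * e ^ 3) := by ring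
          _ ≤ 2 ^ j * (2 ^ j * 2 ^ j) := Nat.mul_le_mul hm3 (Nat.mul_le_mul hd3 he3)
          _ = (2 ^ j) ^ 3 := by ring
      exact (Nat.pow_le_pow_iff_left (by norm_num)).1 h6
    have h6 : (m : ℝ) * ((d : ℝ) * e) ≤ 2 ^ j := by exact_mod_cast h5
    have hm' : (0 : ℝ) < m := by exact_mod_cast hm
    rw [le_div_iff₀ hm']
    have h7 : ((4 * |(d : ℤ) * e| : ℤ) : ℝ) = 4 * ((d : ℝ) * e) := by
      rw [abs_of_nonneg (by positivity)]
      push_cast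
      ring
    rw [h7]
    linarith

/-- the mean square -/
private theorem mean_sq (h1 : S_Per) {j : ℕ} (F : Finset ℕ) (hF : 0 < F.card)
    (hF3 : F.card ^ 3 ≤ 2 ^ j) (h : ∀ d ∈ F, Squarefree d ∧ d ^ 3 ≤ 2 ^ j) (σ : ℕ → ℝ)
    (hσ : ∀ d, |σ d| = 1) :
    ∑ n ∈ (Ioc (2 ^ j) (2 ^ (j + 1))).filter Odd, (∑ d ∈ F, σ d * (jacobiSym d n : ℝ)) ^ 2 ≤
      5 * F.card * 2 ^ j := by
  have hm' : (0 : ℝ) < F.card := by exact_mod_cast hF
  have e1 : ∑ n ∈ (Ioc (2 ^ j) (2 ^ (j + 1))).filter Odd,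
      (∑ d ∈ F, σ d * (jacobiSym d n : ℝ)) ^ 2 =
      ∑ d ∈ F, ∑ e ∈ F, σ d * σ e * ∑ n ∈ (Ioc (2 ^ j) (2 ^ (j + 1))).filter Odd,
        ((jacobiSym d n : ℝ) * (jacobiSym e n : ℝ)) := by
    have e2 : ∀ n : ℕ, (∑ d ∈ F, σ d * (jacobiSym d n : ℝ)) ^ 2 =
        ∑ d ∈ F, ∑ e ∈ F, σ d * σ e * ((jacobiSym d n : ℝ) * (jacobiSym e n : ℝ)) := by
      intro n
      rw [sq, Finset.sum_mul_sum]
      refine Finset.sum_congr rfl fun d _ => Finset.sum_congr rfl fun e _ => ?_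
      ring
    rw [Finset.sum_congr rfl fun n _ => e2 n, Finset.sum_comm]
    refine Finset.sum_congr rfl fun d _ => ?_
    rw [Finset.sum_comm]
    refine Finset.sum_congr rfl fun e _ => ?_
    rw [Finset.mul_sum]
  rw [e1]
  have h2 : ∀ d ∈ F, ∀ e ∈ F, σ d * σ e * ∑ n ∈ (Ioc (2 ^ j) (2 ^ (j + 1))).filter Odd,
        ((jacobiSym d n : ℝ) * (jacobiSym e n : ℝ)) ≤
        (if d = e then (2 : ℝ) ^ j else 0) + 4 * 2 ^ j / F.card := by
    intro d hd e he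
    refine (le_abs_self _).trans ?_
    rw [abs_mul, abs_mul, hσ, hσ, one_mul, one_mul]
    exact pair h1 hF hF3 (h d hd).1 (h d hd).2 (h e he).1 (h e he).2
  refine (Finset.sum_le_sum fun d hd => Finset.sum_le_sum fun e he => h2 d hd e he).trans ?_
  have h3 : ∀ d ∈ F, ∑ e ∈ F, ((if d = e then (2 : ℝ) ^ j else 0) + 4 * 2 ^ j / F.card) =
      5 * 2 ^ j := by
    intro d hd
    rw [Finset.sum_add_distrib, Finset.sum_ite_eq, if_pos hd, Finset.sum_const, nsmul_eq_mul]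
    field_simp
    ring
  rw [Finset.sum_congr rfl h3, Finset.sum_const, nsmul_eq_mul]
  apply le_of_eq
  ring

/-- the bound for a set which is not too large -/
private theorem small (h1 : S_Per) {C₁ : ℝ} (hC₁ : 0 < C₁) {η : ℝ} (hη : 0 < η) {j : ℕ}
    (hj : 1 ≤ j)
    (hB : ∑ q ∈ (Ioc (2 ^ j) (2 ^ (j + 1))).filter Nat.Prime, (1 : ℝ) / q ≤ C₁ / j)
    (ψ : ℕ → ℝ) (hψ : ∀ q, |ψ q| ≤ 1) (F : Finset ℕ) (hF : 0 < F.card)
    (hF3 : F.card ^ 3 ≤ 2 ^ j) (h : ∀ d ∈ F, Squarefree d ∧ d ^ 3 ≤ 2 ^ j ∧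
    η / j < |∑ q ∈ (Ioc (2 ^ j) (2 ^ (j + 1))).filter Nat.Prime,
      ψ q * (jacobiSym d q : ℝ) / q|) : (F.card : ℝ) ≤ 5 * C₁ / η ^ 2 * j := by
  have hm' : (0 : ℝ) < F.card := by exact_mod_cast hF
  have hj' : (0 : ℝ) < j := by exact_mod_cast hj
  choose σ hσ hσ2 using fun d : ℕ => sign_ex
    (∑ q ∈ (Ioc (2 ^ j) (2 ^ (j + 1))).filter Nat.Prime, ψ q * (jacobiSym d q : ℝ) / q)
  -- first step
  have s1 : F.card * (η / j) ≤ ∑ q ∈ (Ioc (2 ^ j) (2 ^ (j + 1))).filter Nat.Prime,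
      ψ q * (∑ d ∈ F, σ d * (jacobiSym d q : ℝ)) / q := by
    have e1 : ∑ q ∈ (Ioc (2 ^ j) (2 ^ (j + 1))).filter Nat.Prime,
        ψ q * (∑ d ∈ F, σ d * (jacobiSym d q : ℝ)) / q =
        ∑ d ∈ F, |∑ q ∈ (Ioc (2 ^ j) (2 ^ (j + 1))).filter Nat.Prime,
          ψ q * (jacobiSym d q : ℝ) / q| := by
      have e2 : ∀ q : ℕ, ψ q * (∑ d ∈ F, σ d * (jacobiSym d q : ℝ)) / q =
          ∑ d ∈ F, σ d * (ψ q * (jacobiSym d q : ℝ) / q) := by
        intro q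
        rw [Finset.mul_sum, Finset.sum_div]
        refine Finset.sum_congr rfl fun d _ => ?_
        ring
      rw [Finset.sum_congr rfl fun q _ => e2 q, Finset.sum_comm]
      refine Finset.sum_congr rfl fun d _ => ?_
      rw [← Finset.mul_sum, hσ2]
    rw [e1, ← nsmul_eq_mul]
    exact Finset.card_nsmul_le_sum F _ _ fun d hd => (h d hd).2.2.le
  -- Cauchy-Schwarz
  have s2 : (∑ q ∈ (Ioc (2 ^ j) (2 ^ (j + 1))).filter Nat.Prime,
      ψ q * (∑ d ∈ F, σ d * (jacobiSym d q : ℝ)) / q) ^ 2 ≤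
      (∑ q ∈ (Ioc (2 ^ j) (2 ^ (j + 1))).filter Nat.Prime, (ψ q) ^ 2 / q) *
      ∑ q ∈ (Ioc (2 ^ j) (2 ^ (j + 1))).filter Nat.Prime,
        (∑ d ∈ F, σ d * (jacobiSym d q : ℝ)) ^ 2 / q := by
    refine Finset.sum_sq_le_sum_mul_sum_of_sq_eq_mul _ (fun q _ => by positivity)
      (fun q _ => by positivity) fun q hq => ?_
    ring
  have s3 : ∑ q ∈ (Ioc (2 ^ j) (2 ^ (j + 1))).filter Nat.Prime, (ψ q) ^ 2 / q ≤ C₁ / j := by
    refine (Finset.sum_le_sum fun q _ => ?_).trans hB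
    refine div_le_div_of_nonneg_right ?_ (Nat.cast_nonneg q)
    rw [sq_le_one_iff_abs_le_one]
    exact hψ q
  have s4 : ∑ q ∈ (Ioc (2 ^ j) (2 ^ (j + 1))).filter Nat.Prime,
        (∑ d ∈ F, σ d * (jacobiSym d q : ℝ)) ^ 2 / q ≤ 5 * F.card := by
    have t1 : ∑ q ∈ (Ioc (2 ^ j) (2 ^ (j + 1))).filter Nat.Prime,
        (∑ d ∈ F, σ d * (jacobiSym d q : ℝ)) ^ 2 / q ≤
        ∑ n ∈ (Ioc (2 ^ j) (2 ^ (j + 1))).filter Odd,
          (∑ d ∈ F, σ d * (jacobiSym d n : ℝ)) ^ 2 / 2 ^ j := by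
      have t2 : ∀ q ∈ (Ioc (2 ^ j) (2 ^ (j + 1))).filter Nat.Prime,
          (∑ d ∈ F, σ d * (jacobiSym d q : ℝ)) ^ 2 / q ≤
          (∑ d ∈ F, σ d * (jacobiSym d q : ℝ)) ^ 2 / 2 ^ j := by
        intro q hq
        have hq1 := (Finset.mem_Ioc.1 (Finset.mem_filter.1 hq).1).1
        have hq2 : ((2 : ℝ) ^ j) ≤ q := by exact_mod_cast hq1.le
        exact div_le_div_of_nonneg_left (sq_nonneg _) (by positivity) hq2
      refine (Finset.sum_le_sum t2).trans ?_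
      refine Finset.sum_le_sum_of_subset_of_nonneg ?_ fun n _ _ => by positivity
      intro q hq
      obtain ⟨hq1, hq2⟩ := Finset.mem_filter.1 hq
      refine Finset.mem_filter.2 ⟨hq1, ?_⟩
      rcases hq2.eq_two_or_odd' with h3 | h3
      · exfalso
        have h4 := (Finset.mem_Ioc.1 hq1).1
        have h5 : 2 ^ 1 ≤ 2 ^ j := Nat.pow_le_pow_right (by norm_num) hj
        omega
      · exact h3
    refine t1.trans ?_
    rw [← Finset.sum_div, div_le_iff₀ (by positivity)]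
    exact mean_sq h1 F hF hF3 (fun d hd => ⟨(h d hd).1, (h d hd).2.1⟩) σ hσ
  have s5 : (F.card * (η / j)) ^ 2 ≤ C₁ / j * (5 * F.card) := by
    have t0 : 0 ≤ F.card * (η / j) := by positivity
    calc (F.card * (η / j)) ^ 2 ≤ _ := pow_le_pow_left₀ t0 s1 2
      _ ≤ _ := s2
      _ ≤ _ := mul_le_mul s3 s4 (Finset.sum_nonneg fun q _ => by positivity) (by positivity)
  -- conclusion
  have e1 : (F.card * (η / j)) ^ 2 = F.card * (F.card * η ^ 2 / j ^ 2) := by ring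
  have e2 : C₁ / j * (5 * F.card) = F.card * (5 * C₁ / j) := by ring
  rw [e1, e2] at s5
  have s6 := le_of_mul_le_mul_left s5 hm'
  rw [div_le_div_iff₀ (by positivity) hj'] at s6
  have s7 : (F.card : ℝ) * η ^ 2 ≤ 5 * C₁ * j := by
    have s8 : (F.card * η ^ 2) * j ≤ (5 * C₁ * j) * j := by
      calc (F.card * η ^ 2) * j ≤ 5 * C₁ * j ^ 2 := s6
        _ = (5 * C₁ * j) * j := by ring
    exact le_of_mul_le_mul_right s8 hj'
  have e3 : 5 * C₁ / η ^ 2 * j = 5 * C₁ * j / η ^ 2 := by ring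
  rw [e3, le_div_iff₀ (by positivity)]
  exact s7

private theorem large_j (K : ℝ) (hK : 0 < K) : ∃ j₀ : ℕ, 1 ≤ j₀ ∧ ∀ j : ℕ, j₀ ≤ j →
    (K * j + 1) ^ 3 ≤ 2 ^ j := by
  have h1 := tendsto_pow_const_div_const_pow_of_one_lt 3 (r := (2 : ℝ)) one_lt_two
  have h2 : (0 : ℝ) < 1 / (K + 1) ^ 3 := by positivity
  have h3 := (h1.eventually (gt_mem_nhds h2))
  obtain ⟨j₀, hj₀⟩ := Filter.eventually_atTop.1 h3
  refine ⟨max j₀ 1, le_max_right _ _, fun j hj => ?_⟩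
  have h4 := hj₀ j ((le_max_left _ _).trans hj)
  have hj1 : (1 : ℝ) ≤ j := by exact_mod_cast (le_max_right j₀ 1).trans hj
  rw [div_lt_div_iff₀ (by positivity) (by positivity), one_mul] at h4
  calc (K * j + 1) ^ 3 ≤ ((K + 1) * j) ^ 3 := by
        apply pow_le_pow_left₀ (by positivity)
        rw [add_mul, one_mul]
        linarith
    _ = (j : ℝ) ^ 3 * (K + 1) ^ 3 := by ring
    _ ≤ 2 ^ j := h4.le

theorem tBad (h1 : S_Per) (h2 : S_Mr) : S_Bad := by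
  intro η hη
  obtain ⟨C, hC, hMr⟩ := h2
  have hK : 0 < 5 * (C + 1) / η ^ 2 := by positivity
  obtain ⟨j₀, hj₀1, hj₀⟩ := large_j _ hK
  refine ⟨5 * (C + 1) / η ^ 2, j₀, hK, ?_⟩
  intro j ψ F hj hψ hF
  have hj1 : 1 ≤ j := hj₀1.trans hj
  have hj' : (0 : ℝ) < j := by exact_mod_cast hj1
  have hB : ∑ q ∈ (Ioc (2 ^ j) (2 ^ (j + 1))).filter Nat.Prime, (1 : ℝ) / q ≤ (C + 1) / j := by
    have h3 := (abs_le.1 (hMr j (j + 1) hj1 (Nat.le_succ j))).2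
    have h4 : Real.log (((j + 1 : ℕ) : ℝ) / j) ≤ 1 / j := by
      have h5 := Real.log_le_sub_one_of_pos (x := ((j + 1 : ℕ) : ℝ) / j) (by positivity)
      have h6 : ((j + 1 : ℕ) : ℝ) / j - 1 = 1 / j := by
        push_cast
        field_simp
        ring
      rwa [h6] at h5
    have h7 : (C + 1) / (j : ℝ) = C / j + 1 / j := by rw [add_div]
    rw [h7]
    linarith
  by_contra hcon
  push Not at hcon
  obtain ⟨m, hm⟩ : ∃ m : ℕ, m = ⌊5 * (C + 1) / η ^ 2 * j⌋₊ + 1 := ⟨_, rfl⟩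
  have hBj : 0 ≤ 5 * (C + 1) / η ^ 2 * j := by positivity
  have hmF : m ≤ F.card := by
    rw [hm]
    exact Nat.succ_le_of_lt ((Nat.floor_lt hBj).2 hcon)
  have hm3 : m ^ 3 ≤ 2 ^ j := by
    have h3 : (m : ℝ) ≤ 5 * (C + 1) / η ^ 2 * j + 1 := by
      rw [hm]
      push_cast
      have h4 := Nat.floor_le hBj
      linarith
    have h4 : (m : ℝ) ^ 3 ≤ 2 ^ j :=
      (pow_le_pow_left₀ (Nat.cast_nonneg m) h3 3).trans (hj₀ j hj)
    exact_mod_cast h4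
  obtain ⟨F', hF', hF'c⟩ := Finset.exists_subset_card_eq hmF
  have h3 := small h1 (C₁ := C + 1) (by positivity) hη hj1 hB ψ hψ F'
    (by rw [hF'c, hm]; exact Nat.succ_pos _) (by rw [hF'c]; exact hm3)
    (fun d hd => ⟨(hF d (hF' hd)).2.1, (hF d (hF' hd)).2.2.1, (hF d (hF' hd)).2.2.2⟩)
  rw [hF'c, hm] at h3
  push_cast at h3
  have h4 := Nat.lt_floor_add_one (5 * (C + 1) / η ^ 2 * j)
  linarith

end Pool.Agent.Lib.MP_706923_coQ
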