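import Pool.Agent.Lib.MP_706923_coQ.Spec

/-!
# MP_706923_co, package Q: the number of the `k` for given `b`, `S`, `P`, `e`
-/

set_option autoImplicit false

namespace Pool.Agent.Lib.MP_706923_coQ

open Finset Pool.Agent.Lib.MP_706923_co

private theorem Cnt_pv {p n : ℕ} (hp : p.Prime) (hn : n ≠ 0) (h1 : p ∣ n) (h2 : ¬ p ^ 2 ∣ n) :
    padicValNat p n = 1 := by
  have := Fact.mk hp
  have h3 : 1 ≤ padicValNat p n := (padicValNat_dvd_iff_le hn).1 (by rwa [pow_one])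
  have h4 : ¬ 2 ≤ padicValNat p n := fun h => h2 ((padicValNat_dvd_iff_le hn).2 h)
  omega

private theorem Cnt_c0 (l : ℕ) (e : ℤ) (P q : ℕ) : c0 l e P q ≤ 1 := by
  unfold c0
  split_ifs <;> omega

private theorem Cnt_c1 (l : ℕ) (S : Finset ℕ) (q : ℕ) : c1 l S q ≤ 2 := by
  unfold c1
  split_ifs <;> omega

/-- The size of the interval. -/
private theorem Cnt_num {x M : ℕ} (hM : 1 ≤ M) (hx : M ^ 2 ≤ x) :
    Real.log x / 2 ≤ Real.log ((x / M + 1 : ℕ) : ℝ) ∧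
      ((x / M + 1 : ℕ) : ℝ) ≤ 2 * (x / M) := by
  have hM0 : (0 : ℝ) < M := by exact_mod_cast hM
  have hM1 : (1 : ℝ) ≤ M := by exact_mod_cast hM
  have hx' : (M : ℝ) ^ 2 ≤ x := by exact_mod_cast hx
  have hx0 : (0 : ℝ) < x := lt_of_lt_of_le (by positivity) hx'
  have h1 : (x : ℝ) / M ≤ ((x / M + 1 : ℕ) : ℝ) := by
    rw [div_le_iff₀ hM0]
    have h : x < (x / M + 1) * M := by
      have := Nat.div_add_mod x M
      have h2 := Nat.mod_lt x (show M > 0 by omega)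
      nlinarith
    exact_mod_cast h.le
  have h2 : (x : ℝ) / M > 0 := by positivity
  refine ⟨?_, ?_⟩
  · have h3 : Real.log ((x : ℝ) / M) ≤ Real.log ((x / M + 1 : ℕ) : ℝ) := Real.log_le_log h2 h1
    have h4 : Real.log x ≤ 2 * Real.log ((x : ℝ) / M) := by
      have h5 : (2 : ℝ) * Real.log ((x : ℝ) / M) = Real.log (((x : ℝ) / M) ^ 2) := by
        rw [Real.log_pow]
        norm_num
      rw [h5]
      apply Real.log_le_log hx0
      rw [div_pow, le_div_iff₀ (by positivity)]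
      calc (x : ℝ) * (M : ℝ) ^ 2 ≤ x * x := mul_le_mul_of_nonneg_left hx' hx0.le
        _ = (x : ℝ) ^ 2 := by ring
    linarith
  · have h3 : (((x / M : ℕ)) : ℝ) ≤ (x : ℝ) / M := Nat.cast_div_le
    have h4 : (1 : ℝ) ≤ (x : ℝ) / M := by
      rw [le_div_iff₀ hM0, one_mul]
      calc (M : ℝ) ≤ M ^ 2 := by nlinarith
        _ ≤ x := hx'
    push_cast
    linarith

theorem tCnt (h1 : S_Om) (h2 : S_Sv) : S_Cnt := by
  classical
  obtain ⟨A₀, hA₀, hsv⟩ := h2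
  refine ⟨2 * A₀, by positivity, ?_⟩
  intro l x W J b P e S K hl hJ hW hb hbW hS hx hA hK
  set M : ℕ := b ^ 2 * ∏ p ∈ S, p with hMdef
  have hprod : 0 < ∏ p ∈ S, p := Finset.prod_pos fun p hp => (hS p hp).1.pos
  have hM : 1 ≤ M := Nat.mul_pos (by positivity) hprod
  have hnd : ∀ q : ℕ, 2 ^ W < q → ¬ q ∣ b := fun q hq h => by
    have := Nat.le_of_dvd (by omega) h
    omega
  -- the multiples
  have hkM : ∀ k ∈ K, l < k ∧ k = l + M * ((k - l) / M) := by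
    intro k hk
    obtain ⟨-, ⟨v, hv, -⟩, ⟨a, ha, hab⟩, hp, -, -⟩ := hK k hk
    have hlt := hv.lt
    refine ⟨hlt, ?_⟩
    have hdv : (∏ p ∈ S, p) ∣ a := by
      refine Finset.prod_primes_dvd a (fun p hp' => (hS p hp').1.prime) ?_
      intro p hp'
      have h3 : p ∣ a * b ^ 2 := hab ▸ hp p hp'
      rcases (hS p hp').1.dvd_mul.1 h3 with h | h
      · exact h
      · exact absurd ((hS p hp').1.dvd_of_dvd_pow h) (hnd p (hS p hp').2)
    have hMd : M ∣ k - l := by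
      rw [hab, hMdef, mul_comm a]
      exact Nat.mul_dvd_mul_left _ hdv
    rw [Nat.mul_div_cancel' hMd]
    omega
  set T : Finset ℕ := (prs W J S).filter fun q => 1 ≤ c0 l e P q + c1 l S q with hT
  have hTq : ∀ q ∈ T, q.Prime ∧ 2 ^ W < q ∧ q ≤ 2 ^ J ∧ q ∉ S ∧ 1 ≤ c0 l e P q + c1 l S q := by
    intro q hq
    rw [hT, mem_filter, prs, mem_filter, mem_Ioc] at hq
    exact ⟨hq.1.2.1, hq.1.1.1, hq.1.1.2, hq.1.2.2, hq.2⟩
  have hqM : ∀ q ∈ T, ¬ q ∣ M := by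
    intro q hq h
    obtain ⟨hq1, hq2, -, hq4, -⟩ := hTq q hq
    rcases hq1.dvd_mul.1 h with h | h
    · exact hnd q hq2 (hq1.dvd_of_dvd_pow h)
    · obtain ⟨p, hp, hqp⟩ := (hq1.prime.dvd_finsetProd_iff _).1 h
      have := (Nat.prime_dvd_prime_iff_eq hq1 (hS p hp).1).1 hqp
      exact hq4 (this ▸ hp)
  have hOm : ∀ q ∈ T, ∃ Ω : Finset ℕ, Ω ⊆ range q ∧ Ω.card = c0 l e P q + c1 l S q ∧
      ∀ t v : ℕ, Adm l (l + M * t) v → (v % 4 = 1 → e = 1) → (v % 4 = 3 → e = -1) →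
      (∃ a, Squarefree a ∧ M * t = a * b ^ 2) → (∀ p ∈ S, Odd (padicValNat p (M * t))) →
      ¬ q ^ 2 ∣ M * t → (q < P → ¬ q ∣ M * t) → t % q ∉ Ω := by
    intro q hq
    obtain ⟨hq1, hq2, -, hq4, -⟩ := hTq q hq
    exact h1 l b M q P e S hl hq1 (by omega) (hqM q hq) (hnd q hq2)
      fun p hp => ⟨(hS p hp).1, fun h => hq4 (h ▸ hp)⟩
  choose! Ω hΩ using hOm
  have hinj : Set.InjOn (fun k => (k - l) / M) (K : Set ℕ) := by
    intro k hk k' hk' h
    have h3 := (hkM k hk).2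
    have h4 := (hkM k' hk').2
    simp only at h
    rw [h3, h4, h]
  obtain ⟨n1, n2⟩ := Cnt_num hM hx
  have hmain := hsv (x / M + 1) J T (K.image fun k => (k - l) / M) Ω hJ (Nat.le_add_left _ _)
    (by linarith) (fun q hq => ⟨(hTq q hq).1, by have := (hTq q hq).2.1; omega, (hTq q hq).2.2.1⟩)
    (fun q hq => ⟨(hΩ q hq).1, by rw [(hΩ q hq).2.1]; exact (hTq q hq).2.2.2.2, by
      rw [(hΩ q hq).2.1]
      have := Cnt_c0 l e P q
      have := Cnt_c1 l S q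
      omega⟩) ?_
  · rw [card_image_of_injOn hinj] at hmain
    have hsum : ∑ q ∈ T, ((Ω q).card : ℝ) / q =
        ∑ q ∈ prs W J S, ((c0 l e P q + c1 l S q : ℕ) : ℝ) / q := by
      rw [hT, sum_filter]
      refine sum_congr rfl fun q hq => ?_
      split_ifs with h
      · rw [(hΩ q (by rw [hT, mem_filter]; exact ⟨hq, h⟩)).2.1]
      · have h0 : c0 l e P q + c1 l S q = 0 := by omega
        rw [h0, Nat.cast_zero, zero_div]
    rw [hsum] at hmain
    have hcast : ((b : ℝ) ^ 2 * ∏ p ∈ S, (p : ℝ)) = (M : ℝ) := by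
      rw [hMdef]
      push_cast
      rfl
    rw [hcast]
    refine hmain.trans ?_
    have hexp := (Real.exp_pos (-∑ q ∈ prs W J S, ((c0 l e P q + c1 l S q : ℕ) : ℝ) / q)).le
    calc A₀ * ((x / M + 1 : ℕ) : ℝ) *
          Real.exp (-∑ q ∈ prs W J S, ((c0 l e P q + c1 l S q : ℕ) : ℝ) / q)
        ≤ A₀ * (2 * (x / M)) *
          Real.exp (-∑ q ∈ prs W J S, ((c0 l e P q + c1 l S q : ℕ) : ℝ) / q) :=
          mul_le_mul_of_nonneg_right (mul_le_mul_of_nonneg_left n2 hA₀.le) hexp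
      _ = _ := by ring
  · intro n hn
    rw [mem_image] at hn
    obtain ⟨k, hk, rfl⟩ := hn
    obtain ⟨hkx, ⟨v, hv, hv1, hv3⟩, ⟨a, ha, hab⟩, hp, hsq, hlast⟩ := hK k hk
    obtain ⟨hlt, hkeq⟩ := hkM k hk
    have hMt : M * ((k - l) / M) = k - l := by omega
    refine ⟨?_, ?_⟩
    · have : (k - l) / M ≤ x / M := Nat.div_le_div_right (by omega)
      omega
    · intro q hq
      obtain ⟨hq1, hq2, hq3, hq4, -⟩ := hTq q hq
      refine (hΩ q hq).2.2 ((k - l) / M) v ?_ hv1 hv3 ⟨a, ha, by rw [hMt]; exact hab⟩ ?_ ?_ ?_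
      · rw [← hkeq]
        exact hv
      · intro p hp'
        rw [hMt, Cnt_pv (hS p hp').1 (by omega) (hp p hp') (hsq p (hS p hp').2)]
        exact odd_one
      · rw [hMt]
        exact hsq q hq2
      · intro hqP
        rw [hMt]
        exact hlast q hq1 hq2 hq3 hqP hq4

end Pool.Agent.Lib.MP_706923_coQ
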