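import Pool.Agent.Lib.MP_706923_coQ.Spec

/-!
# MP_706923_co, package Q: the covering argument
-/

set_option autoImplicit false

namespace Pool.Agent.Lib.MP_706923_coQ

open Finset Pool.Agent.Lib.MP_706923_co

private def Ebad (l : ℕ) (η : ℝ) (W J k : ℕ) : Prop :=
  ∃ j d : ℕ, W ≤ j ∧ j < J ∧ Odd d ∧ Squarefree d ∧
    2 ^ W < d ∧ d ^ 3 ≤ 2 ^ j ∧ d ∣ k - l ∧ (η / j < |bs 1 d j| ∨ η / j < |bs (1 - 4 * l) d j|)

open Classical in
private noncomputable def PP (R J : ℕ) (S : Finset ℕ) : ℕ :=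
  if S.card = R then S.sup id else 2 ^ J + 1

private def InK (l W J b P : ℕ) (e : ℤ) (S : Finset ℕ) (k : ℕ) : Prop :=
  (∃ v, Adm l k v ∧ (v % 4 = 1 → e = 1) ∧ (v % 4 = 3 → e = -1)) ∧
    (∃ a, Squarefree a ∧ k - l = a * b ^ 2) ∧ (∀ p ∈ S, p ∣ k - l) ∧
    (∀ m, 2 ^ W < m → ¬ m ^ 2 ∣ k - l) ∧
    ∀ p : ℕ, p.Prime → 2 ^ W < p → p ≤ 2 ^ J → p < P → p ∉ S → ¬ p ∣ k - l

open Classical in
private noncomputable def KK (l : ℕ) (η : ℝ) (x W J b P : ℕ) (e : ℤ) (S : Finset ℕ) : Finset ℕ :=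
  (Icc 1 x).filter fun k => l < k ∧ ¬ Ebad l η W J k ∧ InK l W J b P e S k

private noncomputable def TT (W J : ℕ) : Finset ℕ := (Ioc (2 ^ W) (2 ^ J)).filter Nat.Prime

private noncomputable def SS (W J R : ℕ) : Finset (Finset ℕ) :=
  (((Ioc (2 ^ W) (2 ^ J)).filter Nat.Prime).powerset).filter (fun S => S.card ≤ R)

private theorem mem_SS {W J R : ℕ} {S : Finset ℕ} (h : S ∈ SS W J R) :
    (∀ p ∈ S, p.Prime ∧ 2 ^ W < p ∧ p ≤ 2 ^ J) ∧ S.card ≤ R := by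
  unfold SS at h
  rw [mem_filter, mem_powerset] at h
  refine ⟨fun p hp => ?_, h.2⟩
  have h1 := h.1 hp
  rw [mem_filter, mem_Ioc] at h1
  exact ⟨h1.2, h1.1.1, h1.1.2⟩

private theorem prod_le {S : Finset ℕ} {N R : ℕ} (hN : 1 ≤ N) (h : ∀ p ∈ S, p ≤ N)
    (hc : S.card ≤ R) : ∏ p ∈ S, p ≤ N ^ R := by
  calc ∏ p ∈ S, p ≤ ∏ _p ∈ S, N := Finset.prod_le_prod' h
    _ = N ^ S.card := by rw [prod_const]
    _ ≤ N ^ R := Nat.pow_le_pow_right hN hc

private theorem odd_prod {S : Finset ℕ} (h : ∀ p ∈ S, Odd p) : Odd (∏ p ∈ S, p) := by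
  induction S using Finset.induction_on with
  | empty => rw [prod_empty]; exact odd_one
  | insert a S ha ih =>
    rw [prod_insert ha]
    exact (h a (mem_insert_self _ _)).mul (ih fun p hp => h p (mem_insert_of_mem hp))

private theorem sqf_prod {S : Finset ℕ} (h : ∀ p ∈ S, p.Prime) : Squarefree (∏ p ∈ S, p) := by
  refine Finset.squarefree_prod_of_pairwise_isCoprime (fun p hp q hq hpq => ?_)
    fun p hp => (h p hp).squarefree
  change IsRelPrime p q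
  rw [← Nat.coprime_iff_isRelPrime]
  exact (Nat.coprime_primes (h p hp) (h q hq)).2 hpq

private theorem dvd_prod {S : Finset ℕ} {n : ℕ} (h : ∀ p ∈ S, p.Prime) (hd : ∀ p ∈ S, p ∣ n) :
    ∏ p ∈ S, p ∣ n :=
  Finset.prod_primes_dvd n (fun p hp => (h p hp).prime) hd

/-- If `K` is not empty then `Gd` holds. -/
private theorem gd_of_mem {l R : ℕ} {η : ℝ} (hR : 1 ≤ R) {x W J b : ℕ} {e : ℤ} {S : Finset ℕ}
    (hW : 1 ≤ W) (hS : ∀ p ∈ S, p.Prime ∧ 2 ^ W < p ∧ p ≤ 2 ^ J) (hc : S.card = R) {k : ℕ}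
    (hk : k ∈ KK l η x W J b (S.sup id) e S) :
    Gd l R η J (Nat.log 2 (S.sup id) + 1) S := by
  classical
  unfold KK at hk
  rw [mem_filter] at hk
  obtain ⟨-, -, hE, hin⟩ := hk
  set P : ℕ := S.sup id with hP
  have hSne : S.Nonempty := by
    rw [← card_pos, hc]
    exact hR
  obtain ⟨p0, hp0⟩ := hSne
  have hPp : p0 ≤ P := Finset.le_sup (f := id) hp0
  have hPW : 2 ^ W < P := lt_of_lt_of_le (hS p0 hp0).2.1 hPp
  have hlog : W ≤ Nat.log 2 P := Nat.le_log_of_pow_le (by norm_num) hPW.le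
  have hPi : P < 2 ^ (Nat.log 2 P + 1) := Nat.lt_pow_succ_log_self (by norm_num) P
  set i : ℕ := Nat.log 2 P + 1 with hi
  intro I hI hIne j hj hjJ
  have hIp : ∀ p ∈ I, p.Prime := fun p hp => (hS p (hI hp)).1
  obtain ⟨p1, hp1⟩ := hIne
  have hWj : W ≤ j := by
    have h1 : i ≤ 3 * R * i := Nat.le_mul_of_pos_left i (by omega)
    omega
  have h2W : 2 ≤ 2 ^ W := by
    calc 2 = 2 ^ 1 := rfl
      _ ≤ 2 ^ W := Nat.pow_le_pow_right (by norm_num) hW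
  have hodd : Odd (∏ p ∈ I, p) := odd_prod fun p hp => by
    have h1 := (hS p (hI hp))
    exact h1.1.odd_of_ne_two (by omega)
  have hsq : Squarefree (∏ p ∈ I, p) := sqf_prod hIp
  have hdpos : 0 < ∏ p ∈ I, p := Finset.prod_pos fun p hp => (hIp p hp).pos
  have hd1 : 2 ^ W < ∏ p ∈ I, p :=
    lt_of_lt_of_le (hS p1 (hI hp1)).2.1 (Nat.le_of_dvd hdpos (Finset.dvd_prod_of_mem _ hp1))
  have hd2 : ∏ p ∈ I, p ≤ (2 ^ i) ^ R := by
    refine prod_le (Nat.one_le_two_pow) (fun p hp => ?_) (hc ▸ card_le_card hI)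
    exact (le_trans (Finset.le_sup (f := id) (hI hp)) hPi.le)
  have hd3 : (∏ p ∈ I, p) ^ 3 ≤ 2 ^ j := by
    calc (∏ p ∈ I, p) ^ 3 ≤ ((2 ^ i) ^ R) ^ 3 := Nat.pow_le_pow_left hd2 3
      _ = 2 ^ (3 * R * i) := by
        rw [← pow_mul, ← pow_mul]
        congr 1
        ring
      _ ≤ 2 ^ j := Nat.pow_le_pow_right (by norm_num) hj
  have hdv : (∏ p ∈ I, p) ∣ k - l := dvd_prod hIp fun p hp => hin.2.2.1 p (hI hp)
  by_contra hcon
  refine hE ⟨j, ∏ p ∈ I, p, hWj, hjJ, hodd, hsq, hd1, hd3, hdv, ?_⟩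
  rw [not_and_or, not_le, not_le] at hcon
  exact hcon

private theorem rpow_eq {W J : ℕ} (hW : 1 ≤ W) (hJ : 1 ≤ J) (e0 : ℝ) :
    Real.exp (-(e0 * Real.log ((J : ℝ) / W))) = ((W : ℝ) / J) ^ e0 := by
  have hW' : (0 : ℝ) < W := by exact_mod_cast hW
  have hJ' : (0 : ℝ) < J := by exact_mod_cast hJ
  rw [Real.rpow_def_of_pos (div_pos hW' hJ')]
  congr 1
  rw [Real.log_div hJ'.ne' hW'.ne', Real.log_div hW'.ne' hJ'.ne']
  ring

private theorem card_KK {l R : ℕ} {η e0 A C1 : ℝ} (hl : 1 ≤ l) (hR : 1 ≤ R) (hA : 0 < A)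
    (hcnt : ∀ (l x W J b P : ℕ) (e : ℤ) (S K : Finset ℕ), 1 ≤ l → 1 ≤ J →
      4 * l + 6 ≤ 2 ^ W → 1 ≤ b → b ≤ 2 ^ W → (∀ p ∈ S, p.Prime ∧ 2 ^ W < p) →
      (b ^ 2 * ∏ p ∈ S, p) ^ 2 ≤ x → A * J * (1 + Real.log J) ≤ Real.log x →
      (∀ k ∈ K, k ≤ x ∧ (∃ v, Adm l k v ∧ (v % 4 = 1 → e = 1) ∧ (v % 4 = 3 → e = -1)) ∧
        (∃ a, Squarefree a ∧ k - l = a * b ^ 2) ∧ (∀ p ∈ S, p ∣ k - l) ∧
        (∀ m, 2 ^ W < m → ¬ m ^ 2 ∣ k - l) ∧
        ∀ p : ℕ, p.Prime → 2 ^ W < p → p ≤ 2 ^ J → p < P → p ∉ S → ¬ p ∣ k - l) →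
      (K.card : ℝ) ≤ A * (x / ((b : ℝ) ^ 2 * ∏ p ∈ S, (p : ℝ))) *
        Real.exp (-∑ q ∈ prs W J S, ((c0 l e P q + c1 l S q : ℕ) : ℝ) / q))
    (hwt : ∀ (W J P : ℕ) (e : ℤ) (S : Finset ℕ), 1 ≤ W → W ≤ J → 4 * l + 6 ≤ 2 ^ W →
      (e = 1 ∨ e = -1) → (∀ p ∈ S, p.Prime ∧ 2 ^ W < p ∧ p ≤ 2 ^ J) →
      ((S.card = R ∧ P = S.sup id ∧ Gd l R η J (Nat.log 2 P + 1) S) ∨
        (S.card < R ∧ P = 2 ^ J + 1)) →
      e0 * Real.log ((J : ℝ) / W) - C1 ≤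
        ∑ q ∈ prs W J S, ((c0 l e P q + c1 l S q : ℕ) : ℝ) / q)
    {x W J : ℕ} (hW : 1 ≤ W) (hWJ : W ≤ J) (hlW : 4 * l + 6 ≤ 2 ^ W)
    (hx : (2 ^ (2 * W + J * R)) ^ 2 ≤ x) (hxA : A * J * (1 + Real.log J) ≤ Real.log x)
    {b : ℕ} (hb1 : 1 ≤ b) (hb2 : b ≤ 2 ^ W) {e : ℤ} (he : e = 1 ∨ e = -1) {S : Finset ℕ}
    (hS : S ∈ SS W J R) :
    ((KK l η x W J b (PP R J S) e S).card : ℝ) ≤
      (A * Real.exp C1 * x * ((W : ℝ) / J) ^ e0) *
        ((((b : ℝ) ^ 2)⁻¹) * (1 / ∏ p ∈ S, (p : ℝ))) := by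
  classical
  obtain ⟨hSp, hSc⟩ := mem_SS hS
  have hJ : 1 ≤ J := le_trans hW hWJ
  have hprodpos : (0 : ℝ) < ∏ p ∈ S, (p : ℝ) :=
    Finset.prod_pos fun p hp => by exact_mod_cast (hSp p hp).1.pos
  have hbpos : (0 : ℝ) < b := by exact_mod_cast hb1
  have hWpos : (0 : ℝ) < W := by exact_mod_cast hW
  have hJpos : (0 : ℝ) < J := by exact_mod_cast hJ
  have hrhs : 0 ≤ (A * Real.exp C1 * x * ((W : ℝ) / J) ^ e0) *
        ((((b : ℝ) ^ 2)⁻¹) * (1 / ∏ p ∈ S, (p : ℝ))) := by positivity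
  rcases (KK l η x W J b (PP R J S) e S).eq_empty_or_nonempty with hemp | ⟨k, hk⟩
  · rw [hemp, card_empty, Nat.cast_zero]
    exact hrhs
  have halt : (S.card = R ∧ PP R J S = S.sup id ∧ Gd l R η J (Nat.log 2 (PP R J S) + 1) S) ∨
        (S.card < R ∧ PP R J S = 2 ^ J + 1) := by
    rcases eq_or_lt_of_le hSc with h | h
    · left
      have hP : PP R J S = S.sup id := if_pos h
      refine ⟨h, hP, ?_⟩
      rw [hP] at hk ⊢
      exact gd_of_mem hR hW hSp h hk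
    · right
      exact ⟨h, if_neg (ne_of_lt h)⟩
  have hw := hwt W J (PP R J S) e S hW hWJ hlW he hSp halt
  have hM : (b ^ 2 * ∏ p ∈ S, p) ^ 2 ≤ x := by
    refine le_trans (Nat.pow_le_pow_left ?_ 2) hx
    have h1 : b ^ 2 ≤ 2 ^ (2 * W) := by
      calc b ^ 2 ≤ (2 ^ W) ^ 2 := Nat.pow_le_pow_left hb2 2
        _ = 2 ^ (2 * W) := by rw [← pow_mul, mul_comm]
    have h2 : ∏ p ∈ S, p ≤ (2 ^ J) ^ R :=
      prod_le Nat.one_le_two_pow (fun p hp => (hSp p hp).2.2) hSc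
    calc b ^ 2 * ∏ p ∈ S, p ≤ 2 ^ (2 * W) * (2 ^ J) ^ R := Nat.mul_le_mul h1 h2
      _ = 2 ^ (2 * W + J * R) := by rw [← pow_mul, ← pow_add]
  have hc := hcnt l x W J b (PP R J S) e S (KK l η x W J b (PP R J S) e S) hl hJ hlW hb1 hb2
    (fun p hp => ⟨(hSp p hp).1, (hSp p hp).2.1⟩) hM hxA (fun k hk => by
      unfold KK at hk
      rw [mem_filter, mem_Icc] at hk
      exact ⟨hk.1.2, hk.2.2.2.1, hk.2.2.2.2.1, hk.2.2.2.2.2.1, hk.2.2.2.2.2.2.1,
        hk.2.2.2.2.2.2.2⟩)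
  refine hc.trans ?_
  have hexp : Real.exp (-∑ q ∈ prs W J S, ((c0 l e (PP R J S) q + c1 l S q : ℕ) : ℝ) / q) ≤
      Real.exp C1 * ((W : ℝ) / J) ^ e0 := by
    rw [← rpow_eq hW hJ, ← Real.exp_add]
    refine Real.exp_le_exp.2 ?_
    linarith
  have hnn : 0 ≤ A * (x / ((b : ℝ) ^ 2 * ∏ p ∈ S, (p : ℝ))) := by positivity
  refine (mul_le_mul_of_nonneg_left hexp hnn).trans (le_of_eq ?_)
  field_simp

private theorem sum_b (N : ℕ) : ∑ b ∈ Icc 1 N, (((b : ℝ) ^ 2)⁻¹) ≤ 2 := by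
  have h := sum_Ioo_inv_sq_le (α := ℝ) 0 (N + 1)
  have h2 : Icc 1 N = Ioo 0 (N + 1) := by
    ext b
    rw [mem_Icc, mem_Ioo]
    omega
  rw [h2]
  refine h.trans (le_of_eq ?_)
  norm_num

open Classical in
private theorem cover {l R : ℕ} {η : ℝ} (hl : 1 ≤ l) (hR : 1 ≤ R) (h1 : S_Ds) (h7 : S_Dec)
    (x W J : ℕ) :
    ((Icc 1 x).filter fun k => IsK l k) ⊆
      (Icc 1 l ∪ (range (Nat.sqrt x + 1)).image fun s => l + s ^ 2) ∪
      ((((Icc 1 x).filter fun k => l < k ∧ ∃ m, 2 ^ W < m ∧ m ^ 2 ∣ k - l)) ∪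
      ((Icc 1 x).filter fun k => l < k ∧ Ebad l η W J k)) ∪
      (({1, -1} : Finset ℤ).biUnion fun e => (Icc 1 (2 ^ W)).biUnion fun b =>
        (SS W J R).biUnion fun S => KK l η x W J b (PP R J S) e S) := by
  intro k hk
  rw [mem_filter] at hk
  obtain ⟨hkx, hK⟩ := hk
  have hkx' := mem_Icc.1 hkx
  by_cases hlk : l < k
  swap
  · refine mem_union_left _ (mem_union_left _ (mem_union_left _ ?_))
    rw [mem_Icc]
    omega
  by_cases hsq : ∃ s : ℕ, k = l + s ^ 2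
  · obtain ⟨s, hs⟩ := hsq
    refine mem_union_left _ (mem_union_left _ (mem_union_right _ ?_))
    rw [mem_image]
    refine ⟨s, ?_, hs.symm⟩
    rw [mem_range]
    have : s ≤ Nat.sqrt x := by
      rw [Nat.le_sqrt']
      omega
    omega
  by_cases hEa : ∃ m, 2 ^ W < m ∧ m ^ 2 ∣ k - l
  · refine mem_union_left _ (mem_union_right _ (mem_union_left _ ?_))
    rw [mem_filter]
    exact ⟨hkx, hlk, hEa⟩
  by_cases hEb : Ebad l η W J k
  · refine mem_union_left _ (mem_union_right _ (mem_union_right _ ?_))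
    rw [mem_filter]
    exact ⟨hkx, hlk, hEb⟩
  refine mem_union_right _ ?_
  have hv := (h1 l k hl hlk hK).resolve_left hsq
  obtain ⟨v, hv⟩ := hv
  push Not at hEa
  obtain ⟨a, b, S, hn, hasq, hb1, hb2, hS, hS2⟩ := h7 (k - l) W J R (by omega) hR hEa
  have hSS : S ∈ SS W J R := by
    unfold SS
    rw [mem_filter, mem_powerset]
    refine ⟨fun p hp => ?_, ?_⟩
    · rw [mem_filter, mem_Ioc]
      exact ⟨⟨(hS p hp).2.1, (hS p hp).2.2.1⟩, (hS p hp).1⟩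
    · rcases hS2 with h | h
      · exact le_of_eq h.1
      · exact le_of_lt h.1
  have hlast : ∀ p : ℕ, p.Prime → 2 ^ W < p → p ≤ 2 ^ J → p < PP R J S → p ∉ S →
      ¬ p ∣ k - l := by
    intro p hp hpW hpJ hpP hpS
    rcases hS2 with h | h
    · have hP : PP R J S = S.sup id := if_pos h.1
      rw [hP] at hpP
      exact h.2 p hp hpW hpP hpS
    · exact h.2 p hp hpW hpJ hpS
  have key : ∀ e : ℤ, (v % 4 = 1 → e = 1) → (v % 4 = 3 → e = -1) →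
      k ∈ KK l η x W J b (PP R J S) e S := by
    intro e he1 he2
    unfold KK
    rw [mem_filter]
    exact ⟨hkx, hlk, hEb, ⟨v, hv, he1, he2⟩, ⟨a, hasq, hn⟩, fun p hp => (hS p hp).2.2.2, hEa,
      hlast⟩
  rw [mem_biUnion]
  by_cases h4 : v % 4 = 3
  · refine ⟨-1, by simp, ?_⟩
    rw [mem_biUnion]
    refine ⟨b, mem_Icc.2 ⟨hb1, hb2⟩, ?_⟩
    rw [mem_biUnion]
    exact ⟨S, hSS, key (-1) (fun h => by omega) (fun _ => rfl)⟩
  · refine ⟨1, by simp, ?_⟩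
    rw [mem_biUnion]
    refine ⟨b, mem_Icc.2 ⟨hb1, hb2⟩, ?_⟩
    rw [mem_biUnion]
    exact ⟨S, hSS, key 1 (fun _ => rfl) (fun h => absurd h h4)⟩

private theorem card_five (a b c d e : Finset ℕ) : ((a ∪ b) ∪ (c ∪ d) ∪ e).card ≤
    a.card + b.card + (c.card + d.card) + e.card := by
  have a1 := card_union_le ((a ∪ b) ∪ (c ∪ d)) e
  have a2 := card_union_le (a ∪ b) (c ∪ d)
  have a3 := card_union_le a b
  have a4 := card_union_le c d
  omega

private theorem asm {l u1 u2 u3 u4 u5 s y K C3 C D x z P Q : ℝ} (hl0 : 0 ≤ l) (hs : 1 ≤ s)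
    (hy : 0 ≤ y) (hK : 1 ≤ K) (hz : 0 ≤ x * z) (hlC : l + 2 ≤ C) (h31 : C3 + 1 ≤ C)
    (hDC : D ≤ C) (hP0 : 0 ≤ P) (hPQ : P ≤ Q) (hD0 : 0 ≤ D)
    (h1 : u1 ≤ l) (h2 : u2 ≤ s + 1) (h3 : u3 ≤ y) (h4 : u4 ≤ C3 * K * y)
    (h5 : u5 ≤ D * x * z * P) :
    u1 + u2 + (u3 + u4) + u5 ≤ C * (s + K * y + x * z * Q) := by
  have e1 : l + (s + 1) ≤ C * s := by nlinarith
  have e2 : y + C3 * K * y ≤ C * (K * y) := by
    have hq : y ≤ K * y := le_mul_of_one_le_left hy hK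
    have := mul_le_mul_of_nonneg_right h31 (le_trans hy hq)
    nlinarith
  have e3 : D * x * z * P ≤ C * (x * z * Q) := by
    have s1 : x * z * P ≤ x * z * Q := mul_le_mul_of_nonneg_left hPQ hz
    have s0 : 0 ≤ x * z * P := mul_nonneg hz hP0
    have s2 : D * (x * z * P) ≤ C * (x * z * Q) :=
      mul_le_mul hDC s1 s0 (le_trans hD0 hDC)
    linarith
  linarith

open Classical in
theorem tCov (h1 : S_Ds) (h2 : S_Cnt) (h3 : S_Wt) (h4 : S_SumS) (h5 : S_Ea) (h6 : S_Eb)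
    (h7 : S_Dec) : S_Cov := by
  intro l R η e0 hl hR hη he0 halt
  obtain ⟨A, hA, hcnt⟩ := h2
  obtain ⟨C1, hC1, hwt⟩ := h3 l R η e0 hl hR hη he0 halt
  obtain ⟨C2, hC2, hsum⟩ := h4
  obtain ⟨C3, j3, hC3, hEb⟩ := h6 l η hl hη
  set D : ℝ := 4 * A * Real.exp C1 with hD
  have hDpos : 0 < D := by positivity
  refine ⟨(l + 2) + (C3 + 1) + D + C2 + A, j3 + 4 * l + 6, ?_, ?_⟩
  · have : (0 : ℝ) ≤ l := Nat.cast_nonneg l
    linarith
  intro x W J hWj hWJ hx hxC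
  set C : ℝ := (l + 2) + (C3 + 1) + D + C2 + A with hC
  have hlr : (0 : ℝ) ≤ l := Nat.cast_nonneg l
  have hW : 1 ≤ W := by omega
  have hJ : 1 ≤ J := by omega
  have hWr : (1 : ℝ) ≤ W := by exact_mod_cast hW
  have hJr : (1 : ℝ) ≤ J := by exact_mod_cast hJ
  have hWpos : (0 : ℝ) < W := by linarith
  have hJpos : (0 : ℝ) < J := by linarith
  have hlogJ : 0 ≤ Real.log J := Real.log_nonneg hJr
  have h2W : W < 2 ^ W := Nat.lt_two_pow_self
  have hlW : 4 * l + 6 ≤ 2 ^ W := by omega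
  have hx1 : 1 ≤ x := le_trans (Nat.one_le_pow _ _ (by positivity)) hx
  have hxr : (1 : ℝ) ≤ x := by exact_mod_cast hx1
  have hxpos : (0 : ℝ) < x := by linarith
  have hsqrt1 : 1 ≤ Real.sqrt x := by
    rw [Real.one_le_sqrt]
    exact hxr
  have hxA : A * J * (1 + Real.log J) ≤ Real.log x := by
    refine le_trans ?_ hxC
    have hAC : A ≤ C := by
      rw [hC]
      linarith
    have h0 : 0 ≤ 1 + Real.log J := by linarith
    exact mul_le_mul_of_nonneg_right (mul_le_mul_of_nonneg_right hAC hJpos.le) h0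
  have hcov := card_le_card (cover (η := η) hl hR h1 h7 x W J)
  -- the pieces
  have hp1 : ((Icc 1 l).card : ℝ) ≤ l := by
    rw [Nat.card_Icc]
    simp
  have hp2 : (((range (Nat.sqrt x + 1)).image fun s => l + s ^ 2).card : ℝ) ≤
      Real.sqrt x + 1 := by
    have h := (card_image_le (s := range (Nat.sqrt x + 1)) (f := fun s => l + s ^ 2))
    rw [card_range] at h
    have h' : (((range (Nat.sqrt x + 1)).image fun s => l + s ^ 2).card : ℝ) ≤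
        ((Nat.sqrt x + 1 : ℕ) : ℝ) := by exact_mod_cast h
    refine h'.trans ?_
    push_cast
    have := Real.nat_sqrt_le_real_sqrt (a := x)
    linarith
  have hp3 := h5 l x (2 ^ W) Nat.one_le_two_pow
  have hp4 := hEb x W J (by omega) hWJ
  have hp5 : ((({1, -1} : Finset ℤ).biUnion fun e => (Icc 1 (2 ^ W)).biUnion fun b =>
        (SS W J R).biUnion fun S => KK l η x W J b (PP R J S) e S).card : ℝ) ≤
      D * x * ((W : ℝ) / J) ^ e0 * (C2 + Real.log J) ^ R := by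
    set B : ℝ := A * Real.exp C1 * x * ((W : ℝ) / J) ^ e0 with hB
    have hBnn : 0 ≤ B := by positivity
    have hSsum : ∑ S ∈ SS W J R, (1 : ℝ) / ∏ p ∈ S, (p : ℝ) ≤ (C2 + Real.log J) ^ R := by
      refine (hsum W J R hW hWJ).trans ?_
      have hlog : Real.log ((J : ℝ) / W) ≤ Real.log J := by
        refine Real.log_le_log (by positivity) ?_
        rw [div_le_iff₀ hWpos]
        nlinarith
      have hlog0 : 0 ≤ Real.log ((J : ℝ) / W) := by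
        refine Real.log_nonneg ?_
        rw [le_div_iff₀ hWpos, one_mul]
        exact_mod_cast hWJ
      exact pow_le_pow_left₀ (by linarith) (by linarith) R
    have hSnn : 0 ≤ ∑ S ∈ SS W J R, (1 : ℝ) / ∏ p ∈ S, (p : ℝ) := by positivity
    have hone : ∀ e ∈ ({1, -1} : Finset ℤ), (((Icc 1 (2 ^ W)).biUnion fun b =>
        (SS W J R).biUnion fun S => KK l η x W J b (PP R J S) e S).card : ℝ) ≤
        B * (2 * (C2 + Real.log J) ^ R) := by
      intro e he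
      have he' : e = 1 ∨ e = -1 := by simpa using he
      have c1 : (((Icc 1 (2 ^ W)).biUnion fun b =>
        (SS W J R).biUnion fun S => KK l η x W J b (PP R J S) e S).card : ℝ) ≤
          ∑ b ∈ Icc 1 (2 ^ W), ∑ S ∈ SS W J R, ((KK l η x W J b (PP R J S) e S).card : ℝ) := by
        have h := card_biUnion_le (s := Icc 1 (2 ^ W)) (t := fun b =>
          (SS W J R).biUnion fun S => KK l η x W J b (PP R J S) e S)
        have h' : (((Icc 1 (2 ^ W)).biUnion fun b =>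
          (SS W J R).biUnion fun S => KK l η x W J b (PP R J S) e S).card : ℝ) ≤
            ((∑ b ∈ Icc 1 (2 ^ W), ((SS W J R).biUnion fun S =>
              KK l η x W J b (PP R J S) e S).card : ℕ) : ℝ) := by exact_mod_cast h
        refine h'.trans ?_
        rw [Nat.cast_sum]
        refine sum_le_sum fun b _ => ?_
        have h2 := card_biUnion_le (s := SS W J R) (t := fun S => KK l η x W J b (PP R J S) e S)
        have h2' : (((SS W J R).biUnion fun S => KK l η x W J b (PP R J S) e S).card : ℝ) ≤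
            ((∑ S ∈ SS W J R, (KK l η x W J b (PP R J S) e S).card : ℕ) : ℝ) := by
          exact_mod_cast h2
        rw [Nat.cast_sum] at h2'
        exact h2'
      refine c1.trans ?_
      have c2 : ∑ b ∈ (Icc 1 (2 ^ W) : Finset ℕ), ∑ S ∈ SS W J R,
          ((KK l η x W J b (PP R J S) e S).card : ℝ) ≤
          ∑ b ∈ (Icc 1 (2 ^ W) : Finset ℕ), ∑ S ∈ SS W J R,
            B * ((((b : ℝ) ^ 2)⁻¹) * (1 / ∏ p ∈ S, (p : ℝ))) := by
        refine sum_le_sum fun b hb => sum_le_sum fun S hS => ?_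
        rw [mem_Icc] at hb
        exact card_KK hl hR hA hcnt hwt hW hWJ hlW hx hxA hb.1 hb.2 he' hS
      refine c2.trans ?_
      have c3 : ∑ b ∈ (Icc 1 (2 ^ W) : Finset ℕ), ∑ S ∈ SS W J R,
            B * ((((b : ℝ) ^ 2)⁻¹) * (1 / ∏ p ∈ S, (p : ℝ))) =
          B * ((∑ b ∈ (Icc 1 (2 ^ W) : Finset ℕ), (((b : ℝ) ^ 2)⁻¹)) *
            ∑ S ∈ SS W J R, (1 : ℝ) / ∏ p ∈ S, (p : ℝ)) := by
        rw [sum_mul_sum, mul_sum]
        refine sum_congr rfl fun b _ => ?_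
        rw [mul_sum]
      rw [c3]
      refine mul_le_mul_of_nonneg_left ?_ hBnn
      exact mul_le_mul (sum_b _) hSsum hSnn (by norm_num)
    have h := card_biUnion_le (s := ({1, -1} : Finset ℤ)) (t := fun e =>
      (Icc 1 (2 ^ W)).biUnion fun b =>
        (SS W J R).biUnion fun S => KK l η x W J b (PP R J S) e S)
    have h' : ((({1, -1} : Finset ℤ).biUnion fun e => (Icc 1 (2 ^ W)).biUnion fun b =>
        (SS W J R).biUnion fun S => KK l η x W J b (PP R J S) e S).card : ℝ) ≤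
        ((∑ e ∈ ({1, -1} : Finset ℤ), ((Icc 1 (2 ^ W)).biUnion fun b =>
        (SS W J R).biUnion fun S => KK l η x W J b (PP R J S) e S).card : ℕ) : ℝ) := by
      exact_mod_cast h
    rw [Nat.cast_sum] at h'
    refine h'.trans ((sum_le_sum hone).trans (le_of_eq ?_))
    rw [sum_const]
    have hc2 : ({1, -1} : Finset ℤ).card = 2 := by decide
    rw [hc2, hB, hD]
    ring
  -- assembly
  have hU := card_five (Icc 1 l) ((range (Nat.sqrt x + 1)).image fun s => l + s ^ 2)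
    ((Icc 1 x).filter fun k => l < k ∧ ∃ m, 2 ^ W < m ∧ m ^ 2 ∣ k - l)
    ((Icc 1 x).filter fun k => l < k ∧ Ebad l η W J k)
    (({1, -1} : Finset ℤ).biUnion fun e => (Icc 1 (2 ^ W)).biUnion fun b =>
        (SS W J R).biUnion fun S => KK l η x W J b (PP R J S) e S)
  refine le_trans (Nat.cast_le.2 (le_trans hcov hU)) ?_
  push_cast
  have hp3' := hp3.trans (le_of_eq (show (x : ℝ) / ((2 ^ W : ℕ) : ℝ) = x / 2 ^ W by push_cast; rfl))
  refine asm hlr hsqrt1 (by positivity) (one_le_pow₀ hJr) (by positivity) ?_ ?_ ?_ ?_ ?_ hDpos.le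
    hp1 hp2 hp3' hp4 hp5
  · rw [hC]
    linarith
  · rw [hC]
    linarith
  · rw [hC]
    linarith
  · exact pow_nonneg (by linarith) R
  · refine pow_le_pow_left₀ (by linarith) ?_ R
    rw [hC]
    linarith

end Pool.Agent.Lib.MP_706923_coQ
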