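import Pool.Agent.Lib.MP_706923_coQ.Spec

/-!
# MP_706923_co, package Q: convergence of the sum of the reciprocals
-/

set_option autoImplicit false

namespace Pool.Agent.Lib.MP_706923_coQ

open Finset

open Classical in
private theorem Cvg_block (Q : Set ℕ) (C δ : ℝ)
    (hQ : ∀ x : ℕ, 2 ≤ x → (((Q ∩ Set.Icc 1 x).ncard : ℕ) : ℝ) ≤ C * x / Real.log x ^ (1 + δ))
    (j : ℕ) :
    ∑ k ∈ Ico (2 ^ j) (2 ^ (j + 1)), Q.indicator (fun k : ℕ => (1 : ℝ) / k) k ≤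
      2 * C / Real.log 2 ^ (1 + δ) * (1 / ((j + 1 : ℕ) : ℝ) ^ (1 + δ)) := by
  have hl2 : 0 < Real.log 2 := Real.log_pos (by norm_num)
  have h2j : (0 : ℝ) < 2 ^ j := by positivity
  have h1 : ∑ k ∈ Ico (2 ^ j) (2 ^ (j + 1)), Q.indicator (fun k : ℕ => (1 : ℝ) / k) k ≤
      ((Ico (2 ^ j) (2 ^ (j + 1))).filter (fun k => k ∈ Q)).card * (1 / 2 ^ j) := by
    rw [← nsmul_eq_mul, ← sum_const, sum_filter]
    refine sum_le_sum fun k hk => ?_
    rw [mem_Ico] at hk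
    by_cases hkQ : k ∈ Q
    · rw [Set.indicator_of_mem hkQ, if_pos hkQ]
      refine one_div_le_one_div_of_le h2j ?_
      exact_mod_cast hk.1
    · rw [Set.indicator_of_notMem hkQ, if_neg hkQ]
  have h2 : ((Ico (2 ^ j) (2 ^ (j + 1))).filter (fun k => k ∈ Q)).card ≤
      (Q ∩ Set.Icc 1 (2 ^ (j + 1))).ncard := by
    rw [← Set.ncard_coe_finset]
    refine Set.ncard_le_ncard ?_ ((Set.finite_Icc _ _).subset Set.inter_subset_right)
    intro k hk
    rw [mem_coe, mem_filter, mem_Ico] at hk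
    have h3 : 1 ≤ 2 ^ j := Nat.one_le_two_pow
    exact ⟨hk.2, Set.mem_Icc.2 ⟨h3.trans hk.1.1, hk.1.2.le⟩⟩
  have h3 : 2 ≤ 2 ^ (j + 1) := by
    calc 2 = 2 ^ 1 := by norm_num
      _ ≤ 2 ^ (j + 1) := Nat.pow_le_pow_right (by norm_num) (by omega)
  have h4 := hQ (2 ^ (j + 1)) h3
  have h5 : Real.log ((2 ^ (j + 1) : ℕ) : ℝ) = ((j + 1 : ℕ) : ℝ) * Real.log 2 := by
    push_cast
    rw [Real.log_pow]
    push_cast
    ring
  rw [h5, Real.mul_rpow (Nat.cast_nonneg _) hl2.le] at h4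
  have h6 : (((Ico (2 ^ j) (2 ^ (j + 1))).filter (fun k => k ∈ Q)).card : ℝ) ≤
      (((Q ∩ Set.Icc 1 (2 ^ (j + 1))).ncard : ℕ) : ℝ) := by exact_mod_cast h2
  refine h1.trans ((mul_le_mul_of_nonneg_right (h6.trans h4) (by positivity)).trans (le_of_eq ?_))
  have h7 : ((2 ^ (j + 1) : ℕ) : ℝ) = 2 * 2 ^ j := by
    push_cast
    ring
  rw [h7]
  have h8 : Real.log 2 ^ (1 + δ) ≠ 0 := (Real.rpow_pos_of_pos hl2 _).ne'
  have h9 : ((j + 1 : ℕ) : ℝ) ^ (1 + δ) ≠ 0 := by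
    refine (Real.rpow_pos_of_pos ?_ _).ne'
    positivity
  field_simp

private theorem Cvg_split (f : ℕ → ℝ) (n : ℕ) :
    ∑ i ∈ range (2 ^ n), f i = f 0 + ∑ j ∈ range n, ∑ k ∈ Ico (2 ^ j) (2 ^ (j + 1)), f k := by
  induction n with
  | zero => simp
  | succ n ih =>
    rw [sum_range_succ, ← add_assoc, ← ih, range_eq_Ico, range_eq_Ico,
      sum_Ico_consecutive _ (Nat.zero_le _) (Nat.pow_le_pow_right (by norm_num) (by omega))]

theorem tCvg : S_Cvg := by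
  intro Q C δ hC hδ hQ
  have h0 : ∀ k : ℕ, 0 ≤ Q.indicator (fun k : ℕ => (1 : ℝ) / k) k := fun k =>
    Set.indicator_nonneg (fun k _ => by positivity) k
  have hs : Summable (fun j : ℕ => 2 * C / Real.log 2 ^ (1 + δ) *
      (1 / ((j + 1 : ℕ) : ℝ) ^ (1 + δ))) := by
    refine Summable.mul_left _ ?_
    have h1 := Real.summable_one_div_nat_rpow.2 (show (1 : ℝ) < 1 + δ by linarith)
    exact (summable_nat_add_iff 1).2 h1
  have h1 : Summable (Q.indicator (fun k : ℕ => (1 : ℝ) / k)) := by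
    refine summable_of_sum_range_le (c := ∑' j : ℕ, 2 * C / Real.log 2 ^ (1 + δ) *
      (1 / ((j + 1 : ℕ) : ℝ) ^ (1 + δ))) h0 fun n => ?_
    have h2 : ∑ i ∈ range n, Q.indicator (fun k : ℕ => (1 : ℝ) / k) i ≤
        ∑ i ∈ range (2 ^ n), Q.indicator (fun k : ℕ => (1 : ℝ) / k) i :=
      sum_le_sum_of_subset_of_nonneg (range_mono Nat.lt_two_pow_self.le) fun i _ _ => h0 i
    refine h2.trans ?_
    rw [Cvg_split]
    have h3 : Q.indicator (fun k : ℕ => (1 : ℝ) / k) 0 = 0 := by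
      by_cases h : (0 : ℕ) ∈ Q
      · rw [Set.indicator_of_mem h]
        simp
      · rw [Set.indicator_of_notMem h]
    rw [h3, zero_add]
    refine (sum_le_sum fun j _ => Cvg_block Q C δ hQ j).trans ?_
    refine hs.sum_le_tsum _ fun j _ => ?_
    have hl2 : 0 < Real.log 2 := Real.log_pos (by norm_num)
    positivity
  exact (summable_subtype_iff_indicator (f := fun k : ℕ => (1 : ℝ) / k) (s := Q)).2 h1

end Pool.Agent.Lib.MP_706923_coQ
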