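import Pool.Agent.Lib.MP_706923_coQ.Spec

/-!
# Dec: the decomposition of `k - l`
-/

set_option autoImplicit false

namespace Pool.Agent.Lib.MP_706923_coQ

/-- the `R` smallest elements of a finite set -/
private theorem exists_initial (T : Finset ℕ) : ∀ R : ℕ, R ≤ T.card →
    ∃ S ⊆ T, S.card = R ∧ ∀ s ∈ S, ∀ t ∈ T, t ∉ S → s < t := by
  intro R
  induction R with
  | zero => exact fun _ => ⟨∅, Finset.empty_subset _, rfl, by simp⟩
  | succ R ih =>
    intro hR
    obtain ⟨S, hST, hcard, hS⟩ := ih (by omega)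
    have hne : (T \ S).Nonempty := by
      rw [← Finset.card_pos, Finset.card_sdiff_of_subset hST]
      omega
    have hm := Finset.min'_mem (T \ S) hne
    have hle := fun t => Finset.min'_le (T \ S) t
    set m := (T \ S).min' hne with hmdef
    rw [Finset.mem_sdiff] at hm
    refine ⟨insert m S, ?_, ?_, ?_⟩
    · intro t ht
      rcases Finset.mem_insert.1 ht with rfl | ht
      · exact hm.1
      · exact hST ht
    · rw [Finset.card_insert_of_notMem hm.2, hcard]
    · intro s hs t ht hts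
      rw [Finset.mem_insert, not_or] at hts
      rcases Finset.mem_insert.1 hs with rfl | hs
      · have := hle t (Finset.mem_sdiff.2 ⟨ht, hts.2⟩)
        omega
      · exact hS s hs t ht hts.2

/-- **Dec** -/
theorem tDec : S_Dec := by
  intro n W J R hn hR hsq
  obtain ⟨a, b, hab, ha⟩ := Nat.sq_mul_squarefree n
  have hb : 1 ≤ b := by
    rcases Nat.eq_zero_or_pos b with h | h
    · subst h
      simp at hab
      omega
    · exact h
  have hbW : b ≤ 2 ^ W := by
    by_contra h
    push Not at h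
    exact hsq b h ⟨a, hab.symm⟩
  have hn' : n = a * b ^ 2 := by rw [← hab, mul_comm]
  set T : Finset ℕ := (Finset.range (2 ^ J + 1)).filter fun p => p.Prime ∧ 2 ^ W < p ∧ p ∣ n
    with hT
  have hmem : ∀ p, p ∈ T ↔ p ≤ 2 ^ J ∧ p.Prime ∧ 2 ^ W < p ∧ p ∣ n := by
    intro p
    rw [hT, Finset.mem_filter, Finset.mem_range, Nat.lt_succ_iff]
  rcases Nat.lt_or_ge T.card R with hlt | hge
  · refine ⟨a, b, T, hn', ha, hb, hbW, ?_, Or.inr ⟨hlt, ?_⟩⟩
    · intro p hp
      rw [hmem] at hp
      exact ⟨hp.2.1, hp.2.2.1, hp.1, hp.2.2.2⟩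
    · intro p hp h1 h2 h3 h4
      exact h3 ((hmem p).2 ⟨h2, hp, h1, h4⟩)
  · obtain ⟨S, hST, hcard, hS⟩ := exists_initial T R hge
    refine ⟨a, b, S, hn', ha, hb, hbW, ?_, Or.inl ⟨hcard, ?_⟩⟩
    · intro p hp
      have hp := hST hp
      rw [hmem] at hp
      exact ⟨hp.2.1, hp.2.2.1, hp.1, hp.2.2.2⟩
    · intro p hp h1 h2 h3 h4
      have hne : S.Nonempty := by
        rw [← Finset.card_pos]
        omega
      obtain ⟨s, hs, hsup⟩ := Finset.exists_mem_eq_sup S hne id
      rw [hsup, id] at h2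
      have hs' := hST hs
      rw [hmem] at hs'
      have := hS s hs p ((hmem p).2 ⟨by omega, hp, h1, h4⟩) h3
      omega

end Pool.Agent.Lib.MP_706923_coQ
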