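import Pool.Agent.Lib.MP_706923_coQ.Spec

/-!
# MP_706923_co, package Q: what is used of a difference set
-/

set_option autoImplicit false

namespace Pool.Agent.Lib.MP_706923_coQ

open Finset Pool.Agent.Lib.MP_706923_co

theorem tDs : S_Ds := by
  intro l k hl hlk hK
  obtain ⟨G, i1, i2, i3, D, hDk, hD⟩ := hK
  rcases Nat.even_or_odd (Fintype.card G) with he | ho
  · left
    obtain ⟨s, hs⟩ := schutz G D l hD he
    exact ⟨s, by rw [← hDk]; exact hs⟩
  · right
    have hid := ds_identity D l hD
    rw [hDk] at hid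
    refine ⟨Fintype.card G, hlk, hid, ho, ?_⟩
    intro p q hp hq hqv hpq hodd
    haveI : Fact q.Prime := ⟨hq⟩
    haveI : Fact p.Prime := ⟨hp⟩
    have hq2 : q ≠ 2 := by
      rintro rfl
      exact (Nat.not_even_iff_odd.2 ho) (even_iff_two_dvd.2 hqv)
    have hx0 : ((p : ℕ) : ZMod q) ≠ 0 := by
      intro h
      rw [ZMod.natCast_eq_zero_iff] at h
      exact hpq ((Nat.prime_dvd_prime_iff_eq hq hp).1 h).symm
    -- the order is positive
    have hpos : 0 < orderOf ((p : ℕ) : ZMod q) := by
      rw [orderOf_pos_iff]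
      exact isOfFinOrder_iff_pow_eq_one.2 ⟨q - 1, by have := hq.two_le; omega,
        ZMod.pow_card_sub_one_eq_one hx0⟩
    by_contra hev
    rw [Nat.not_odd_iff_even] at hev
    obtain ⟨j, hj⟩ := hev
    have hj1 : 1 ≤ j := by omega
    set x : ZMod q := ((p : ℕ) : ZMod q) with hx
    have h1 : (x ^ j) ^ 2 = 1 := by
      rw [← pow_mul]
      have : j * 2 = orderOf x := by omega
      rw [this, pow_orderOf_eq_one]
    have h2 : x ^ j ≠ 1 := by
      intro h
      have := orderOf_dvd_of_pow_eq_one h
      have := Nat.le_of_dvd (by omega) this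
      omega
    have h3 : x ^ j = -1 := by
      rcases sq_eq_one_iff.1 h1 with h | h
      · exact absurd h h2
      · exact h
    have h4 : q ∣ p ^ j + 1 := by
      rw [← ZMod.natCast_eq_zero_iff]
      push_cast
      rw [← hx, h3]
      ring
    have h5 : (D.card : ℤ) ≠ l := by
      rw [hDk]
      exact_mod_cast (Nat.ne_of_gt hlk)
    have h6 := mann D l hD ho q hq hqv p hp j hj1 h4 h5
    rw [hDk, ← Nat.cast_sub hlk.le, padicValInt.of_nat] at h6
    exact (Nat.not_even_iff_odd.2 hodd) h6

end Pool.Agent.Lib.MP_706923_coQ
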