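import Pool.Agent.Lib.MP_706923_coQ.Spec

/-!
# Package Q: numbers with a large square divisor
-/

set_option autoImplicit false

namespace Pool.Agent.Lib.MP_706923_coQ

open Finset Pool.Agent.Lib.MP_706923_co

private theorem ea_mult (l x m : ℕ) (hm : 0 < m) (F : Finset ℕ)
    (hF : ∀ k ∈ F, k ≤ x ∧ l < k ∧ m ^ 2 ∣ k - l) :
    (F.card : ℝ) ≤ x * ((m : ℝ) ^ 2)⁻¹ := by
  have hm2 : 0 < m ^ 2 := by positivity
  have h1 : F.card ≤ (Icc 1 (x / m ^ 2)).card := by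
    refine card_le_card_of_injOn (fun k => (k - l) / m ^ 2) (fun k hk => ?_) ?_
    · obtain ⟨h1, h2, h3⟩ := hF k hk
      rw [coe_Icc, Set.mem_Icc]
      refine ⟨(Nat.one_le_div_iff hm2).2 (Nat.le_of_dvd (by omega) h3),
        Nat.div_le_div_right (by omega)⟩
    · intro k hk k' hk' h
      obtain ⟨h1, h2, h3⟩ := hF k hk
      obtain ⟨h1', h2', h3'⟩ := hF k' hk'
      have h4 := Nat.div_mul_cancel h3
      have h5 := Nat.div_mul_cancel h3'
      simp only at h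
      rw [h] at h4
      have h6 : k - l = k' - l := h4.symm.trans h5
      omega
  rw [Nat.card_Icc, Nat.add_sub_cancel] at h1
  have h2 : (F.card : ℝ) ≤ ((x / m ^ 2 : ℕ) : ℝ) := by exact_mod_cast h1
  refine h2.trans ?_
  have h3 := Nat.cast_div_le (α := ℝ) (m := x) (n := m ^ 2)
  refine h3.trans (le_of_eq ?_)
  push_cast
  rw [div_eq_mul_inv]

/-- The numbers `k` for which `k - l` has a square divisor `m ^ 2`, `m > w`. -/
theorem tEa : S_Ea := by
  classical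
  intro l x w hw
  have hsub : ((Icc 1 x).filter fun k => l < k ∧ ∃ m, w < m ∧ m ^ 2 ∣ k - l) ⊆
      (Ioc w x).biUnion fun m => (Icc 1 x).filter fun k => l < k ∧ m ^ 2 ∣ k - l := by
    intro k hk
    obtain ⟨h1, h2, m, h3, h4⟩ := mem_filter.1 hk
    rw [mem_Icc] at h1
    refine mem_biUnion.2 ⟨m, mem_Ioc.2 ⟨h3, ?_⟩, mem_filter.2 ⟨mem_Icc.2 h1, h2, h4⟩⟩
    have h5 : m ^ 2 ≤ k - l := Nat.le_of_dvd (by omega) h4
    have h6 : m ≤ m ^ 2 := by nlinarith
    omega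
  have h1 := (card_le_card hsub).trans card_biUnion_le
  have h2 : ((((Icc 1 x).filter fun k => l < k ∧ ∃ m, w < m ∧ m ^ 2 ∣ k - l).card : ℕ) : ℝ) ≤
      ∑ m ∈ Ioc w x, (x : ℝ) * ((m : ℝ) ^ 2)⁻¹ := by
    refine (Nat.cast_le.2 h1).trans ?_
    rw [Nat.cast_sum]
    refine sum_le_sum fun m hm => ?_
    rw [mem_Ioc] at hm
    refine ea_mult l x m (by omega) _ fun k hk => ?_
    obtain ⟨h3, h4, h5⟩ := mem_filter.1 hk
    exact ⟨(mem_Icc.1 h3).2, h4, h5⟩
  refine h2.trans ?_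
  rw [← mul_sum, div_eq_mul_inv]
  refine mul_le_mul_of_nonneg_left ?_ (Nat.cast_nonneg x)
  rcases le_or_gt w x with h | h
  · refine (sum_Ioc_inv_sq_le_sub (by omega) h).trans ?_
    have : (0 : ℝ) ≤ (x : ℝ)⁻¹ := by positivity
    linarith
  · rw [Ioc_eq_empty_of_le h.le, sum_empty]
    positivity

end Pool.Agent.Lib.MP_706923_coQ
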