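import Pool.Agent.Lib.MP_706923_coQ.Spec

set_option autoImplicit false

/-!
# MP_706923_co, package Q: the integers which are divisible by a bad conductor
-/

namespace Pool.Agent.Lib.MP_706923_coQ

open Finset

private theorem eb_abs (c : ℤ) (q : ℕ) : |(jacobiSym c q : ℝ)| ≤ 1 := by
  rcases jacobiSym.trichotomy c q with h | h | h <;> rw [h] <;> norm_num

private theorem eb_bs (c : ℤ) (d j : ℕ) :
    bs c d j = ∑ q ∈ (Ioc (2 ^ j) (2 ^ (j + 1))).filter Nat.Prime,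
      (jacobiSym c q : ℝ) * (jacobiSym d q : ℝ) / q := by
  unfold bs
  refine Finset.sum_congr rfl fun q _ => ?_
  rw [jacobiSym.mul_left, Int.cast_mul]

/-- The multiples of `d > w` among the `k - l`. -/
private theorem eb_mult (l x d w : ℕ) (hw : w < d) (K : Finset ℕ)
    (hK : ∀ k ∈ K, 1 ≤ k ∧ k ≤ x ∧ l < k ∧ d ∣ k - l) : (K.card : ℝ) * w ≤ x := by
  have hd : 0 < d := by omega
  have h1 : K.card ≤ (Icc 1 (x / d)).card := by
    refine Finset.card_le_card_of_injOn (fun k => (k - l) / d) ?_ ?_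
    · intro k hk
      obtain ⟨_, h3, h4, h5⟩ := hK k (Finset.mem_coe.1 hk)
      rw [Finset.mem_coe, Finset.mem_Icc]
      constructor
      · rw [Nat.le_div_iff_mul_le hd, one_mul]
        exact Nat.le_of_dvd (by omega) h5
      · exact Nat.div_le_div_right (by omega)
    · intro k hk k' hk' h
      obtain ⟨_, _, h4, h5⟩ := hK k (Finset.mem_coe.1 hk)
      obtain ⟨_, _, h4', h5'⟩ := hK k' (Finset.mem_coe.1 hk')
      have h6 := Nat.div_mul_cancel h5
      have h7 := Nat.div_mul_cancel h5'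
      have h8 : (k - l) / d = (k' - l) / d := h
      rw [h8, h7] at h6
      omega
  rw [Nat.card_Icc, Nat.add_sub_cancel] at h1
  have h2 : K.card * w ≤ x := by
    calc K.card * w ≤ x / d * d := Nat.mul_le_mul h1 hw.le
      _ ≤ x := Nat.div_mul_le_self x d
  exact_mod_cast h2

theorem tEb (h1 : S_Bad) : S_Eb := by
  classical
  intro l η _ hη
  obtain ⟨C₁, j₀, hC₁, hb⟩ := h1 η hη
  refine ⟨2 * C₁, j₀, by positivity, ?_⟩
  intro x W J hW _
  obtain ⟨F, hF⟩ : ∃ F : ℤ → ℕ → Finset ℕ, F = fun c j => (Icc 1 (2 ^ j)).filter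
    (fun d => Odd d ∧ Squarefree d ∧ d ^ 3 ≤ 2 ^ j ∧ η / j < |bs c d j|) := ⟨_, rfl⟩
  have hFm : ∀ c j d, d ∈ F c j ↔ (1 ≤ d ∧ d ≤ 2 ^ j) ∧ Odd d ∧ Squarefree d ∧ d ^ 3 ≤ 2 ^ j ∧
      η / j < |bs c d j| := by
    intro c j d
    rw [hF]
    simp only [Finset.mem_filter, Finset.mem_Icc]
  have hFc : ∀ c j, j₀ ≤ j → ((F c j).card : ℝ) ≤ C₁ * j := by
    intro c j hj
    refine hb j (fun q => (jacobiSym c q : ℝ)) (F c j) hj (eb_abs c) ?_
    intro d hd
    obtain ⟨_, h2, h3, h4, h5⟩ := (hFm c j d).1 hd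
    exact ⟨h2, h3, h4, by rw [← eb_bs]; exact h5⟩
  obtain ⟨D, hD⟩ : ∃ D : ℕ → Finset ℕ, D = fun j =>
    ((F 1 j) ∪ (F (1 - 4 * l) j)).filter (fun d => 2 ^ W < d) := ⟨_, rfl⟩
  have hDc : ∀ j, j₀ ≤ j → ((D j).card : ℝ) ≤ 2 * C₁ * j := by
    intro j hj
    have h2 : (D j).card ≤ (F 1 j).card + (F (1 - 4 * l) j).card := by
      rw [hD]
      exact (Finset.card_filter_le _ _).trans (Finset.card_union_le _ _)
    have h3 : ((D j).card : ℝ) ≤ (F 1 j).card + (F (1 - 4 * l) j).card := by exact_mod_cast h2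
    have h4 := hFc 1 j hj
    have h5 := hFc (1 - 4 * l) j hj
    linarith
  obtain ⟨K, hK⟩ : ∃ K : ℕ → Finset ℕ, K = fun d =>
    (Icc 1 x).filter (fun k => l < k ∧ d ∣ k - l) := ⟨_, rfl⟩
  have hKc : ∀ d, 2 ^ W < d → ((K d).card : ℝ) ≤ x / 2 ^ W := by
    intro d hd
    have h2 := eb_mult l x d (2 ^ W) hd (K d) (by
      intro k hk
      rw [hK] at hk
      simp only [Finset.mem_filter, Finset.mem_Icc] at hk
      exact ⟨hk.1.1, hk.1.2, hk.2.1, hk.2.2⟩)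
    rw [le_div_iff₀ (by positivity)]
    push_cast at h2
    exact h2
  have hx0 : (0 : ℝ) ≤ x / 2 ^ W := by positivity
  -- the covering
  have hsub : ((Icc 1 x).filter fun k => l < k ∧ ∃ j d : ℕ, W ≤ j ∧ j < J ∧ Odd d ∧
      Squarefree d ∧ 2 ^ W < d ∧ d ^ 3 ≤ 2 ^ j ∧ d ∣ k - l ∧
      (η / j < |bs 1 d j| ∨ η / j < |bs (1 - 4 * l) d j|)) ⊆
      (Ico W J).biUnion fun j => (D j).biUnion K := by
    intro k hk
    simp only [Finset.mem_filter, Finset.mem_Icc] at hk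
    obtain ⟨⟨hk1, hk2⟩, hlk, j, d, hWj, hjJ, hodd, hsq, hWd, hd3, hdvd, hbad⟩ := hk
    rw [Finset.mem_biUnion]
    refine ⟨j, Finset.mem_Ico.2 ⟨hWj, hjJ⟩, ?_⟩
    rw [Finset.mem_biUnion]
    have hd1 : 1 ≤ d := by
      rcases Nat.eq_zero_or_pos d with h | h
      · rw [h] at hsq
        exact absurd hsq not_squarefree_zero
      · exact h
    have hdj : d ≤ 2 ^ j := le_trans (Nat.le_self_pow (by norm_num) d) hd3
    refine ⟨d, ?_, ?_⟩
    · rw [hD]
      simp only [Finset.mem_filter, Finset.mem_union]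
      refine ⟨?_, hWd⟩
      rcases hbad with h | h
      · exact Or.inl ((hFm 1 j d).2 ⟨⟨hd1, hdj⟩, hodd, hsq, hd3, h⟩)
      · exact Or.inr ((hFm _ j d).2 ⟨⟨hd1, hdj⟩, hodd, hsq, hd3, h⟩)
    · rw [hK]
      simp only [Finset.mem_filter, Finset.mem_Icc]
      exact ⟨⟨hk1, hk2⟩, hlk, hdvd⟩
  have h2 := (Finset.card_le_card hsub).trans Finset.card_biUnion_le
  have h3 := (Nat.cast_le (α := ℝ)).2 h2
  refine h3.trans ?_
  rw [Nat.cast_sum]
  have h4 : ∀ j ∈ Ico W J, (((D j).biUnion K).card : ℝ) ≤ 2 * C₁ * J * (x / 2 ^ W) := by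
    intro j hj
    obtain ⟨hj1, hj2⟩ := Finset.mem_Ico.1 hj
    have h5 : (((D j).biUnion K).card : ℝ) ≤ ∑ d ∈ D j, ((K d).card : ℝ) := by
      have h6 := (Nat.cast_le (α := ℝ)).2 (Finset.card_biUnion_le (s := D j) (t := K))
      rwa [Nat.cast_sum] at h6
    refine h5.trans ?_
    have h6 : ∑ d ∈ D j, ((K d).card : ℝ) ≤ ∑ _d ∈ D j, ((x : ℝ) / 2 ^ W) := by
      refine Finset.sum_le_sum fun d hd => hKc d ?_
      rw [hD] at hd
      simp only [Finset.mem_filter] at hd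
      exact hd.2
    refine h6.trans ?_
    rw [Finset.sum_const, nsmul_eq_mul]
    refine mul_le_mul_of_nonneg_right ?_ hx0
    refine (hDc j (by omega)).trans ?_
    have h7 : (j : ℝ) ≤ J := by exact_mod_cast hj2.le
    exact mul_le_mul_of_nonneg_left h7 (by positivity)
  refine (Finset.sum_le_sum h4).trans ?_
  rw [Finset.sum_const, nsmul_eq_mul, Nat.card_Ico]
  have h5 : ((J - W : ℕ) : ℝ) ≤ J := by exact_mod_cast Nat.sub_le J W
  calc ((J - W : ℕ) : ℝ) * (2 * C₁ * J * (x / 2 ^ W)) ≤ J * (2 * C₁ * J * (x / 2 ^ W)) :=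
        mul_le_mul_of_nonneg_right h5 (by positivity)
    _ = 2 * C₁ * (J : ℝ) ^ 2 * (x / 2 ^ W) := by ring

end Pool.Agent.Lib.MP_706923_coQ
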