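import Pool.Agent.Lib.MP_706923_coQ.Spec

/-!
# MP_706923_co, package Q: `S_FxB`
-/

set_option autoImplicit false

namespace Pool.Agent.Lib.MP_706923_coQ

open Finset Pool.Agent.Lib.MP_706923_co

private theorem nsq {l : ℕ} (hl : 1 ≤ l) (h : ¬ IsSquare l) {e : ℤ} (he : e = 1 ∨ e = -1) :
    ¬ IsSquare (e * (l : ℤ)) := by
  rintro ⟨r, hr⟩
  rcases he with rfl | rfl
  · apply h
    refine ⟨r.natAbs, ?_⟩
    have h1 : (l : ℤ) = r * r := by linarith
    have h2 := congrArg Int.natAbs h1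
    rwa [Int.natAbs_mul, Int.natAbs_natCast] at h2
  · have h1 : (1 : ℤ) ≤ l := by exact_mod_cast hl
    nlinarith [mul_self_nonneg r]

theorem tFxB (h1 : S_Mr) (h2 : S_Mj) : S_FxB := by
  obtain ⟨C0, hC0, hM⟩ := h1
  intro l hl hsq
  obtain ⟨C1, hC1, hJ1⟩ := h2 _ (nsq hl hsq (Or.inl rfl))
  obtain ⟨C2, hC2, hJ2⟩ := h2 _ (nsq hl hsq (Or.inr rfl))
  refine ⟨C0 + C1 + C2 + l, by positivity, ?_⟩
  intro e i j he hi hij
  have hJ : |∑ q ∈ (Ioc (2 ^ i) (2 ^ j)).filter Nat.Prime, (jacobiSym (e * l) q : ℝ) / q| ≤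
      C1 + C2 := by
    rcases he with rfl | rfl
    · exact (hJ1 i j hi hij).trans (by linarith)
    · exact (hJ2 i j hi hij).trans (by linarith)
  have hA := hM i j hi hij
  have hi' : (1 : ℝ) ≤ i := by exact_mod_cast hi
  have hA' : C0 / i ≤ C0 := div_le_self hC0.le hi'
  -- the primes dividing `l`
  have hl1 : ∑ q ∈ (Ioc (2 ^ i) (2 ^ j)).filter Nat.Prime,
      (if q ∣ l then (1 : ℝ) / q else 0) ≤ l := by
    rw [← Finset.sum_filter]
    have hsub : ((Ioc (2 ^ i) (2 ^ j)).filter Nat.Prime).filter (fun q => q ∣ l) ⊆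
        Finset.Icc 1 l := by
      intro q hq
      rw [Finset.mem_filter, Finset.mem_filter] at hq
      rw [Finset.mem_Icc]
      exact ⟨hq.1.2.one_lt.le, Nat.le_of_dvd (by omega) hq.2⟩
    calc ∑ q ∈ ((Ioc (2 ^ i) (2 ^ j)).filter Nat.Prime).filter (fun q => q ∣ l), (1 : ℝ) / q
        ≤ ∑ _q ∈ ((Ioc (2 ^ i) (2 ^ j)).filter Nat.Prime).filter (fun q => q ∣ l), (1 : ℝ) := by
          refine Finset.sum_le_sum fun q hq => ?_
          rw [Finset.mem_filter, Finset.mem_filter] at hq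
          have : (1 : ℝ) ≤ q := by exact_mod_cast hq.1.2.one_lt.le
          rw [div_le_one (by linarith)]
          exact this
      _ = ((((Ioc (2 ^ i) (2 ^ j)).filter Nat.Prime).filter (fun q => q ∣ l)).card : ℝ) := by simp
      _ ≤ ((Finset.Icc 1 l).card : ℝ) := by exact_mod_cast Finset.card_le_card hsub
      _ = l := by simp
  have hkey : ∑ q ∈ (Ioc (2 ^ i) (2 ^ j)).filter Nat.Prime,
      ((1 : ℝ) / q - (jacobiSym (e * l) q : ℝ) / q - (if q ∣ l then (1 : ℝ) / q else 0)) / 2 ≤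
      ∑ q ∈ (Ioc (2 ^ i) (2 ^ j)).filter Nat.Prime,
        (if jacobiSym (e * l) q = -1 then (1 : ℝ) / q else 0) := by
    refine Finset.sum_le_sum fun q hq => ?_
    rw [Finset.mem_filter] at hq
    have hq0 : (0 : ℝ) < q := by exact_mod_cast hq.2.pos
    have hq1 : (0 : ℝ) < 1 / q := by positivity
    rcases jacobiSym.trichotomy (e * l) q with h | h | h
    · -- `q ∣ l`
      have hd : q ∣ l := by
        have : NeZero q := ⟨hq.2.ne_zero⟩
        have h3 := (jacobiSym.eq_zero_iff_not_coprime (a := e * l) (b := q)).mp h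
        rw [Int.gcd_comm] at h3
        by_contra hnd
        apply h3
        have h4 : Int.gcd (q : ℤ) (e * l) = Nat.gcd q l := by
          rw [Int.gcd, Int.natAbs_mul, Int.natAbs_natCast, Int.natAbs_natCast]
          rcases he with rfl | rfl <;> simp
        rw [h4]
        exact (Nat.Prime.coprime_iff_not_dvd hq.2).mpr hnd
      rw [h, if_pos hd, if_neg (show ¬ (0 : ℤ) = -1 by norm_num)]
      simp
    · rw [h, if_neg (show ¬ (1 : ℤ) = -1 by norm_num)]
      have : (0 : ℝ) ≤ if q ∣ l then (1 : ℝ) / q else 0 := by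
        split_ifs
        · exact hq1.le
        · exact le_rfl
      push_cast
      linarith
    · rw [h, if_pos rfl]
      have : (0 : ℝ) ≤ if q ∣ l then (1 : ℝ) / q else 0 := by
        split_ifs
        · exact hq1.le
        · exact le_rfl
      push_cast
      have h5 : (-1 : ℝ) / q = -(1 / q) := by ring
      linarith
  have heq : ∑ q ∈ (Ioc (2 ^ i) (2 ^ j)).filter (fun q => q.Prime ∧ jacobiSym (e * l) q = -1),
      (1 : ℝ) / q = ∑ q ∈ (Ioc (2 ^ i) (2 ^ j)).filter Nat.Prime,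
        (if jacobiSym (e * l) q = -1 then (1 : ℝ) / q else 0) := by
    rw [← Finset.sum_filter, Finset.filter_filter]
  rw [heq]
  refine le_trans ?_ hkey
  rw [← Finset.sum_div, Finset.sum_sub_distrib, Finset.sum_sub_distrib]
  have hA2 := (abs_le.mp hA).1
  have hJ2' := (abs_le.mp hJ).2
  have hl0 : (0 : ℝ) ≤ l := Nat.cast_nonneg l
  linarith

end Pool.Agent.Lib.MP_706923_coQ
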