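import Pool.Agent.Lib.MP_706923_coQ.Spec

set_option autoImplicit false

namespace Pool.Agent.Lib.MP_706923_coQ

open Finset

/-- The indicator of the set is at least the product, up to the primes dividing `l (4 l - 1)`. -/
private theorem fxC_pt (l q : ℕ) (hl : 1 ≤ l) (hq : q.Prime) (h2 : 2 < q) :
    ((1 + (jacobiSym (-1) q : ℝ)) * (1 + (jacobiSym (1 - 4 * l) q : ℝ)) *
      (1 - (jacobiSym l q : ℝ))) / 8 ≤
      (if q % 4 = 1 ∧ jacobiSym (1 - 4 * l) q = 1 ∧ jacobiSym l q = -1 then 1 else 0) +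
      (if q ∣ l * (4 * l - 1) then 1 else 0) := by
  have hne : NeZero q := ⟨hq.ne_zero⟩
  have hodd : Odd q := hq.odd_of_ne_two (by omega)
  have hI1 : (0 : ℝ) ≤ (if q % 4 = 1 ∧ jacobiSym (1 - 4 * l) q = 1 ∧ jacobiSym l q = -1 then 1
      else 0) := by split_ifs <;> norm_num
  have hI2 : (0 : ℝ) ≤ (if q ∣ l * (4 * l - 1) then 1 else 0) := by split_ifs <;> norm_num
  have hzero : ∀ a : ℤ, jacobiSym a q = 0 → (q : ℤ) ∣ a := by
    intro a ha
    rw [jacobiSym.eq_zero_iff_not_coprime] at ha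
    by_contra hcon
    apply ha
    rw [Int.gcd_comm]
    have h3 : IsCoprime (q : ℤ) a := by
      rcases (Nat.prime_iff_prime_int.1 hq).irreducible.coprime_iff_not_dvd.2 hcon with h
      exact h
    exact Int.isCoprime_iff_gcd_eq_one.1 h3
  have ha : jacobiSym (-1) q = 1 ∧ q % 4 = 1 ∨ jacobiSym (-1) q = -1 := by
    rw [jacobiSym.at_neg_one hodd]
    obtain ⟨m, hm⟩ := hodd
    have h4 : q % 4 = 1 ∨ q % 4 = 3 := by omega
    rcases h4 with h4 | h4
    · exact Or.inl ⟨ZMod.χ₄_nat_one_mod_four h4, h4⟩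
    · exact Or.inr (ZMod.χ₄_nat_three_mod_four h4)
  rcases ha with ⟨ha, hq4⟩ | ha
  · rcases jacobiSym.trichotomy (1 - 4 * l) q with hb | hb | hb
    · -- `q ∣ 4 l - 1`
      have hd : q ∣ l * (4 * l - 1) := by
        have h5 := hzero _ hb
        refine Dvd.dvd.mul_left ?_ l
        have h6 : (q : ℤ) ∣ ((4 * l - 1 : ℕ) : ℤ) := by
          have h7 : ((4 * l - 1 : ℕ) : ℤ) = -(1 - 4 * l) := by
            rw [Nat.cast_sub (by omega)]
            push_cast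
            ring
          rw [h7]
          exact (dvd_neg).2 h5
        exact Int.natCast_dvd_natCast.1 h6
      rw [if_pos hd, ha, hb]
      rcases jacobiSym.trichotomy l q with hc | hc | hc <;> rw [hc] <;> push_cast <;>
        norm_num <;> linarith
    · rcases jacobiSym.trichotomy l q with hc | hc | hc
      · have hd : q ∣ l * (4 * l - 1) :=
          Dvd.dvd.mul_right (Int.natCast_dvd_natCast.1 (hzero _ hc)) _
        rw [if_pos hd, ha, hb, hc]
        push_cast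
        norm_num
      · rw [hc]
        push_cast
        norm_num
        linarith
      · rw [if_pos ⟨hq4, hb, hc⟩, ha, hb, hc]
        push_cast
        norm_num
        linarith
    · rw [hb]
      push_cast
      norm_num
      linarith
  · rw [ha]
    push_cast
    norm_num
    linarith

theorem tFxC (h1 : S_Mr) (h2 : S_Mj) : S_FxC := by
  classical
  intro l hl hsq
  obtain ⟨C0, hC0, hMr⟩ := h1
  have hlz : (0 : ℤ) < l := by exact_mod_cast hl
  have hneg : ∀ a : ℤ, a < 0 → ¬ IsSquare a := by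
    rintro a ha ⟨b, hb⟩
    have := mul_self_nonneg b
    omega
  have hn3 : ¬ IsSquare (4 * (l : ℤ) - 1) := by
    rintro ⟨b, hb⟩
    rcases Int.even_or_odd' b with ⟨c, hc | hc⟩
    · rw [hc] at hb
      have h3 : 4 * (l : ℤ) - 1 = 4 * (c * c) := by rw [hb]; ring
      omega
    · rw [hc] at hb
      have h3 : 4 * (l : ℤ) - 1 = 4 * (c * c + c) + 1 := by rw [hb]; ring
      omega
  have hn4 : ¬ IsSquare (((4 * (l : ℤ) - 1)) * l) := by
    rintro ⟨b, hb⟩
    have hcop : Int.gcd (l : ℤ) (4 * (l : ℤ) - 1) = 1 := by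
      rw [← Int.isCoprime_iff_gcd_eq_one]
      exact ⟨4, -1, by ring⟩
    obtain ⟨a, ha | ha⟩ := Int.sq_of_gcd_eq_one hcop
      (show (l : ℤ) * (4 * (l : ℤ) - 1) = b ^ 2 by rw [sq, ← hb]; ring)
    · exact hsq (Int.isSquare_natCast_iff.1 ⟨a, by rw [ha, sq]⟩)
    · have := sq_nonneg a
      omega
  obtain ⟨C1, hC1, hM1⟩ := h2 (-1) (hneg _ (by norm_num))
  obtain ⟨C2, hC2, hM2⟩ := h2 (1 - 4 * l) (hneg _ (by omega))
  obtain ⟨C3, hC3, hM3⟩ := h2 l (fun h => hsq (Int.isSquare_natCast_iff.1 h))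
  obtain ⟨C4, hC4, hM4⟩ := h2 (4 * l - 1) hn3
  obtain ⟨C5, hC5, hM5⟩ := h2 (-l) (hneg _ (by omega))
  obtain ⟨C6, hC6, hM6⟩ := h2 ((1 - 4 * l) * l) (hneg _ (by nlinarith))
  obtain ⟨C7, hC7, hM7⟩ := h2 ((4 * l - 1) * l) hn4
  obtain ⟨N, hN⟩ : ∃ N : ℕ, N = l * (4 * l - 1) := ⟨_, rfl⟩
  have hN0 : N ≠ 0 := by
    rw [hN]
    exact mul_ne_zero (by omega) (by omega)
  refine ⟨C0 + C1 + C2 + C3 + C4 + C5 + C6 + C7 + N, by positivity, fun i j hi hij => ?_⟩
  obtain ⟨P, hP⟩ : ∃ P : Finset ℕ, P = (Ioc (2 ^ i) (2 ^ j)).filter Nat.Prime := ⟨_, rfl⟩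
  have hPq : ∀ q ∈ P, q.Prime ∧ 2 < q := by
    intro q hq
    rw [hP, Finset.mem_filter, Finset.mem_Ioc] at hq
    refine ⟨hq.2, lt_of_le_of_lt ?_ hq.1.1⟩
    calc 2 = 2 ^ 1 := rfl
      _ ≤ 2 ^ i := Nat.pow_le_pow_right (by norm_num) hi
  -- the sum over the set
  have hS : ∑ q ∈ (Ioc (2 ^ i) (2 ^ j)).filter (fun q => q.Prime ∧ q % 4 = 1 ∧
      jacobiSym (1 - 4 * l) q = 1 ∧ jacobiSym l q = -1), (1 : ℝ) / q =
      ∑ q ∈ P, (if q % 4 = 1 ∧ jacobiSym (1 - 4 * l) q = 1 ∧ jacobiSym l q = -1 then (1 : ℝ)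
        else 0) / q := by
    rw [hP, Finset.sum_filter, Finset.sum_filter]
    refine Finset.sum_congr rfl fun q _ => ?_
    by_cases h3 : q.Prime
    · by_cases h4 : q % 4 = 1 ∧ jacobiSym (1 - 4 * l) q = 1 ∧ jacobiSym l q = -1
      · rw [if_pos ⟨h3, h4⟩, if_pos h3, if_pos h4]
      · rw [if_neg (fun h => h4 h.2), if_pos h3, if_neg h4, zero_div]
    · rw [if_neg (fun h => h3 h.1), if_neg h3]
  -- the exceptional primes
  have hE : ∑ q ∈ P, (if q ∣ N then (1 : ℝ) else 0) / q ≤ N := by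
    have h3 : ∑ q ∈ P, (if q ∣ N then (1 : ℝ) else 0) / q ≤
        ∑ q ∈ P, (if q ∣ N then (1 : ℝ) else 0) := by
      refine Finset.sum_le_sum fun q hq => ?_
      have h4 : (1 : ℝ) ≤ q := by exact_mod_cast (hPq q hq).1.one_lt.le
      refine div_le_self ?_ h4
      split_ifs <;> norm_num
    refine h3.trans ?_
    rw [← Finset.sum_filter, Finset.sum_const, nsmul_eq_mul, mul_one]
    have h5 : P.filter (fun q => q ∣ N) ⊆ N.divisors := by
      intro q hq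
      rw [Finset.mem_filter] at hq
      exact Nat.mem_divisors.2 ⟨hq.2, hN0⟩
    exact_mod_cast (Finset.card_le_card h5).trans (Nat.card_divisors_le_self N)
  -- the main inequality
  have hmain : ∑ q ∈ P, ((1 + (jacobiSym (-1) q : ℝ)) * (1 + (jacobiSym (1 - 4 * l) q : ℝ)) *
      (1 - (jacobiSym l q : ℝ))) / 8 / q ≤
      ∑ q ∈ P, (if q % 4 = 1 ∧ jacobiSym (1 - 4 * l) q = 1 ∧ jacobiSym l q = -1 then (1 : ℝ)
        else 0) / q + ∑ q ∈ P, (if q ∣ N then (1 : ℝ) else 0) / q := by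
    rw [← Finset.sum_add_distrib]
    refine Finset.sum_le_sum fun q hq => ?_
    rw [← add_div]
    have h3 : (0 : ℝ) < q := by exact_mod_cast (hPq q hq).1.pos
    refine div_le_div_of_nonneg_right ?_ h3.le
    rw [hN]
    exact fxC_pt l q hl (hPq q hq).1 (hPq q hq).2
  have hexp : ∑ q ∈ P, ((1 + (jacobiSym (-1) q : ℝ)) * (1 + (jacobiSym (1 - 4 * l) q : ℝ)) *
      (1 - (jacobiSym l q : ℝ))) / 8 / q =
      (∑ q ∈ P, (1 : ℝ) / q + ∑ q ∈ P, (jacobiSym (-1) q : ℝ) / q +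
        ∑ q ∈ P, (jacobiSym (1 - 4 * l) q : ℝ) / q - ∑ q ∈ P, (jacobiSym l q : ℝ) / q +
        ∑ q ∈ P, (jacobiSym (4 * l - 1) q : ℝ) / q - ∑ q ∈ P, (jacobiSym (-l) q : ℝ) / q -
        ∑ q ∈ P, (jacobiSym ((1 - 4 * l) * l) q : ℝ) / q -
        ∑ q ∈ P, (jacobiSym ((4 * l - 1) * l) q : ℝ) / q) / 8 := by
    rw [← Finset.sum_add_distrib, ← Finset.sum_add_distrib, ← Finset.sum_sub_distrib,
      ← Finset.sum_add_distrib, ← Finset.sum_sub_distrib, ← Finset.sum_sub_distrib,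
      ← Finset.sum_sub_distrib, Finset.sum_div]
    refine Finset.sum_congr rfl fun q _ => ?_
    have e1 : jacobiSym (4 * (l : ℤ) - 1) q = jacobiSym (-1) q * jacobiSym (1 - 4 * l) q := by
      rw [← jacobiSym.mul_left]
      congr 1
      ring
    have e2 : jacobiSym (-(l : ℤ)) q = jacobiSym (-1) q * jacobiSym l q := by
      rw [← jacobiSym.mul_left]
      congr 1
      ring
    rw [jacobiSym.mul_left (4 * (l : ℤ) - 1), jacobiSym.mul_left (1 - 4 * (l : ℤ)), e1, e2]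
    push_cast
    ring
  rw [hS]
  have k0 := abs_le.1 (hMr i j hi hij)
  have k1 := abs_le.1 (hM1 i j hi hij)
  have k2 := abs_le.1 (hM2 i j hi hij)
  have k3 := abs_le.1 (hM3 i j hi hij)
  have k4 := abs_le.1 (hM4 i j hi hij)
  have k5 := abs_le.1 (hM5 i j hi hij)
  have k6 := abs_le.1 (hM6 i j hi hij)
  have k7 := abs_le.1 (hM7 i j hi hij)
  rw [← hP] at k0 k1 k2 k3 k4 k5 k6 k7
  have hCi : C0 / i ≤ C0 := div_le_self hC0.le (by exact_mod_cast hi)
  rw [hexp] at hmain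
  linarith [k0.1, k1.1, k2.1, k3.2, k4.1, k5.2, k6.2, k7.2]

end Pool.Agent.Lib.MP_706923_coQ

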