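import Pool.Agent.Lib.MP_706923_coQ.Spec

/-!
# MP_706923_co, package Q, module Kil: the primes which are excluded by (F4)
-/

set_option autoImplicit false

namespace Pool.Agent.Lib.MP_706923_coQ

open Finset Pool.Agent.Lib.MP_706923_co

private theorem kilBlocks (f : ℕ → ℝ) (a J : ℕ) (h : a ≤ J) :
    ∑ q ∈ (Ioc (2 ^ a) (2 ^ J)).filter Nat.Prime, f q =
      ∑ j ∈ Ico a J, ∑ q ∈ (Ioc (2 ^ j) (2 ^ (j + 1))).filter Nat.Prime, f q := by
  induction J, h using Nat.le_induction with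
  | base => simp
  | succ J h ih =>
    rw [Finset.sum_Ico_succ_top h, ← ih]
    simp only [Finset.sum_filter]
    rw [Finset.sum_Ioc_consecutive]
    · exact Nat.pow_le_pow_right two_pos h
    · exact Nat.pow_le_pow_right two_pos (Nat.le_succ J)

private theorem kilHarm (a J : ℕ) (ha : 1 ≤ a) (h : a ≤ J) :
    ∑ j ∈ Ico a J, (1 : ℝ) / j ≤ 1 / a - 1 / J + Real.log ((J : ℝ) / a) := by
  have ha' : (0 : ℝ) < a := by exact_mod_cast ha
  induction J, h using Nat.le_induction with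
  | base => simp [div_self ha'.ne']
  | succ J h ih =>
    rw [Finset.sum_Ico_succ_top h]
    have hJ : (0 : ℝ) < J := by exact_mod_cast (lt_of_lt_of_le ha h)
    have h1 : Real.log (((J + 1 : ℕ) : ℝ) / a) =
        Real.log ((J : ℝ) / a) + Real.log (((J : ℝ) + 1) / J) := by
      rw [← Real.log_mul (by positivity) (by positivity)]
      congr 1
      push_cast
      field_simp
    have h2 : 1 / ((J : ℝ) + 1) ≤ Real.log (((J : ℝ) + 1) / J) := by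
      have h3 := Real.one_sub_inv_le_log_of_pos (x := ((J : ℝ) + 1) / J) (by positivity)
      have e : 1 - (((J : ℝ) + 1) / J)⁻¹ = 1 / ((J : ℝ) + 1) := by
        field_simp
        ring
      linarith
    rw [h1]
    push_cast
    linarith

private theorem kilInd (S : Finset ℕ) (s : ℤ) (u : ℕ → ℤ) (hs : s = 1 ∨ s = -1)
    (hu : ∀ p ∈ S, u p = 1 ∨ u p = -1) [Decidable (s = 1 ∧ ∃ p ∈ S, u p = -1)] :
    (if s = 1 ∧ ∃ p ∈ S, u p = -1 then (2 : ℝ) else 0) =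
      (1 + (s : ℝ)) * (1 - (1 / 2 : ℝ) ^ S.card * ∑ I ∈ S.powerset, ∏ p ∈ I, (u p : ℝ)) := by
  have h1 : (1 / 2 : ℝ) ^ S.card * ∑ I ∈ S.powerset, ∏ p ∈ I, (u p : ℝ) =
      ∏ p ∈ S, ((1 + (u p : ℝ)) / 2) := by
    rw [← Finset.prod_one_add, Finset.prod_div_distrib, Finset.prod_const, one_div, inv_pow,
      mul_comm, div_eq_mul_inv]
  rw [h1]
  rcases hs with hs | hs
  · by_cases hex : ∃ p ∈ S, u p = -1
    · rw [if_pos ⟨hs, hex⟩]
      obtain ⟨p, hp, hup⟩ := hex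
      rw [Finset.prod_eq_zero hp (by rw [hup]; norm_num), hs]
      norm_num
    · rw [if_neg (fun h => hex h.2)]
      have h2 : ∏ p ∈ S, ((1 + (u p : ℝ)) / 2) = 1 := by
        apply Finset.prod_eq_one
        intro p hp
        rcases hu p hp with h | h
        · rw [h]; norm_num
        · exact absurd ⟨p, hp, h⟩ hex
      rw [h2]
      ring
  · rw [if_neg (fun h => by rw [hs] at h; exact absurd h.1 (by norm_num)), hs]
    norm_num

private theorem kilProd (I : Finset ℕ) (q : ℕ) :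
    jacobiSym ((∏ p ∈ I, p : ℕ) : ℤ) q = ∏ p ∈ I, jacobiSym (p : ℤ) q := by
  classical
  induction I using Finset.induction_on with
  | empty => simp
  | insert p I hp ih =>
    rw [Finset.prod_insert hp, Finset.prod_insert hp, Nat.cast_mul, jacobiSym.mul_left, ih]

/-- the bound of the sum over all blocks -/
private theorem kilBs (c : ℤ) (d a J : ℕ) (η : ℝ) (hη : 0 < η) (ha : 1 ≤ a) (h : a ≤ J)
    (hb : ∀ j, a ≤ j → j < J → |bs c d j| ≤ η / j) :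
    |∑ q ∈ (Ioc (2 ^ a) (2 ^ J)).filter Nat.Prime, (jacobiSym (c * d) q : ℝ) / q| ≤
      η * (1 + Real.log ((J : ℝ) / a)) := by
  have ha' : (0 : ℝ) < a := by exact_mod_cast ha
  have hJ' : (0 : ℝ) < J := by exact_mod_cast (lt_of_lt_of_le ha h)
  rw [kilBlocks _ a J h]
  calc |∑ j ∈ Ico a J, bs c d j| ≤ ∑ j ∈ Ico a J, |bs c d j| := Finset.abs_sum_le_sum_abs _ _
    _ ≤ ∑ j ∈ Ico a J, η * (1 / (j : ℝ)) := by
        refine Finset.sum_le_sum fun j hj => ?_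
        rw [Finset.mem_Ico] at hj
        have h1 := hb j hj.1 hj.2
        rw [mul_one_div]
        exact h1
    _ = η * ∑ j ∈ Ico a J, 1 / (j : ℝ) := by rw [Finset.mul_sum]
    _ ≤ η * (1 + Real.log ((J : ℝ) / a)) := by
        refine mul_le_mul_of_nonneg_left ?_ hη.le
        have h2 := kilHarm a J ha h
        have h3 : (1 : ℝ) / a ≤ 1 := by
          rw [div_le_one ha']
          exact_mod_cast ha
        have h4 : 0 ≤ (1 : ℝ) / J := by positivity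
        linarith

theorem tKil (h1 : S_Mr) (h2 : S_Mj) : S_Kil := by
  intro l R η hl hR hη
  obtain ⟨C₁, hC₁, hMr⟩ := h1
  have hsq : ¬ IsSquare (1 - 4 * (l : ℤ)) := by
    rintro ⟨r, hr⟩
    have h3 : (0 : ℤ) ≤ r * r := mul_self_nonneg r
    have hl' : (1 : ℤ) ≤ l := by exact_mod_cast hl
    linarith
  obtain ⟨C₂, hC₂, hMj⟩ := h2 (1 - 4 * (l : ℤ)) hsq
  refine ⟨C₁ + C₂ + 2 * η, by positivity, ?_⟩
  intro i J S hi hJ hS hSp hGd
  have ha1 : 1 ≤ 3 * R * i := Nat.mul_pos (Nat.mul_pos (by norm_num) hR) hi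
  have hia : i ≤ 3 * R * i := Nat.le_mul_of_pos_left _ (Nat.mul_pos (by norm_num) hR)
  have hGd' : ∀ I ⊆ S, I.Nonempty → ∀ j : ℕ, 3 * R * i ≤ j → j < J →
      |bs 1 (∏ p ∈ I, p) j| ≤ η / j ∧ |bs (1 - 4 * l) (∏ p ∈ I, p) j| ≤ η / j := hGd
  generalize hadef : 3 * R * i = a at *
  have ha' : (0 : ℝ) < a := by exact_mod_cast ha1
  have hJ' : (0 : ℝ) < J := by exact_mod_cast (lt_of_lt_of_le ha1 hJ)
  have hL0 : 0 ≤ Real.log ((J : ℝ) / a) := by
    apply Real.log_nonneg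
    rw [le_div_iff₀ ha', one_mul]
    exact_mod_cast hJ
  -- all primes of the sum are larger than `4 l` and than the elements of `S`
  have hbig : ∀ q ∈ (Ioc (2 ^ a) (2 ^ J)).filter Nat.Prime, q.Prime ∧ ∀ p ∈ S, p < q := by
    intro q hq
    rw [Finset.mem_filter, Finset.mem_Ioc] at hq
    refine ⟨hq.2, fun p hp => ?_⟩
    calc p < 2 ^ i := (hSp p hp).2.2
      _ ≤ 2 ^ a := Nat.pow_le_pow_right two_pos hia
      _ < q := hq.1.1
  obtain ⟨p₀, hp₀⟩ : S.Nonempty := by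
    rw [← Finset.card_pos, hS]
    exact hR
  have hs : ∀ q ∈ (Ioc (2 ^ a) (2 ^ J)).filter Nat.Prime,
      jacobiSym (1 - 4 * (l : ℤ)) q = 1 ∨ jacobiSym (1 - 4 * (l : ℤ)) q = -1 := by
    intro q hq
    obtain ⟨hqp, hqS⟩ := hbig q hq
    have h3 : p₀ < q := hqS p₀ hp₀
    have h4 := (hSp p₀ hp₀).2.1
    apply jacobiSym.eq_one_or_neg_one
    rw [Int.gcd_comm, ← Int.isCoprime_iff_gcd_eq_one]
    refine (Nat.prime_iff_prime_int.mp hqp).coprime_iff_not_dvd.mpr ?_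
    intro hd
    have h5 : (q : ℤ) ∣ 4 * (l : ℤ) - 1 := by
      have h6 := (dvd_neg (a := (q : ℤ))).mpr hd
      rwa [neg_sub] at h6
    have h7 := Int.le_of_dvd (by omega) h5
    omega
  have hu : ∀ q ∈ (Ioc (2 ^ a) (2 ^ J)).filter Nat.Prime, ∀ p ∈ S,
      jacobiSym (p : ℤ) q = 1 ∨ jacobiSym (p : ℤ) q = -1 := by
    intro q hq p hp
    obtain ⟨hqp, hqS⟩ := hbig q hq
    apply jacobiSym.eq_one_or_neg_one
    rw [Int.gcd_natCast_natCast]
    exact (Nat.coprime_primes (hSp p hp).1 hqp).mpr (hqS p hp).ne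
  -- the expansion of the sum
  have hexp : ∑ q ∈ (Ioc (2 ^ a) (2 ^ J)).filter (fun q => q.Prime ∧
      jacobiSym (1 - 4 * l) q = 1 ∧ ∃ p ∈ S, jacobiSym p q = -1), (2 : ℝ) / q =
      (1 - (1 / 2 : ℝ) ^ R) * ∑ q ∈ (Ioc (2 ^ a) (2 ^ J)).filter Nat.Prime, (1 : ℝ) / q +
      (1 - (1 / 2 : ℝ) ^ R) * ∑ q ∈ (Ioc (2 ^ a) (2 ^ J)).filter Nat.Prime,
        (jacobiSym (1 - 4 * (l : ℤ)) q : ℝ) / q -
      (1 / 2 : ℝ) ^ R * ∑ I ∈ S.powerset.erase ∅,
        (∑ q ∈ (Ioc (2 ^ a) (2 ^ J)).filter Nat.Prime,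
          (jacobiSym (1 * ((∏ p ∈ I, p : ℕ) : ℤ)) q : ℝ) / q +
        ∑ q ∈ (Ioc (2 ^ a) (2 ^ J)).filter Nat.Prime,
          (jacobiSym ((1 - 4 * (l : ℤ)) * ((∏ p ∈ I, p : ℕ) : ℤ)) q : ℝ) / q) := by
    rw [← Finset.filter_filter, Finset.sum_filter]
    simp only [← Finset.sum_add_distrib]
    rw [Finset.sum_comm, Finset.mul_sum, Finset.mul_sum, Finset.mul_sum, ← Finset.sum_add_distrib,
      ← Finset.sum_sub_distrib]
    refine Finset.sum_congr rfl fun q hq => ?_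
    have h3 := kilInd S (jacobiSym (1 - 4 * (l : ℤ)) q) (fun p => jacobiSym (p : ℤ) q) (hs q hq)
      (hu q hq)
    have h4 : (if jacobiSym (1 - 4 * (l : ℤ)) q = 1 ∧ ∃ p ∈ S, jacobiSym (p : ℤ) q = -1 then
        (2 : ℝ) / q else 0) = (if jacobiSym (1 - 4 * (l : ℤ)) q = 1 ∧
          ∃ p ∈ S, jacobiSym (p : ℤ) q = -1 then (2 : ℝ) else 0) * (1 / q) := by
      split_ifs
      · ring
      · ring
    rw [h4, h3, hS]
    have h5 : ∑ I ∈ S.powerset, ∏ p ∈ I, (jacobiSym (p : ℤ) q : ℝ) =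
        1 + ∑ I ∈ S.powerset.erase ∅, ∏ p ∈ I, (jacobiSym (p : ℤ) q : ℝ) := by
      rw [← Finset.add_sum_erase _ _ (Finset.empty_mem_powerset S), Finset.prod_empty]
    have h6 : ∑ I ∈ S.powerset.erase ∅, ((jacobiSym (1 * ((∏ p ∈ I, p : ℕ) : ℤ)) q : ℝ) / q +
        (jacobiSym ((1 - 4 * (l : ℤ)) * ((∏ p ∈ I, p : ℕ) : ℤ)) q : ℝ) / q) =
        (1 + (jacobiSym (1 - 4 * (l : ℤ)) q : ℝ)) * (1 / q) *
          ∑ I ∈ S.powerset.erase ∅, ∏ p ∈ I, (jacobiSym (p : ℤ) q : ℝ) := by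
      rw [Finset.mul_sum]
      refine Finset.sum_congr rfl fun I _ => ?_
      rw [one_mul, jacobiSym.mul_left, kilProd]
      push_cast
      ring
    rw [h5, h6]
    ring
  rw [hexp]
  -- the bounds
  have hw0 : (0 : ℝ) < (1 / 2 : ℝ) ^ R := by positivity
  have hw1 : (1 / 2 : ℝ) ^ R ≤ 1 := pow_le_one₀ (by norm_num) (by norm_num)
  have hb1 : Real.log ((J : ℝ) / a) - C₁ ≤
      ∑ q ∈ (Ioc (2 ^ a) (2 ^ J)).filter Nat.Prime, (1 : ℝ) / q := by
    have h3 := (abs_le.mp (hMr a J ha1 hJ)).1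
    have h4 : C₁ / (a : ℝ) ≤ C₁ := by
      apply div_le_self hC₁.le
      exact_mod_cast ha1
    linarith
  have hb2 : -C₂ ≤ ∑ q ∈ (Ioc (2 ^ a) (2 ^ J)).filter Nat.Prime,
      (jacobiSym (1 - 4 * (l : ℤ)) q : ℝ) / q := (abs_le.mp (hMj a J ha1 hJ)).1
  have hb3 : ∑ I ∈ S.powerset.erase ∅,
        (∑ q ∈ (Ioc (2 ^ a) (2 ^ J)).filter Nat.Prime,
          (jacobiSym (1 * ((∏ p ∈ I, p : ℕ) : ℤ)) q : ℝ) / q +
        ∑ q ∈ (Ioc (2 ^ a) (2 ^ J)).filter Nat.Prime,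
          (jacobiSym ((1 - 4 * (l : ℤ)) * ((∏ p ∈ I, p : ℕ) : ℤ)) q : ℝ) / q) ≤
      (S.powerset.erase ∅).card • (2 * η * (1 + Real.log ((J : ℝ) / a))) := by
    refine Finset.sum_le_card_nsmul _ _ _ fun I hI => ?_
    rw [Finset.mem_erase, Finset.mem_powerset] at hI
    have hIn : I.Nonempty := Finset.nonempty_iff_ne_empty.mpr hI.1
    have h3 := kilBs 1 (∏ p ∈ I, p) a J η hη ha1 hJ (fun j hj hjJ => (hGd' I hI.2 hIn j hj hjJ).1)
    have h4 := kilBs (1 - 4 * (l : ℤ)) (∏ p ∈ I, p) a J η hη ha1 hJ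
      (fun j hj hjJ => (hGd' I hI.2 hIn j hj hjJ).2)
    have h5 := (abs_le.mp h3).2
    have h6 := (abs_le.mp h4).2
    linarith
  have hcard : (1 / 2 : ℝ) ^ R * ((S.powerset.erase ∅).card : ℝ) ≤ 1 := by
    have h3 : ((S.powerset.erase ∅).card : ℝ) ≤ 2 ^ R := by
      have h4 : (S.powerset.erase ∅).card ≤ 2 ^ R := by
        rw [← hS, ← Finset.card_powerset]
        exact Finset.card_erase_le
      exact_mod_cast h4
    calc (1 / 2 : ℝ) ^ R * ((S.powerset.erase ∅).card : ℝ) ≤ (1 / 2 : ℝ) ^ R * 2 ^ R :=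
          mul_le_mul_of_nonneg_left h3 hw0.le
      _ = 1 := by rw [← mul_pow]; norm_num
  have hb4 : (1 / 2 : ℝ) ^ R * ∑ I ∈ S.powerset.erase ∅,
        (∑ q ∈ (Ioc (2 ^ a) (2 ^ J)).filter Nat.Prime,
          (jacobiSym (1 * ((∏ p ∈ I, p : ℕ) : ℤ)) q : ℝ) / q +
        ∑ q ∈ (Ioc (2 ^ a) (2 ^ J)).filter Nat.Prime,
          (jacobiSym ((1 - 4 * (l : ℤ)) * ((∏ p ∈ I, p : ℕ) : ℤ)) q : ℝ) / q) ≤
      2 * η * (1 + Real.log ((J : ℝ) / a)) := by
    have h0 : 0 ≤ 2 * η * (1 + Real.log ((J : ℝ) / a)) := by positivity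
    refine (mul_le_mul_of_nonneg_left hb3 hw0.le).trans ?_
    rw [nsmul_eq_mul, ← mul_assoc]
    calc (1 / 2 : ℝ) ^ R * ((S.powerset.erase ∅).card : ℝ) *
          (2 * η * (1 + Real.log ((J : ℝ) / a))) ≤ 1 * (2 * η * (1 + Real.log ((J : ℝ) / a))) :=
          mul_le_mul_of_nonneg_right hcard h0
      _ = _ := one_mul _
  have hb5 := mul_le_mul_of_nonneg_left hb1 (sub_nonneg.mpr hw1)
  have hb6 := mul_le_mul_of_nonneg_left hb2 (sub_nonneg.mpr hw1)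
  nlinarith [mul_nonneg hw0.le hC₁.le, mul_nonneg hw0.le hC₂.le]

end Pool.Agent.Lib.MP_706923_coQ
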