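import Pool.Agent.Lib.MP_706923_coQ.Spec

/-!
# MP_706923_co, package Q: Legendre symbols
-/

set_option autoImplicit false

namespace Pool.Agent.Lib.MP_706923_coQ

theorem tLeg : S_Leg := by
  intro l k v p q hA hp hq hqv hpq hodd
  have hq' : Fact q.Prime := ⟨hq⟩
  have hx : ((p : ℤ) : ZMod q) ≠ 0 := by
    rw [Int.cast_natCast, Ne, ZMod.natCast_eq_zero_iff]
    intro h
    exact hpq ((Nat.prime_dvd_prime_iff_eq hq hp).1 h).symm
  obtain ⟨m, hm⟩ := hA.ord p q hp hq hqv hpq hodd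
  rw [← jacobiSym.legendreSym.to_jacobiSym, legendreSym.eq_one_iff q hx]
  refine ⟨((p : ℕ) : ZMod q) ^ (m + 1), ?_⟩
  rw [Int.cast_natCast, ← pow_add]
  have h1 : ((p : ℕ) : ZMod q) ^ (2 * m + 1) = 1 := by
    rw [← hm]
    exact pow_orderOf_eq_one _
  have h2 : m + 1 + (m + 1) = (2 * m + 1) + 1 := by ring
  rw [h2, pow_succ, h1, one_mul]

end Pool.Agent.Lib.MP_706923_coQ
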