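import Pool.Agent.Lib.MP_706923_coQ.Spec

/-!
# MP_706923_co, package Q: the main theorem
-/

set_option autoImplicit false

namespace Pool.Agent.Lib.MP_706923_coQ

open Finset Pool.Agent.Lib.MP_706923_co

open Classical in
private theorem key (h1 : S_Cov) (h2 : S_Asy) (l R : ℕ) (η e0 δ : ℝ) (hl : 1 ≤ l) (hR : 1 ≤ R)
    (hη : 0 < η) (he0 : 0 ≤ e0) (he2 : e0 ≤ 2) (hδ : 0 < δ)
    (hor : e0 ≤ 1 - (1 / 2 : ℝ) ^ R - 2 * η ∨
      (¬ IsSquare l ∧ e0 ≤ 9 / 8 ∧ (1 / 2 : ℝ) ^ R + 2 * η ≤ 3 / 8)) :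
    ∃ C : ℝ, 0 < C ∧ ∀ x : ℕ, 2 ≤ x → ((((Icc 1 x).filter fun k => IsK l k).card : ℕ) : ℝ) ≤
      C * x / Real.log x ^ (e0 - δ) := by
  obtain ⟨C, j₀, hC, hcov⟩ := h1 l R η e0 hl hR hη he0 hor
  obtain ⟨x₀, hx₀, hasy⟩ := h2 C e0 δ j₀ R hC he0 he2 hδ
  have hlog : ∀ y : ℕ, 0 ≤ Real.log y ^ (e0 - δ) := fun y =>
    Real.rpow_nonneg (Real.log_natCast_nonneg y) _
  have hsum : 0 ≤ ∑ y ∈ range x₀, Real.log y ^ (e0 - δ) := sum_nonneg fun y _ => hlog y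
  refine ⟨1 + ∑ y ∈ range x₀, Real.log y ^ (e0 - δ), by linarith, fun x hx => ?_⟩
  have hx1 : (1 : ℝ) < x := by exact_mod_cast (by omega : 1 < x)
  have hlx : 0 < Real.log x := Real.log_pos hx1
  have hD : 0 < Real.log x ^ (e0 - δ) := Real.rpow_pos_of_pos hlx _
  rw [le_div_iff₀ hD]
  by_cases hxx : x₀ ≤ x
  · obtain ⟨W, J, w1, w2, w3, w4, w5⟩ := hasy x hxx
    have h3 := (hcov x W J w1 w2 w3 w4).trans w5
    rw [le_div_iff₀ hD] at h3
    have : (x : ℝ) ≤ (1 + ∑ y ∈ range x₀, Real.log y ^ (e0 - δ)) * x := by nlinarith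
    linarith
  · have hc : ((((Icc 1 x).filter fun k => IsK l k).card : ℕ) : ℝ) ≤ x := by
      have : ((Icc 1 x).filter fun k => IsK l k).card ≤ (Icc 1 x).card := card_filter_le _ _
      rw [Nat.card_Icc, Nat.add_sub_cancel] at this
      exact_mod_cast this
    have hs : Real.log x ^ (e0 - δ) ≤ ∑ y ∈ range x₀, Real.log y ^ (e0 - δ) :=
      single_le_sum (f := fun y : ℕ => Real.log y ^ (e0 - δ)) (fun y _ => hlog y)
        (mem_range.2 (by omega))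
    calc _ ≤ (x : ℝ) * (1 + ∑ y ∈ range x₀, Real.log y ^ (e0 - δ)) :=
          mul_le_mul hc (by linarith) hD.le (by positivity)
      _ = _ := mul_comm _ _

theorem tMain (h1 : S_Cov) (h2 : S_Asy) : S_Main := by
  intro l ε hl hε
  constructor
  · set κ : ℝ := min (ε / 2) 1 with hκ
    have hκ0 : 0 < κ := lt_min (by linarith) one_pos
    have hκ1 : κ ≤ 1 := min_le_right _ _
    have hκε : κ ≤ ε / 2 := min_le_left _ _
    obtain ⟨r, hr⟩ := exists_pow_lt_of_lt_one (show (0 : ℝ) < κ / 2 by linarith)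
      (show (1 / 2 : ℝ) < 1 by norm_num)
    have hr' : (1 / 2 : ℝ) ^ (r + 1) ≤ κ / 2 := by
      rw [pow_succ]
      have : (0 : ℝ) < (1 / 2 : ℝ) ^ r := by positivity
      linarith
    obtain ⟨C, hC, h⟩ := key h1 h2 l (r + 1) (κ / 4) (1 - κ) (ε - κ) hl (by omega) (by linarith)
      (by linarith) (by linarith) (by linarith) (Or.inl (by linarith))
    refine ⟨C, hC, fun x hx => ?_⟩
    have h3 := h x hx
    have e : 1 - κ - (ε - κ) = 1 - ε := by ring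
    rw [e] at h3
    exact h3
  · intro hsq
    obtain ⟨C, hC, h⟩ := key h1 h2 l 2 (1 / 16) (9 / 8) ε hl (by omega) (by norm_num)
      (by norm_num) (by norm_num) hε (Or.inr ⟨hsq, le_refl _, by norm_num⟩)
    exact ⟨C, hC, h⟩

end Pool.Agent.Lib.MP_706923_coQ
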