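import Pool.Agent.Lib.MP_706923_coQ.Spec
import Pool.Agent.Lib.BV.All

/-!
# MP_706923_co, package Q, module Mj: Mertens sums of a fixed quadratic character
-/

set_option autoImplicit false

namespace Pool.Agent.Lib.MP_706923_coQ

open Finset

private theorem odd_val {d : ℤ} (hd : d ≠ 0) (u : (ZMod (4 * d.natAbs))ˣ) :
    Odd (u : ZMod (4 * d.natAbs)).val := by
  have : NeZero (4 * d.natAbs) := ⟨by have := Int.natAbs_pos.2 hd; omega⟩
  have h1 := ZMod.val_coe_unit_coprime u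
  have h2 : Nat.Coprime (u : ZMod (4 * d.natAbs)).val 2 :=
    Nat.Coprime.coprime_dvd_right (Dvd.intro (2 * d.natAbs) (by ring)) h1
  exact Nat.coprime_two_right.1 h2

/-- the Jacobi symbol as a homomorphism -/
private def jh {d : ℤ} (hd : d ≠ 0) : (ZMod (4 * d.natAbs))ˣ →* ℤ where
  toFun u := jacobiSym d (u : ZMod (4 * d.natAbs)).val
  map_one' := by
    have : NeZero (4 * d.natAbs) := ⟨by have := Int.natAbs_pos.2 hd; omega⟩
    have : Fact (1 < 4 * d.natAbs) := ⟨by have := Int.natAbs_pos.2 hd; omega⟩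
    rw [Units.val_one, ZMod.val_one, jacobiSym.one_right]
  map_mul' u v := by
    have : NeZero (4 * d.natAbs) := ⟨by have := Int.natAbs_pos.2 hd; omega⟩
    have hu := odd_val hd u
    have hv := odd_val hd v
    rw [Units.val_mul, ZMod.val_mul, ← jacobiSym.mod_right d (hu.mul hv),
      jacobiSym.mul_right' d hu.pos.ne' hv.pos.ne']

/-- the Dirichlet character -/
private noncomputable def chi {d : ℤ} (hd : d ≠ 0) : DirichletCharacter ℂ (4 * d.natAbs) :=
  MulChar.ofUnitHom ((Units.map (Int.castRingHom ℂ : ℤ →* ℂ)).comp (jh hd).toHomUnits)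

private theorem chi_apply {d : ℤ} (hd : d ≠ 0) {n : ℕ} (hn : Odd n) :
    chi hd (n : ZMod (4 * d.natAbs)) = (jacobiSym d n : ℂ) := by
  have : NeZero (4 * d.natAbs) := ⟨by have := Int.natAbs_pos.2 hd; omega⟩
  have : NeZero n := ⟨hn.pos.ne'⟩
  by_cases h : d.gcd n = 1
  · have h1 : n.Coprime (4 * d.natAbs) := by
      have h2 : n.Coprime 4 := by
        have : n.Coprime (2 ^ 2) := Nat.Coprime.pow_right 2 (Nat.coprime_two_right.2 hn)
        simpa using this
      have h3 : n.Coprime d.natAbs := by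
        rw [Nat.coprime_comm]
        exact h
      exact Nat.Coprime.mul_right h2 h3
    have h4 : ((ZMod.unitOfCoprime n h1 : (ZMod (4 * d.natAbs))ˣ) : ZMod (4 * d.natAbs)) = n :=
      ZMod.coe_unitOfCoprime n h1
    have h5 : chi hd ((ZMod.unitOfCoprime n h1 : (ZMod (4 * d.natAbs))ˣ) : ZMod (4 * d.natAbs)) =
        ((jh hd (ZMod.unitOfCoprime n h1) : ℤ) : ℂ) := by
      unfold chi
      rw [MulChar.ofUnitHom_coe]
      rfl
    rw [h4] at h5
    rw [h5]
    change ((jacobiSym d ((ZMod.unitOfCoprime n h1 : (ZMod (4 * d.natAbs))ˣ) :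
      ZMod (4 * d.natAbs)).val : ℤ) : ℂ) = _
    rw [h4, ZMod.val_natCast, ← jacobiSym.mod_right d hn]
  · rw [jacobiSym.eq_zero_iff_not_coprime.2 h, Int.cast_zero]
    apply MulChar.map_nonunit
    intro hu
    rw [ZMod.isUnit_iff_coprime] at hu
    apply h
    have h3 : n.Coprime d.natAbs := Nat.Coprime.coprime_mul_left_right hu
    rw [Nat.coprime_comm] at h3
    exact h3

private theorem chi_ne {d : ℤ} (hd : d ≠ 0) (h : ∃ b : ℕ, Odd b ∧ jacobiSym d b = -1) :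
    chi hd ≠ 1 := by
  have : NeZero (4 * d.natAbs) := ⟨by have := Int.natAbs_pos.2 hd; omega⟩
  obtain ⟨b, hb, hb2⟩ := h
  intro h1
  have h2 := chi_apply hd hb
  rw [h1, hb2] at h2
  by_cases hu : IsUnit (b : ZMod (4 * d.natAbs))
  · rw [MulChar.one_apply hu] at h2
    norm_num at h2
  · rw [MulChar.map_nonunit _ hu] at h2
    norm_num at h2

/-- partial summation -/
private theorem abel (f : ℕ → ℝ) (E : ℝ) (P : ℕ) (hP : 1 ≤ P)
    (h : ∀ u, P ≤ u → u ≤ 2 * P → |∑ n ∈ Ioc P u, f n| ≤ E) :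
    |∑ n ∈ Ioc P (2 * P), f n / n| ≤ E / P := by
  have hP0 : (0 : ℝ) < P := by exact_mod_cast hP
  have key : ∀ u, P ≤ u → u ≤ 2 * P →
      |∑ n ∈ Ioc P u, f n / n - (∑ n ∈ Ioc P u, f n) / u| ≤ E * (1 / P - 1 / u) := by
    intro u hu
    induction u, hu using Nat.le_induction with
    | base => intro _; simp
    | succ u hu ih =>
      intro hu2
      have h1 := ih (by omega)
      have h2 := h u hu (by omega)
      have hu0 : (0 : ℝ) < u := by
        have : (P : ℝ) ≤ u := by exact_mod_cast hu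
        linarith
      rw [Finset.sum_Ioc_succ_top hu, Finset.sum_Ioc_succ_top hu]
      have h3 : ∑ n ∈ Ioc P u, f n / n + f (u + 1) / ((u + 1 : ℕ) : ℝ) -
          (∑ n ∈ Ioc P u, f n + f (u + 1)) / ((u + 1 : ℕ) : ℝ) =
          (∑ n ∈ Ioc P u, f n / n - (∑ n ∈ Ioc P u, f n) / u) +
            (∑ n ∈ Ioc P u, f n) * (1 / u - 1 / ((u + 1 : ℕ) : ℝ)) := by
        push_cast
        field_simp
        ring
      rw [h3]
      have h4 : 0 ≤ 1 / (u : ℝ) - 1 / ((u + 1 : ℕ) : ℝ) := by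
        rw [sub_nonneg]
        apply one_div_le_one_div_of_le hu0
        push_cast
        linarith
      calc _ ≤ |∑ n ∈ Ioc P u, f n / n - (∑ n ∈ Ioc P u, f n) / u| +
            |(∑ n ∈ Ioc P u, f n) * (1 / u - 1 / ((u + 1 : ℕ) : ℝ))| := abs_add_le _ _
        _ ≤ E * (1 / P - 1 / u) + E * (1 / u - 1 / ((u + 1 : ℕ) : ℝ)) := by
            refine add_le_add h1 ?_
            rw [abs_mul, abs_of_nonneg h4]
            exact mul_le_mul_of_nonneg_right h2 h4
        _ = _ := by ring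
  have h1 := key (2 * P) (by omega) le_rfl
  have h2 := h (2 * P) (by omega) le_rfl
  have h3 : |(∑ n ∈ Ioc P (2 * P), f n) / ((2 * P : ℕ) : ℝ)| ≤ E / ((2 * P : ℕ) : ℝ) := by
    rw [abs_div, abs_of_nonneg (Nat.cast_nonneg (2 * P) : (0 : ℝ) ≤ ((2 * P : ℕ) : ℝ))]
    exact div_le_div_of_nonneg_right h2 (Nat.cast_nonneg _)
  have h4 : ∑ n ∈ Ioc P (2 * P), f n / n = (∑ n ∈ Ioc P (2 * P), f n / n -
      (∑ n ∈ Ioc P (2 * P), f n) / ((2 * P : ℕ) : ℝ)) +
        (∑ n ∈ Ioc P (2 * P), f n) / ((2 * P : ℕ) : ℝ) := by ring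
  rw [h4]
  refine (abs_add_le _ _).trans ?_
  have h5 := add_le_add h1 h3
  refine h5.trans (le_of_eq ?_)
  push_cast
  field_simp
  ring

/-- a block -/
private theorem block (hL : Pool.Agent.Lib.BV.LswStmt) {d : ℤ} (hd : d ≠ 0)
    (h : ∃ b : ℕ, Odd b ∧ jacobiSym d b = -1) : ∃ (C : ℝ) (j₁ : ℕ), 0 < C ∧ ∀ j : ℕ, j₁ ≤ j →
    |∑ q ∈ (Ioc (2 ^ j) (2 ^ (j + 1))).filter Nat.Prime, (jacobiSym d q : ℝ) / q| ≤
      C / (j : ℝ) ^ 2 := by
  have : NeZero (4 * d.natAbs) := ⟨by have := Int.natAbs_pos.2 hd; omega⟩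
  obtain ⟨C, x0, hC, hx0, hC2⟩ := hL 2 1 (by norm_num) (by norm_num)
  have hl2 : 0 < Real.log 2 := Real.log_pos (by norm_num)
  have hl2' : 0.69 < Real.log 2 := by have := Real.log_two_gt_d9; linarith
  -- large `j`
  obtain ⟨j₁, hj₁⟩ : ∃ j₁ : ℕ, ∀ j : ℕ, j₁ ≤ j →
      1 ≤ j ∧ x0 ≤ Real.exp ((j * Real.log 2) ^ 2) ∧
      ((4 * d.natAbs : ℕ) : ℝ) ≤ (j * Real.log 2) ^ 2 := by
    refine ⟨⌈2 * (x0 + ((4 * d.natAbs : ℕ) : ℝ))⌉₊ + 2, fun j hj => ?_⟩
    have h1 : 2 * (x0 + ((4 * d.natAbs : ℕ) : ℝ)) ≤ j := by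
      have h2 := Nat.le_ceil (2 * (x0 + ((4 * d.natAbs : ℕ) : ℝ)))
      have h3 : ((⌈2 * (x0 + ((4 * d.natAbs : ℕ) : ℝ))⌉₊ : ℕ) : ℝ) ≤ j := by
        exact_mod_cast (by omega : ⌈2 * (x0 + ((4 * d.natAbs : ℕ) : ℝ))⌉₊ ≤ j)
      linarith
    have h0 : (0 : ℝ) ≤ ((4 * d.natAbs : ℕ) : ℝ) := Nat.cast_nonneg _
    have hj2 : (2 : ℝ) ≤ j := by exact_mod_cast (by omega : 2 ≤ j)
    have h4 : (j : ℝ) / 2 ≤ j * Real.log 2 := by nlinarith
    have h5 : (j : ℝ) / 2 ≤ (j * Real.log 2) ^ 2 := by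
      have h6 : (1 : ℝ) ≤ j * Real.log 2 := by nlinarith
      nlinarith
    refine ⟨by omega, ?_, by linarith⟩
    have h7 := Real.add_one_le_exp ((j * Real.log 2) ^ 2)
    linarith
  refine ⟨16 * C, j₁, by positivity, fun j hj => ?_⟩
  obtain ⟨hj1, hjx, hjd⟩ := hj₁ j hj
  have hjr : (1 : ℝ) ≤ j := by exact_mod_cast hj1
  have hlogP : Real.log ((2 ^ j : ℕ) : ℝ) = j * Real.log 2 := by
    push_cast
    rw [Real.log_pow]
  have hpos : 0 < (j : ℝ) * Real.log 2 := by positivity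
  have hcond : 1 < (chi hd).conductor := by
    have h1 : (chi hd).conductor ≠ 0 := DirichletCharacter.conductor_ne_zero _
    have h2 : (chi hd).conductor ≠ 1 := fun h3 =>
      chi_ne hd h (DirichletCharacter.eq_one_iff_conductor_eq_one.2 h3)
    omega
  have hcond2 : (chi hd).conductor ≤ 4 * d.natAbs :=
    Nat.le_of_dvd (Nat.pos_of_ne_zero (NeZero.ne _)) (DirichletCharacter.conductor_dvd_level _)
  have hmain := abel (fun n => if n.Prime then (jacobiSym d n : ℝ) else 0)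
    (C * ((2 ^ j : ℕ) / (j * Real.log 2) ^ 4)) (2 ^ j) Nat.one_le_two_pow (by
      intro u hu1 hu2
      have h1 := hC2 (Real.exp ((j * Real.log 2) ^ 2)) (2 ^ j) (4 * d.natAbs) u (chi hd) hjx
        (by rw [Real.log_exp, hlogP, Real.sqrt_sq hpos.le])
        (Nat.pos_of_ne_zero (NeZero.ne _))
        (by
          have := Real.add_one_le_exp ((j * Real.log 2) ^ 2)
          linarith)
        hcond
        (by
          rw [Real.log_exp, Real.rpow_one]
          exact le_trans (by exact_mod_cast hcond2) hjd) hu1 hu2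
      rw [Real.log_exp] at h1
      have h2 : ∑ p ∈ (Ioc (2 ^ j) u).filter Nat.Prime, chi hd (p : ZMod (4 * d.natAbs)) =
          ((∑ n ∈ Ioc (2 ^ j) u, (if n.Prime then (jacobiSym d n : ℝ) else 0) : ℝ) : ℂ) := by
        rw [← Finset.sum_filter]
        push_cast
        refine Finset.sum_congr rfl fun p hp => ?_
        rw [mem_filter, mem_Ioc] at hp
        have hpo : Odd p := hp.2.odd_of_ne_two (by
          have : 2 ≤ 2 ^ j := by
            calc 2 = 2 ^ 1 := by norm_num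
              _ ≤ 2 ^ j := Nat.pow_le_pow_right (by norm_num) hj1
          omega)
        rw [chi_apply hd hpo]
      rw [h2, Complex.norm_real, Real.norm_eq_abs] at h1
      refine h1.trans (le_of_eq ?_)
      have h4 : (((j : ℝ) * Real.log 2) ^ 2) ^ (2 : ℝ) = (j * Real.log 2) ^ 4 := by
        rw [show (2 : ℝ) = ((2 : ℕ) : ℝ) by norm_num, Real.rpow_natCast, ← pow_mul]
      rw [h4])
  have h5 : ∑ n ∈ Ioc ((2 : ℕ) ^ j) (2 * 2 ^ j), (if n.Prime then (jacobiSym d n : ℝ) else 0) / (n : ℝ) =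
      ∑ q ∈ (Ioc (2 ^ j) (2 ^ (j + 1))).filter Nat.Prime, (jacobiSym d q : ℝ) / q := by
    rw [Finset.sum_filter, pow_succ, mul_comm (2 ^ j) 2]
    refine Finset.sum_congr rfl fun n _ => ?_
    split_ifs
    · rfl
    · rw [zero_div]
  rw [h5] at hmain
  refine hmain.trans ?_
  have h6 : (0 : ℝ) < ((2 ^ j : ℕ) : ℝ) := by positivity
  have h7 : C * (((2 ^ j : ℕ) : ℝ) / (j * Real.log 2) ^ 4) / ((2 ^ j : ℕ) : ℝ) =
      C / (j * Real.log 2) ^ 4 := by
    field_simp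
  rw [h7, div_le_div_iff₀ (by positivity) (by positivity)]
  have h8 : (j : ℝ) ^ 2 ≤ 16 * (j * Real.log 2) ^ 4 := by
    have h9 : (1 : ℝ) ≤ 2 * Real.log 2 := by linarith
    have h10 : (1 : ℝ) ≤ (2 * Real.log 2) ^ 4 := one_le_pow₀ h9
    have h11 : (j : ℝ) ^ 2 ≤ (j : ℝ) ^ 4 := pow_le_pow_right₀ hjr (by norm_num)
    have h12 : 16 * ((j : ℝ) * Real.log 2) ^ 4 = (j : ℝ) ^ 4 * (2 * Real.log 2) ^ 4 := by ring
    rw [h12]
    calc (j : ℝ) ^ 2 ≤ (j : ℝ) ^ 4 * 1 := by rw [mul_one]; exact h11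
      _ ≤ _ := mul_le_mul_of_nonneg_left h10 (by positivity)
  calc C * (j : ℝ) ^ 2 ≤ C * (16 * (j * Real.log 2) ^ 4) := mul_le_mul_of_nonneg_left h8 hC.le
    _ = _ := by ring

theorem tMj (h1 : S_Nj) : S_Mj := by
  intro d hds
  have hd : d ≠ 0 := by
    rintro rfl
    exact hds ⟨0, by norm_num⟩
  obtain ⟨C, j₁, hC, hb⟩ := block Pool.Agent.Lib.BV.aLsw hd (h1 d hds)
  have htriv : ∀ j : ℕ,
      |∑ q ∈ (Ioc (2 ^ j) (2 ^ (j + 1))).filter Nat.Prime, (jacobiSym d q : ℝ) / q| ≤ 1 := by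
    intro j
    refine (Finset.abs_sum_le_sum_abs _ _).trans ?_
    have h2 : ∀ q ∈ (Ioc (2 ^ j) (2 ^ (j + 1))).filter Nat.Prime,
        |(jacobiSym d q : ℝ) / q| ≤ 1 / 2 ^ j := by
      intro q hq
      rw [mem_filter, mem_Ioc] at hq
      have h3 : ((2 : ℝ) ^ j) ≤ q := by exact_mod_cast hq.1.1.le
      have h4 : |(jacobiSym d q : ℝ)| ≤ 1 := by
        rcases jacobiSym.trichotomy d q with h | h | h <;> rw [h] <;> simp
      have h5 : (0 : ℝ) < 2 ^ j := by positivity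
      rw [abs_div, abs_of_nonneg (Nat.cast_nonneg q : (0 : ℝ) ≤ q)]
      exact div_le_div₀ (by norm_num) h4 h5 h3
    refine (Finset.sum_le_sum h2).trans ?_
    rw [Finset.sum_const, nsmul_eq_mul]
    have h3 : ((Ioc (2 ^ j) (2 ^ (j + 1))).filter Nat.Prime).card ≤ 2 ^ j := by
      refine (Finset.card_filter_le _ _).trans ?_
      rw [Nat.card_Ioc, pow_succ]
      omega
    have h4 : (((Ioc (2 ^ j) (2 ^ (j + 1))).filter Nat.Prime).card : ℝ) ≤ 2 ^ j := by
      exact_mod_cast h3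
    have h5 : (0 : ℝ) < 2 ^ j := by positivity
    calc _ ≤ (2 : ℝ) ^ j * (1 / 2 ^ j) := mul_le_mul_of_nonneg_right h4 (by positivity)
      _ = 1 := by field_simp
  refine ⟨j₁ + 2 * C + 1, by positivity, fun i j hi hij => ?_⟩
  have key : |∑ q ∈ (Ioc (2 ^ i) (2 ^ j)).filter Nat.Prime, (jacobiSym d q : ℝ) / q| ≤
      (min j j₁ : ℕ) + 2 * C * (1 / i - 1 / j) := by
    induction j, hij using Nat.le_induction with
    | base => simp
    | succ j hij ih =>
      have hsplit : ∑ q ∈ (Ioc (2 ^ i) (2 ^ (j + 1))).filter Nat.Prime, (jacobiSym d q : ℝ) / q =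
          ∑ q ∈ (Ioc (2 ^ i) (2 ^ j)).filter Nat.Prime, (jacobiSym d q : ℝ) / q +
          ∑ q ∈ (Ioc (2 ^ j) (2 ^ (j + 1))).filter Nat.Prime, (jacobiSym d q : ℝ) / q := by
        rw [← Finset.sum_union]
        · rw [← Finset.filter_union, Finset.Ioc_union_Ioc_eq_Ioc
            (Nat.pow_le_pow_right (by norm_num) hij) (Nat.pow_le_pow_right (by norm_num) (by omega))]
        · rw [Finset.disjoint_left]
          intro q hq hq2
          rw [mem_filter, mem_Ioc] at hq hq2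
          omega
      rw [hsplit]
      refine (abs_add_le _ _).trans ?_
      have hj0 : (1 : ℝ) ≤ j := by exact_mod_cast (by omega : 1 ≤ j)
      have hdec : 1 / (j : ℝ) ^ 2 ≤ 2 * (1 / j - 1 / ((j + 1 : ℕ) : ℝ)) := by
        push_cast
        rw [div_le_iff₀ (by positivity)]
        field_simp
        nlinarith
      rcases Nat.lt_or_ge j j₁ with h | h
      · have h3 := htriv j
        have h4 : (min (j + 1) j₁ : ℕ) = (min j j₁ : ℕ) + 1 := by omega
        rw [h4, Nat.cast_add, Nat.cast_one]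
        have h5 : (0 : ℝ) ≤ 1 / j - 1 / ((j + 1 : ℕ) : ℝ) := by
          have : (0 : ℝ) ≤ 1 / (j : ℝ) ^ 2 := by positivity
          linarith
        have h6 := mul_nonneg (mul_nonneg (by norm_num : (0 : ℝ) ≤ 2) hC.le) h5
        have h7 := ih
        linarith
      · have h3 := hb j h
        have h4 : (min (j + 1) j₁ : ℕ) = (min j j₁ : ℕ) := by omega
        rw [h4]
        have h5 : C / (j : ℝ) ^ 2 ≤ C * (2 * (1 / j - 1 / ((j + 1 : ℕ) : ℝ))) := by
          rw [div_eq_mul_one_div]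
          exact mul_le_mul_of_nonneg_left hdec hC.le
        linarith
  refine key.trans ?_
  have hi0 : (1 : ℝ) ≤ i := by exact_mod_cast hi
  have h3 : ((min j j₁ : ℕ) : ℝ) ≤ j₁ := by exact_mod_cast min_le_right _ _
  have h4 : (1 : ℝ) / i - 1 / j ≤ 1 := by
    have h5 : (1 : ℝ) / i ≤ 1 := by
      rw [div_le_one (by linarith)]
      exact hi0
    have h6 : (0 : ℝ) ≤ 1 / j := by positivity
    linarith
  nlinarith

end Pool.Agent.Lib.MP_706923_coQ
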