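import Pool.Agent.Lib.MP_706923_coQ.Spec
import Pool.Agent.Lib.SG.Mrt

/-!
# MP_706923_coQ, Mr: Mertens' theorem for dyadic intervals
-/

set_option autoImplicit false

namespace Pool.Agent.Lib.MP_706923_coQ

open Finset Pool.Agent.Lib.MP_706923_co

theorem tMr : S_Mr := by
  obtain ⟨C, hC, h⟩ := Pool.Agent.Lib.SG.tMrt
  have hl : 0 < Real.log 2 := Real.log_pos one_lt_two
  refine ⟨C / Real.log 2, div_pos hC hl, ?_⟩
  intro i j hi hij
  have hf : ∀ m : ℕ, ⌊((2 : ℝ) ^ m)⌋₊ = 2 ^ m := by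
    intro m
    have e : ((2 : ℝ) ^ m) = ((2 ^ m : ℕ) : ℝ) := by push_cast; rfl
    rw [e, Nat.floor_natCast]
  have h1 : (2 : ℝ) ≤ 2 ^ i := by
    calc (2 : ℝ) = 2 ^ 1 := (pow_one _).symm
      _ ≤ 2 ^ i := pow_le_pow_right₀ one_le_two hi
  have h2 : (2 : ℝ) ^ i ≤ 2 ^ j := pow_le_pow_right₀ one_le_two hij
  have h3 := h (2 ^ i) (2 ^ j) h1 h2
  rw [hf, hf, Real.log_pow, Real.log_pow, mul_div_mul_right _ _ hl.ne'] at h3
  have e : C / Real.log 2 / (i : ℝ) = C / ((i : ℝ) * Real.log 2) := by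
    rw [div_div, mul_comm]
  rw [e]
  exact h3

end Pool.Agent.Lib.MP_706923_coQ
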