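import Pool.Agent.Lib.MP_706923_coQ.Spec
import Pool.Agent.Lib.MP_706923_co.Jac

/-!
# MP_706923_co, package Q: an odd modulus with Jacobi symbol `-1` for every nonsquare
-/

set_option autoImplicit false

namespace Pool.Agent.Lib.MP_706923_coQ

open Finset Pool.Agent.Lib.MP_706923_co

private theorem nj_split (f m b : ℕ) (x : ℤ) : jacobiSym (x * (2 ^ f * (m : ℤ))) b =
    jacobiSym x b * (jacobiSym 2 b ^ f * jacobiSym m b) := by
  rw [jacobiSym.mul_left, jacobiSym.mul_left, jacobiSym.pow_left]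

private theorem nj_two_one {b : ℕ} (hb : b % 8 = 1) : jacobiSym 2 b = 1 := by
  rw [jacobiSym.at_two (Nat.odd_iff.2 (by omega)), ZMod.χ₈_nat_eq_if_mod_eight,
    if_neg (by omega), if_pos (Or.inl hb)]

private theorem nj_two_five {b : ℕ} (hb : b % 8 = 5) : jacobiSym 2 b = -1 := by
  rw [jacobiSym.at_two (Nat.odd_iff.2 (by omega)), ZMod.χ₈_nat_eq_if_mod_eight,
    if_neg (by omega), if_neg (by omega)]

private theorem nj_sign {b : ℕ} (hb : b % 4 = 1) {σ : ℤ} (hσ : σ = 1 ∨ σ = -1) :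
    jacobiSym σ b = 1 := by
  rcases hσ with rfl | rfl
  · exact jacobiSym.one_left b
  · rw [jacobiSym.at_neg_one (Nat.odd_iff.2 (by omega))]
    exact ZMod.χ₄_nat_one_mod_four hb

theorem tNj : S_Nj := by
  intro d hd
  have hd0 : d.natAbs ≠ 0 := by
    intro h
    rw [Int.natAbs_eq_zero] at h
    exact hd ⟨0, by rw [h]; simp⟩
  obtain ⟨f, m, hm, hfm⟩ := Nat.exists_eq_two_pow_mul_odd hd0
  have hm0 : 0 < m := hm.pos
  obtain ⟨σ, hσ, hdσ⟩ : ∃ σ : ℤ, (σ = 1 ∨ σ = -1) ∧ d = σ * (2 ^ f * (m : ℤ)) := by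
    rcases Int.natAbs_eq d with h | h
    · exact ⟨1, Or.inl rfl, by rw [h, hfm]; push_cast; ring⟩
    · exact ⟨-1, Or.inr rfl, by rw [h, hfm]; push_cast; ring⟩
  have hcop8 : Nat.Coprime 8 m := by
    have h : Nat.Coprime (2 ^ 3) m := (Nat.coprime_two_left.2 hm).pow_left 3
    exact h
  by_cases hms : IsSquare m
  · obtain ⟨s, hs⟩ := hms
    by_cases hf : Even f
    · -- the number is minus a square
      obtain ⟨g, hg⟩ := hf
      have hsq : (2 : ℤ) ^ f * (m : ℤ) = (2 ^ g * (s : ℤ)) ^ 2 := by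
        rw [hg, hs]
        push_cast
        ring
      have hσ1 : σ = -1 := by
        rcases hσ with h | h
        · exfalso
          apply hd
          refine ⟨2 ^ g * (s : ℤ), ?_⟩
          rw [hdσ, h, hsq]
          ring
        · exact h
      refine ⟨4 * m - 1, Nat.odd_iff.2 (by omega), ?_⟩
      have hbodd : Odd (4 * m - 1) := Nat.odd_iff.2 (by omega)
      have hcop : Nat.Coprime (2 ^ g * s) (4 * m - 1) := by
        apply Nat.Coprime.mul_left
        · exact (Nat.coprime_two_left.2 hbodd).pow_left g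
        · have h1 : Nat.Coprime m (4 * m - 1) := by
            have hg1 := Nat.gcd_dvd_left m (4 * m - 1)
            have hg2 := Nat.gcd_dvd_right m (4 * m - 1)
            have h4 : (4 * m - 1) + 1 = 4 * m := by omega
            have h5 : Nat.gcd m (4 * m - 1) ∣ (4 * m - 1) + 1 := by
              rw [h4]
              exact hg1.mul_left 4
            exact Nat.dvd_one.1 ((Nat.dvd_add_right hg2).1 h5)
          exact Nat.Coprime.coprime_dvd_left ⟨s, hs⟩ h1
      have h2 : jacobiSym ((2 ^ g * (s : ℤ)) ^ 2) ((4 * m - 1 : ℕ)) = 1 := by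
        rw [jacobiSym.pow_left]
        apply jacobiSym.sq_one
        have h3 : ((2 : ℤ) ^ g * (s : ℤ)) = ((2 ^ g * s : ℕ) : ℤ) := by push_cast; ring
        rw [h3, Int.gcd_natCast_natCast]
        exact hcop
      rw [hdσ, hsq, hσ1, jacobiSym.mul_left, h2, mul_one, jacobiSym.at_neg_one hbodd]
      exact ZMod.χ₄_nat_three_mod_four (by omega)
    · rw [Nat.not_even_iff_odd] at hf
      obtain ⟨b, hb1, hb2⟩ := Nat.chineseRemainder hcop8 5 1
      have hb8 : b % 8 = 5 := hb1
      refine ⟨b, Nat.odd_iff.2 (by omega), ?_⟩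
      have h1 : jacobiSym (m : ℤ) b = 1 := by
        rw [← jacobiSym.quadratic_reciprocity_one_mod_four (by omega) hm]
        have h3 : ((b : ℕ) : ℤ) % (m : ℕ) = (1 : ℤ) % (m : ℕ) := by
          have h5 : b % m = 1 % m := hb2
          exact_mod_cast h5
        rw [jacobiSym.mod_left' h3, jacobiSym.one_left]
      rw [hdσ, nj_split, nj_sign (by omega) hσ, nj_two_five hb8, h1, hf.neg_one_pow]
      norm_num
  · obtain ⟨u, hu, huj⟩ := jac m hm hms
    obtain ⟨b, hb1, hb2⟩ := Nat.chineseRemainder hcop8 1 u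
    have hb8 : b % 8 = 1 := hb1
    refine ⟨b, Nat.odd_iff.2 (by omega), ?_⟩
    have h1 : jacobiSym (m : ℤ) b = -1 := by
      rw [← jacobiSym.quadratic_reciprocity_one_mod_four (by omega) hm]
      have h3 : ((b : ℕ) : ℤ) % (m : ℕ) = (u : ℤ) % (m : ℕ) := by
        have h5 : b % m = u % m := hb2
        exact_mod_cast h5
      rw [jacobiSym.mod_left' h3, huj]
    rw [hdσ, nj_split, nj_sign (by omega) hσ, nj_two_one hb8, h1, one_pow]
    norm_num

end Pool.Agent.Lib.MP_706923_coQ
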