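import Pool.Agent.Lib.MP_706923_coQ.Spec

/-!
# MP_706923_co, package Q: the excluded classes mod `q`

See `S_Om` in the Spec.
-/

set_option autoImplicit false

namespace Pool.Agent.Lib.MP_706923_coQ

open Finset Pool.Agent.Lib.MP_706923_co

/-- If `k` is congruent to a root of `X² - X + l` mod `q`, then `q` divides `v`. -/
private lemma om_dvd {l k v q r : ℕ} (hl : 1 ≤ l) (hq : q.Prime) (hql : l < q) (hA : Adm l k v)
    (hr : r ∈ rts l q) (hk : k % q = r) : q ∣ v := by
  have hr2 : (q : ℤ) ∣ (r : ℤ) ^ 2 - r + l := (mem_filter.1 hr).2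
  obtain ⟨c, hc⟩ := hr2
  have hkr : (k : ℤ) = q * (k / q : ℕ) + r := by
    have h := Nat.div_add_mod k q
    rw [hk] at h
    exact_mod_cast h.symm
  have h1 : (q : ℤ) ∣ (l : ℤ) * v := by
    rw [← hA.eq]
    refine ⟨(q : ℤ) * ((k / q : ℕ) : ℤ) ^ 2 + 2 * ((k / q : ℕ) : ℤ) * r - ((k / q : ℕ) : ℤ) + c, ?_⟩
    rw [hkr]
    linear_combination hc
  have h2 : q ∣ l * v := by exact_mod_cast h1
  rcases (Nat.Prime.dvd_mul hq).1 h2 with h | h
  · exact absurd (Nat.le_of_dvd (by omega) h) (by omega)
  · exact h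

theorem tOm (h1 : S_Leg) (h2 : S_Rec) (h3 : S_Rt) (h4 : S_Roots) : S_Om := by
  classical
  intro l b M q P e S hl hq hql hM hb hS
  have hlq : ¬ q ∣ l := fun h => absurd (Nat.le_of_dvd (by omega) h) (by omega)
  have : Fact q.Prime := ⟨hq⟩
  -- the excluded roots
  obtain ⟨E, hEr, hEc, hEx⟩ : ∃ E : Finset ℕ, E ⊆ rts l q ∧ E.card = c1 l S q ∧
      ∀ r ∈ E, ∀ k v : ℕ, Adm l k v → k % q = r → (∃ a, Squarefree a ∧ k - l = a * b ^ 2) →
        (∀ p ∈ S, Odd (padicValNat p (k - l))) → False := by
    by_cases hA : jacobiSym (1 - 4 * l) q = 1 ∧ (∃ p ∈ S, jacobiSym p q = -1)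
    · refine ⟨rts l q, subset_rfl, ?_, ?_⟩
      · rw [(h4 l q hl hq (by omega) hA.1).1, c1, if_pos hA]
      · intro r hr k v hAd hk _ hp
        obtain ⟨p, hpS, hpj⟩ := hA.2
        have hqv := om_dvd hl hq (by omega) hAd hr hk
        have := h1 l k v p q hAd (hS p hpS).1 hq hqv (hS p hpS).2 (hp p hpS)
        rw [this] at hpj
        norm_num at hpj
    · by_cases hB : q % 4 = 1 ∧ jacobiSym (1 - 4 * l) q = 1 ∧ jacobiSym l q = -1
      · obtain ⟨r, hr, hrj⟩ := (h4 l q hl hq (by omega) hB.2.1).2 hB.2.2 b hb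
        refine ⟨{r}, by simpa using hr, ?_, ?_⟩
        · rw [card_singleton, c1, if_neg hA, if_pos hB]
        · intro r' hr' k v hAd hk ha _
          rw [mem_singleton] at hr'
          subst hr'
          obtain ⟨a, hasq, hak⟩ := ha
          have hqv := om_dvd hl hq (by omega) hAd hr hk
          have h5 := h3 l k v a b q hl hAd hak hasq hq hB.1 hqv hlq
          have h6 : jacobiSym (k * b) q = jacobiSym (r' * b) q := by
            apply jacobiSym.mod_left'
            have h7 : (k : ℤ) % q = (r' : ℤ) % q := by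
              have : k % q = r' % q := by
                rw [hk, ← hk, Nat.mod_mod]
              exact_mod_cast this
            rw [Int.mul_emod, h7, ← Int.mul_emod]
          rw [h5, hrj] at h6
          norm_num at h6
      · refine ⟨∅, by simp, ?_, by simp⟩
        rw [card_empty, c1, if_neg hA, if_neg hB]
  have hMz : (M : ZMod q) ≠ 0 := by
    rw [Ne, ZMod.natCast_eq_zero_iff]
    exact hM
  have hlz : (l : ZMod q) ≠ 0 := by
    rw [Ne, ZMod.natCast_eq_zero_iff]
    exact hlq
  let f : ℕ → ℕ := fun r => (((r : ZMod q) - l) * (M : ZMod q)⁻¹).val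
  have hElt : ∀ r ∈ E, r < q := fun r hr => mem_range.1 (mem_filter.1 (hEr hr)).1
  have hinj : Set.InjOn f E := by
    intro r hr r' hr' h
    have h5 := ZMod.val_injective q h
    have h6 := mul_right_cancel₀ (inv_ne_zero hMz) h5
    have h7 : (r : ZMod q) = r' := sub_left_injective h6
    have h8 := (ZMod.natCast_eq_natCast_iff' r r' q).1 h7
    rwa [Nat.mod_eq_of_lt (hElt r hr), Nat.mod_eq_of_lt (hElt r' hr')] at h8
  have hf0 : 0 ∉ E.image f := by
    rw [mem_image]
    rintro ⟨r, hr, h⟩
    have h5 : ((r : ZMod q) - l) * (M : ZMod q)⁻¹ = 0 := (ZMod.val_eq_zero _).1 h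
    have h6 : (r : ZMod q) = l := by
      rcases mul_eq_zero.1 h5 with h | h
      · exact sub_eq_zero.1 h
      · exact absurd h (inv_ne_zero hMz)
    have h7 : (((r : ℤ) ^ 2 - r + l : ℤ) : ZMod q) = 0 :=
      (ZMod.intCast_zmod_eq_zero_iff_dvd _ _).2 (mem_filter.1 (hEr hr)).2
    push_cast at h7
    rw [h6] at h7
    have h8 : (l : ZMod q) ^ 2 = 0 := by linear_combination h7
    exact hlz (pow_eq_zero_iff (two_ne_zero) |>.1 h8)
  have hfr : E.image f ⊆ range q := by
    intro t ht
    obtain ⟨r, _, rfl⟩ := mem_image.1 ht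
    exact mem_range.2 (ZMod.val_lt _)
  have hfc : (E.image f).card = c1 l S q := by
    rw [card_image_of_injOn hinj, hEc]
  -- the class of a root
  have key : ∀ t v : ℕ, Adm l (l + M * t) v → (∃ a, Squarefree a ∧ M * t = a * b ^ 2) →
      (∀ p ∈ S, Odd (padicValNat p (M * t))) → t % q ∉ E.image f := by
    intro t v hAd ha hp ht
    obtain ⟨r, hr, hrt⟩ := mem_image.1 ht
    have h5 : ((t : ℕ) : ZMod q) = ((r : ZMod q) - l) * (M : ZMod q)⁻¹ := by
      rw [← ZMod.natCast_mod t q, ← hrt]
      exact ZMod.natCast_zmod_val _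
    have h6 : ((l + M * t : ℕ) : ZMod q) = (r : ℕ) := by
      push_cast
      rw [h5]
      field_simp
      ring
    have h7 := (ZMod.natCast_eq_natCast_iff' (l + M * t) r q).1 h6
    rw [Nat.mod_eq_of_lt (hElt r hr)] at h7
    have h8 : l + M * t - l = M * t := Nat.add_sub_cancel_left _ _
    exact hEx r hr (l + M * t) v hAd h7 (by rw [h8]; exact ha) (by rw [h8]; exact hp)
  by_cases hc : q < P ∨ jacobiSym (e * l) q = -1
  · refine ⟨insert 0 (E.image f), ?_, ?_, ?_⟩
    · exact insert_subset (mem_range.2 hq.pos) hfr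
    · rw [card_insert_of_notMem hf0, hfc, c0, if_pos hc, add_comm]
    · intro t v hAd he1 he3 ha hp hsq hP ht
      rcases mem_insert.1 ht with h0 | h0
      · have hqt : q ∣ M * t := Dvd.dvd.mul_left (Nat.dvd_of_mod_eq_zero h0) M
        rcases hc with hc | hc
        · exact hP hc hqt
        · have hne : M * t ≠ 0 := by
            intro h
            rw [h] at hsq
            exact hsq (dvd_zero _)
          have hv : padicValNat q (M * t) = 1 := by
            apply le_antisymm
            · by_contra hlt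
              push Not at hlt
              exact hsq ((padicValNat_dvd_iff_le hne).2 hlt)
            · exact one_le_padicValNat_of_dvd hne hqt
          have h8 : l + M * t - l = M * t := Nat.add_sub_cancel_left _ _
          have h5 := h2 l (l + M * t) v q e hl hAd hq (by omega) (by rw [h8, hv]; exact odd_one)
            he1 he3
          rw [h5] at hc
          norm_num at hc
      · exact key t v hAd ha hp h0
  · refine ⟨E.image f, hfr, ?_, ?_⟩
    · rw [hfc, c0, if_neg hc, zero_add]
    · intro t v hAd _ _ ha hp _ _ ht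
      exact key t v hAd ha hp ht

end Pool.Agent.Lib.MP_706923_coQ
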