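import Pool.Agent.Lib.MP_706923_coQ.Spec

/-!
# MP_706923_coQ, Per: character sums over intervals
-/

set_option autoImplicit false

namespace Pool.Agent.Lib.MP_706923_coQ

open Finset Pool.Agent.Lib.MP_706923_co

/-- the character with values at even numbers replaced by zero -/
private noncomputable def fc (d : ℤ) (n : ℕ) : ℤ := if Odd n then jacobiSym d n else 0

private theorem fc_per (d : ℤ) (n : ℕ) : fc d (n + 4 * d.natAbs) = fc d n := by
  unfold fc
  have h0 : Odd (n + 4 * d.natAbs) ↔ Odd n := by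
    have h1 : Even (4 * d.natAbs) := ⟨2 * d.natAbs, by ring⟩
    rw [Nat.odd_add]
    simp [h1]
  by_cases h : Odd n
  · rw [if_pos h, if_pos (h0.2 h), jacobiSym.mod_right d (h0.2 h), jacobiSym.mod_right d h,
      Nat.add_mod_right]
  · rw [if_neg h, if_neg (fun h1 => h (h0.1 h1))]

private theorem fc_mod (d : ℤ) (n : ℕ) : fc d (n % (4 * d.natAbs)) = fc d n :=
  Function.Periodic.map_mod_nat (fun n => fc_per d n) n

private theorem fc_mul (d : ℤ) {b : ℕ} (hb : Odd b) (h : jacobiSym d b = -1) (n : ℕ) :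
    fc d (b * n) = -fc d n := by
  unfold fc
  by_cases hn : Odd n
  · rw [if_pos hn, if_pos (hb.mul hn), jacobiSym.mul_right' d hb.pos.ne' hn.pos.ne', h]
    ring
  · rw [if_neg hn, if_neg, neg_zero]
    intro h1
    exact hn (Nat.odd_mul.1 h1).2

private theorem sum_zero (h1 : S_Nj) (d : ℤ) (hd : ¬ IsSquare d) :
    ∑ n ∈ range (4 * d.natAbs), fc d n = 0 := by
  obtain ⟨b, hb, hj⟩ := h1 d hd
  have hcop : Nat.Coprime (4 * d.natAbs) b := by
    have h2 : d.gcd b = 1 := by
      by_contra h3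
      have h4 : jacobiSym d b = 0 := jacobiSym.eq_zero_iff.2 ⟨hb.pos.ne', h3⟩
      rw [h4] at hj
      norm_num at hj
    have h3 : Nat.Coprime d.natAbs b := h2
    have h4 : Nat.Coprime 4 b := by
      have h5 : Nat.Coprime (2 ^ 2) b := Nat.Coprime.pow_left 2 (Nat.coprime_two_left.2 hb)
      exact h5
    exact Nat.Coprime.mul_left h4 h3
  have hd0 : d ≠ 0 := by
    rintro rfl
    exact hd ⟨0, rfl⟩
  have hQ : 0 < 4 * d.natAbs := by
    have := Int.natAbs_pos.2 hd0
    omega
  have hinj : Set.InjOn (fun n => (b * n) % (4 * d.natAbs)) (range (4 * d.natAbs)) := by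
    intro x hx y hy hxy
    rw [Finset.coe_range, Set.mem_Iio] at hx hy
    have h2 : b * x ≡ b * y [MOD 4 * d.natAbs] := hxy
    have h3 := Nat.ModEq.cancel_left_of_coprime hcop h2
    have h4 : x % (4 * d.natAbs) = y % (4 * d.natAbs) := h3
    rwa [Nat.mod_eq_of_lt hx, Nat.mod_eq_of_lt hy] at h4
  have himg : (range (4 * d.natAbs)).image (fun n => (b * n) % (4 * d.natAbs)) =
      range (4 * d.natAbs) := by
    apply Finset.eq_of_subset_of_card_le
    · intro x hx
      obtain ⟨n, _, rfl⟩ := Finset.mem_image.1 hx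
      exact Finset.mem_range.2 (Nat.mod_lt _ hQ)
    · rw [Finset.card_image_of_injOn hinj]
  have h2 : ∑ n ∈ range (4 * d.natAbs), fc d n =
      -∑ n ∈ range (4 * d.natAbs), fc d n := by
    conv_lhs => rw [← himg]
    rw [Finset.sum_image hinj, ← Finset.sum_neg_distrib]
    refine Finset.sum_congr rfl fun n _ => ?_
    rw [fc_mod, fc_mul d hb hj]
  linarith

private theorem part_per (h1 : S_Nj) (d : ℤ) (hd : ¬ IsSquare d) (N : ℕ) :
    ∑ n ∈ range (N + 4 * d.natAbs), fc d n = ∑ n ∈ range N, fc d n := by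
  induction N with
  | zero => rw [Nat.zero_add, sum_zero h1 d hd, Finset.range_zero, Finset.sum_empty]
  | succ N ih =>
    have e : N + 1 + 4 * d.natAbs = (N + 4 * d.natAbs) + 1 := by ring
    rw [e, Finset.sum_range_succ, Finset.sum_range_succ, ih, fc_per]

private theorem abs_fc (d : ℤ) (n : ℕ) : |fc d n| ≤ ((n + 1) / 2 : ℕ) - (n / 2 : ℕ) := by
  unfold fc
  by_cases h : Odd n
  · rw [if_pos h]
    obtain ⟨k, rfl⟩ := h
    have e1 : (2 * k + 1 + 1) / 2 = k + 1 := by omega
    have e2 : (2 * k + 1) / 2 = k := by omega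
    rw [e1, e2]
    rcases jacobiSym.trichotomy d (2 * k + 1) with h | h | h
    · rw [h]; simp
    · rw [h]; simp
    · rw [h]; simp
  · rw [if_neg h, abs_zero]
    omega

private theorem abs_part (d : ℤ) (N : ℕ) : |∑ n ∈ range N, fc d n| ≤ (N / 2 : ℕ) := by
  induction N with
  | zero => simp
  | succ N ih =>
    rw [Finset.sum_range_succ]
    have h1 := abs_add_le (∑ n ∈ range N, fc d n) (fc d N)
    have h2 := abs_fc d N
    linarith

theorem tPer (h1 : S_Nj) : S_Per := by
  intro d hd a b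
  have hd0 : d ≠ 0 := by
    rintro rfl
    exact hd ⟨0, rfl⟩
  have hpos := Int.natAbs_pos.2 hd0
  have habs : |d| = (d.natAbs : ℤ) := Int.abs_eq_natAbs d
  have key : ∀ N : ℕ, |∑ n ∈ range N, fc d n| ≤ 2 * |d| := by
    intro N
    have hp : Function.Periodic (fun N : ℕ => ∑ n ∈ range N, fc d n) (4 * d.natAbs) :=
      fun N => part_per h1 d hd N
    have h2 := hp.map_mod_nat N
    beta_reduce at h2
    rw [← h2]
    refine (abs_part d _).trans ?_
    have h3 : N % (4 * d.natAbs) < 4 * d.natAbs := Nat.mod_lt _ (by omega)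
    rw [habs]
    have h4 : N % (4 * d.natAbs) / 2 ≤ 2 * d.natAbs := by omega
    exact_mod_cast h4
  rcases Nat.lt_or_ge b a with hab | hab
  · have e : Ioc a b = ∅ := Finset.Ioc_eq_empty (by omega)
    rw [e, Finset.filter_empty, Finset.sum_empty, abs_zero]
    positivity
  · have e1 : ∑ n ∈ (Ioc a b).filter Odd, jacobiSym d n = ∑ n ∈ Ico (a + 1) (b + 1), fc d n := by
      rw [Finset.sum_filter]
      refine Finset.sum_congr ?_ fun n _ => rfl
      ext n
      rw [Finset.mem_Ioc, Finset.mem_Ico]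
      omega
    rw [e1, Finset.sum_Ico_eq_sub _ (by omega)]
    have h3 := key (b + 1)
    have h4 := key (a + 1)
    have h5 := abs_sub (∑ n ∈ range (b + 1), fc d n) (∑ n ∈ range (a + 1), fc d n)
    linarith

end Pool.Agent.Lib.MP_706923_coQ
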