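import Pool.Agent.Lib.MP_706923_coQ.Spec

/-!
# MP_706923_co, package Q: reciprocity
-/

set_option autoImplicit false

namespace Pool.Agent.Lib.MP_706923_coQ

private theorem jac_one {p v : ℕ} (hv : v ≠ 0)
    (h : ∀ q : ℕ, q.Prime → q ∣ v → jacobiSym p q = 1) :
    ∀ w : ℕ, w ∣ v → jacobiSym p w = 1 := by
  intro w
  induction w using induction_on_primes with
  | zero => exact fun h0 => absurd (Nat.eq_zero_of_zero_dvd h0) hv
  | one => exact fun _ => jacobiSym.one_right _
  | prime_mul q a hq ih =>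
    intro hw
    have ha : a ≠ 0 := by
      rintro rfl
      rw [mul_zero] at hw
      exact hv (Nat.eq_zero_of_zero_dvd hw)
    rw [jacobiSym.mul_right' _ hq.ne_zero ha, h q hq (dvd_of_mul_right_dvd hw),
      ih (dvd_of_mul_left_dvd hw), mul_one]

theorem tRec (h1 : S_Leg) : S_Rec := by
  intro l k v p e hl hA hp hlp hodd he1 he3
  have hkl := hA.lt
  have hv0 : v ≠ 0 := by
    rintro rfl
    exact absurd hA.odd (by decide)
  have hpk : p ∣ k - l := by
    rcases hodd with ⟨m, hm⟩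
    exact dvd_of_one_le_padicValNat (by omega)
  have hpl : ¬ p ∣ l := fun h => by
    have := Nat.le_of_dvd (by omega) h
    omega
  have hp' : Fact p.Prime := ⟨hp⟩
  have hk : ((k : ℤ) : ZMod p) = ((l : ℤ) : ZMod p) := by
    have h2 : ((k - l : ℕ) : ZMod p) = 0 := (ZMod.natCast_eq_zero_iff _ _).2 hpk
    rw [Nat.cast_sub hkl.le, sub_eq_zero] at h2
    simpa using h2
  have hl0 : ((l : ℤ) : ZMod p) ≠ 0 := by
    rw [Int.cast_natCast, Ne, ZMod.natCast_eq_zero_iff]
    exact hpl
  have hvl : ((v : ℤ) : ZMod p) = ((l : ℤ) : ZMod p) := by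
    have h2 := congrArg (Int.cast : ℤ → ZMod p) hA.eq
    push_cast at h2 hk hl0 ⊢
    rw [hk] at h2
    apply mul_left_cancel₀ hl0
    rw [← h2]
    ring
  have hpv : ¬ p ∣ v := by
    intro h
    apply hl0
    rw [← hvl, Int.cast_natCast, ZMod.natCast_eq_zero_iff]
    exact h
  have hpo : Odd p := hp.odd_of_ne_two (by omega)
  have hJ : jacobiSym p v = 1 := by
    refine jac_one hv0 (fun q hq hqv => ?_) v dvd_rfl
    refine h1 l k v p q hA hp hq hqv ?_ hodd
    rintro rfl
    exact hpv hqv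
  have hJl : jacobiSym l p = jacobiSym v p := by
    apply jacobiSym.mod_left'
    have h2 := (ZMod.intCast_eq_intCast_iff _ _ _).1 hvl
    exact h2.symm
  have hv4 : v % 4 = 1 ∨ v % 4 = 3 := by
    have := Nat.odd_iff.1 hA.odd
    omega
  rcases hv4 with h4 | h4
  · rw [he1 h4, one_mul, hJl, jacobiSym.quadratic_reciprocity_one_mod_four h4 hpo, hJ]
  · have hp4 : p % 4 = 1 ∨ p % 4 = 3 := by
      have := Nat.odd_iff.1 hpo
      omega
    rw [he3 h4, jacobiSym.mul_left, jacobiSym.at_neg_one hpo, hJl]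
    rcases hp4 with h5 | h5
    · rw [ZMod.χ₄_nat_one_mod_four h5, ← jacobiSym.quadratic_reciprocity_one_mod_four h5 hA.odd, hJ,
        one_mul]
    · rw [ZMod.χ₄_nat_three_mod_four h5, jacobiSym.quadratic_reciprocity_three_mod_four h4 h5, hJ]
      norm_num

end Pool.Agent.Lib.MP_706923_coQ
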