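import Pool.Agent.Lib.MP_706923_coQ.Spec

/-! The roots of `X² - X + l` modulo a prime `q` for which `1 - 4l` is a nonzero square. -/

set_option autoImplicit false

namespace Pool.Agent.Lib.MP_706923_coQ

open Finset Pool.Agent.Lib.MP_706923_co

private theorem mem_rts {l q r : ℕ} :
    r ∈ rts l q ↔ r < q ∧ ((r : ZMod q) ^ 2 - r + l = 0) := by
  unfold rts
  rw [Finset.mem_filter, Finset.mem_range, ← ZMod.intCast_zmod_eq_zero_iff_dvd]
  push_cast
  rfl

theorem tRoots : S_Roots := by
  intro l q hl hq hlq h1
  have hF : Fact q.Prime := ⟨hq⟩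
  have h2 : (2 : ZMod q) ≠ 0 := by
    intro h
    have h3 : (q : ℕ) ∣ 2 := by
      rw [← ZMod.natCast_eq_zero_iff]
      exact_mod_cast h
    have := Nat.le_of_dvd (by norm_num) h3
    omega
  rw [← jacobiSym.legendreSym.to_jacobiSym] at h1
  have ha0 : ((1 - 4 * (l : ℤ) : ℤ) : ZMod q) ≠ 0 := by
    intro h
    rw [← legendreSym.eq_zero_iff] at h
    rw [h] at h1
    exact absurd h1 (by norm_num)
  obtain ⟨s, hs⟩ := (legendreSym.eq_one_iff q ha0).1 h1
  have hs' : s * s = 1 - 4 * (l : ZMod q) := by
    rw [← hs]
    push_cast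
    ring
  have hs0 : s ≠ 0 := by
    intro h
    rw [h, mul_zero] at hs
    exact ha0 hs
  have hroot : ∀ x : ZMod q, x ^ 2 - x + l = 0 ↔ x = (1 + s) / 2 ∨ x = (1 - s) / 2 := by
    intro x
    have e : 4 * (x ^ 2 - x + l) = (2 * x - 1 - s) * (2 * x - 1 + s) := by
      linear_combination hs'
    have h4 : (4 : ZMod q) ≠ 0 := by
      have : (4 : ZMod q) = 2 * 2 := by norm_num
      rw [this]
      exact mul_ne_zero h2 h2
    constructor
    · intro h
      rw [h, mul_zero] at e
      rcases mul_eq_zero.1 e.symm with h5 | h5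
      · left
        rw [eq_div_iff h2]
        linear_combination h5
      · right
        rw [eq_div_iff h2]
        linear_combination h5
    · intro h
      have h5 : (2 * x - 1 - s) * (2 * x - 1 + s) = 0 := by
        rcases h with h | h
        · rw [eq_div_iff h2] at h
          have : 2 * x - 1 - s = 0 := by linear_combination h
          rw [this, zero_mul]
        · rw [eq_div_iff h2] at h
          have : 2 * x - 1 + s = 0 := by linear_combination h
          rw [this, mul_zero]
      rw [h5] at e
      exact (mul_eq_zero.1 e).resolve_left h4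
  have hr1 : (((1 + s) / 2).val : ZMod q) = (1 + s) / 2 := ZMod.natCast_zmod_val _
  have hr2 : (((1 - s) / 2).val : ZMod q) = (1 - s) / 2 := ZMod.natCast_zmod_val _
  have hm1 : ((1 + s) / 2).val ∈ rts l q := by
    rw [mem_rts, hr1]
    exact ⟨ZMod.val_lt _, (hroot _).2 (Or.inl rfl)⟩
  have hm2 : ((1 - s) / 2).val ∈ rts l q := by
    rw [mem_rts, hr2]
    exact ⟨ZMod.val_lt _, (hroot _).2 (Or.inr rfl)⟩
  have hne : ((1 + s) / 2).val ≠ ((1 - s) / 2).val := by
    intro h
    have h3 : (1 + s) / 2 = (1 - s) / 2 := ZMod.val_injective q h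
    rw [div_eq_div_iff h2 h2] at h3
    have h4 : 2 * 2 * s = 0 := by linear_combination h3
    rcases mul_eq_zero.1 h4 with h5 | h5
    · exact (mul_ne_zero h2 h2) h5
    · exact hs0 h5
  constructor
  · have : rts l q = {((1 + s) / 2).val, ((1 - s) / 2).val} := by
      ext r
      rw [Finset.mem_insert, Finset.mem_singleton]
      constructor
      · intro h
        rw [mem_rts] at h
        rcases (hroot _).1 h.2 with h5 | h5
        · left
          rw [← h5, ZMod.val_natCast_of_lt h.1]
        · right
          rw [← h5, ZMod.val_natCast_of_lt h.1]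
      · rintro (h | h)
        · rw [h]; exact hm1
        · rw [h]; exact hm2
    rw [this, Finset.card_pair hne]
  · intro hlm b hb
    have hbq : jacobiSym b q ^ 2 = 1 := by
      rw [← jacobiSym.legendreSym.to_jacobiSym]
      refine legendreSym.sq_one q ?_
      rw [Int.cast_natCast]
      intro h
      exact hb ((ZMod.natCast_eq_zero_iff b q).1 h)
    have hprod : jacobiSym ((((1 + s) / 2).val : ℤ) * b) q *
        jacobiSym ((((1 - s) / 2).val : ℤ) * b) q = -1 := by
      rw [jacobiSym.mul_left, jacobiSym.mul_left]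
      have e1 : jacobiSym (((1 + s) / 2).val : ℤ) q * jacobiSym (((1 - s) / 2).val : ℤ) q =
          jacobiSym l q := by
        rw [← jacobiSym.mul_left]
        rw [← jacobiSym.legendreSym.to_jacobiSym, ← jacobiSym.legendreSym.to_jacobiSym]
        unfold legendreSym
        congr 1
        push_cast
        rw [hr1, hr2, div_mul_div_comm, div_eq_iff (mul_ne_zero h2 h2)]
        linear_combination -hs'
      calc jacobiSym (((1 + s) / 2).val : ℤ) q * jacobiSym b q *
            (jacobiSym (((1 - s) / 2).val : ℤ) q * jacobiSym b q)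
          = (jacobiSym (((1 + s) / 2).val : ℤ) q * jacobiSym (((1 - s) / 2).val : ℤ) q) *
            jacobiSym b q ^ 2 := by ring
        _ = -1 := by rw [e1, hlm, hbq]; norm_num
    rcases jacobiSym.trichotomy ((((1 + s) / 2).val : ℤ) * b) q with h | h | h
    · rw [h, zero_mul] at hprod
      exact absurd hprod (by norm_num)
    · rw [h, one_mul] at hprod
      exact ⟨_, hm2, hprod⟩
    · exact ⟨_, hm1, h⟩

end Pool.Agent.Lib.MP_706923_coQ
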