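import Pool.Agent.Lib.MP_706923_coQ.Spec

/-!
# MP_706923_co, package Q: the root of a divisor `q ≡ 1 mod 4` of `v`
-/

set_option autoImplicit false

namespace Pool.Agent.Lib.MP_706923_coQ

/-- a product of elements of odd order has odd order -/
private theorem oddPow (q : ℕ) (n : ℕ) : n ≠ 0 →
    (∀ p : ℕ, p.Prime → p ∣ n → Odd (orderOf ((p : ℕ) : ZMod q))) →
    ∃ m : ℕ, Odd m ∧ ((n : ℕ) : ZMod q) ^ m = 1 := by
  induction n using Nat.recOnMul with
  | zero => exact fun h => absurd rfl h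
  | one => exact fun _ _ => ⟨1, odd_one, by simp⟩
  | prime p hp => exact fun _ h => ⟨_, h p hp dvd_rfl, pow_orderOf_eq_one _⟩
  | mul a b iha ihb =>
    intro h0 h
    obtain ⟨ha0, hb0⟩ := mul_ne_zero_iff.1 h0
    obtain ⟨m, hm, hm1⟩ := iha ha0 fun p hp hd => h p hp (dvd_mul_of_dvd_left hd b)
    obtain ⟨m', hm', hm1'⟩ := ihb hb0 fun p hp hd => h p hp (dvd_mul_of_dvd_right hd a)
    refine ⟨m * m', hm.mul hm', ?_⟩
    rw [Nat.cast_mul, mul_pow, pow_mul, hm1, one_pow, one_mul, mul_comm m m', pow_mul, hm1',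
      one_pow]

theorem tRt : S_Rt := by
  intro l k v a b q hl hadm hkl hsq hq hq4 hqv hql
  haveI : Fact q.Prime := ⟨hq⟩
  have hlt := hadm.lt
  -- the equations in the field
  have hV : ((v : ℕ) : ZMod q) = 0 := (ZMod.natCast_eq_zero_iff v q).2 hqv
  have hL : ((l : ℕ) : ZMod q) ≠ 0 := fun h => hql ((ZMod.natCast_eq_zero_iff l q).1 h)
  have h1 : ((k : ℕ) : ZMod q) ^ 2 - (k : ℕ) + (l : ℕ) = 0 := by
    have h := congrArg (fun x : ℤ => (x : ZMod q)) hadm.eq
    push_cast at h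
    rw [h, hV, mul_zero]
  have hk : k = l + a * b ^ 2 := by omega
  have h2 : ((k : ℕ) : ZMod q) = (l : ℕ) + (a : ℕ) * (b : ℕ) ^ 2 := by
    conv_lhs => rw [hk]
    push_cast
    ring
  have h3 : ((k : ℕ) : ZMod q) ^ 2 = (a : ℕ) * (b : ℕ) ^ 2 := by
    linear_combination h1 + h2
  have hK : ((k : ℕ) : ZMod q) ≠ 0 := by
    intro h
    apply hL
    rw [h] at h1
    linear_combination h1
  have hAB : ((a : ℕ) : ZMod q) * (b : ℕ) ^ 2 ≠ 0 := by
    rw [← h3]
    exact pow_ne_zero 2 hK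
  have hA : ((a : ℕ) : ZMod q) ≠ 0 := left_ne_zero_of_mul hAB
  have hB : ((b : ℕ) : ZMod q) ≠ 0 := fun h => right_ne_zero_of_mul hAB (by rw [h]; ring)
  have ha0 : a ≠ 0 := fun h => hA (by rw [h, Nat.cast_zero])
  have hb0 : b ≠ 0 := fun h => hB (by rw [h, Nat.cast_zero])
  -- the order of `a` is odd
  obtain ⟨m, hm, hm1⟩ := oddPow q a ha0 (by
    intro p hp hpa
    haveI : Fact p.Prime := ⟨hp⟩
    have hpq : p ≠ q := by
      rintro rfl
      exact hA ((ZMod.natCast_eq_zero_iff a p).2 hpa)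
    refine hadm.ord p q hp hq hqv hpq ?_
    rw [hkl, padicValNat.mul ha0 (pow_ne_zero 2 hb0), padicValNat.pow]
    have hp1 : padicValNat p a = 1 := by
      apply le_antisymm
      · by_contra hlt2
        push Not at hlt2
        have h4 : p ^ 2 ∣ a := (padicValNat_dvd_iff_le ha0).2 hlt2
        rw [sq] at h4
        exact hp.one_lt.ne' (Nat.isUnit_iff.1 (hsq p h4))
      · exact one_le_padicValNat_of_dvd ha0 hpa
    rw [hp1, add_comm]
    exact Even.add_one (even_two_mul _))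
  -- the root `y`
  set y : ZMod q := (k : ℕ) / (b : ℕ) with hy
  have hy0 : y ≠ 0 := div_ne_zero hK hB
  have hy2 : y ^ 2 = (a : ℕ) := by
    rw [hy, div_pow, h3, mul_div_assoc, div_self (pow_ne_zero 2 hB), mul_one]
  obtain ⟨t, ht⟩ : ∃ t, q = 4 * t + 1 := ⟨q / 4, by omega⟩
  have hq2 : q / 2 = 2 * t := by omega
  have hs2 : (y ^ (2 * t)) ^ 2 = 1 := by
    rw [← pow_mul]
    have h5 : 2 * t * 2 = q - 1 := by omega
    rw [h5]
    exact ZMod.pow_card_sub_one_eq_one hy0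
  have hsm : (y ^ (2 * t)) ^ m = 1 := by
    rw [← pow_mul, show 2 * t * m = 2 * m * t by ring, pow_mul, pow_mul, hy2, hm1, one_pow]
  have hs : y ^ (2 * t) = 1 := by
    rcases sq_eq_one_iff.mp hs2 with h | h
    · exact h
    · exfalso
      rw [h, hm.neg_one_pow] at hsm
      have h6 : (2 : ZMod q) = 0 := by linear_combination -hsm
      have h7 : ((2 : ℕ) : ZMod q) = 0 := by exact_mod_cast h6
      have h8 := (ZMod.natCast_eq_zero_iff 2 q).1 h7
      have h9 := Nat.le_of_dvd (by norm_num) h8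
      have h10 := hq.two_le
      omega
  have hsqy : IsSquare y := (ZMod.euler_criterion q hy0).2 (by rw [hq2]; exact hs)
  rw [← jacobiSym.legendreSym.to_jacobiSym]
  have hkb : (((k : ℤ) * (b : ℤ) : ℤ) : ZMod q) = y * (b : ℕ) ^ 2 := by
    push_cast
    rw [hy]
    field_simp
  rw [legendreSym.eq_one_iff q (by
    rw [hkb]
    exact mul_ne_zero hy0 (pow_ne_zero 2 hB)), hkb]
  exact hsqy.mul (IsSquare.sq _)

end Pool.Agent.Lib.MP_706923_coQ
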