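import Pool.Agent.Lib.MP_706923_co.Dens
import Pool.Agent.Lib.MP_706923_co.MannG
import Pool.Agent.Lib.MP_706923_co.Schutz
import Pool.Agent.Lib.MP_9f2731_nt.Sieve

/-!
# MP_706923_co, quantitative sparse theorem (package Q)

THEOREM.  For `l ≥ 1` let `N(x)` be the number of the `k ≤ x` such that some finite group (abelian or
not) has a `(v,k,l)` difference set.  Then `N(x) ≤ C x / (log x)^(1-ε)`, and if `l` is not a square,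
`N(x) ≤ C x / (log x)^(9/8-ε)`.

Proof.  `n = k - l`, `l v = k^2 - k + l`.  If `v` is even then `n` is a square.  Let `v` be odd.
(F1) `q ∣ v`, `p` a prime with odd exponent in `n`: the order of `p` mod `q` is odd (Mann), so `(p/q) = 1`.
(F2) so `(p/v) = 1`, and by reciprocity `(e l/p) = 1` with `e = ± 1`, `e ≡ v mod 4`.
(F3) `n = a b^2`, `a` squarefree, `q ∣ v`, `q ≡ 1 mod 4`: `a` has odd order mod `q` and `n ≡ k^2`, so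
`(k b/q) = 1`.  If `(l/q) = -1` this excludes one of the two roots of `X^2 - X + l` mod `q`.
(F4) if `p` has odd exponent in `n` and `(p/q) = -1` then `q ∤ v`: both roots are excluded.
Fix `b` and the `R` smallest primes `p_1 < … < p_R` in `(2^W, 2^J]` which divide `n` (or all of them, if there
are less than `R`), `k = l + M t`, `M = b^2 ∏ p_i`, and sieve `t` by the arithmetical large sieve.  The
excluded classes: `t ≡ 0` mod all `p < P = p_R` and mod all `p` with `(e l/p) = -1`, one root for (F3), two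
roots for (F4).  The prime sums which are needed are Mertens sums with the fixed characters `(e l/·)` etc., and
for (F4) with the characters `(d/·)`, `d` a product of some `p_i`; for these we do not use zero free regions:
for every dyadic block `j` there are at most `C j` numbers `d ≤ 2^(j/3)` for which the sum over the primes of
the block is larger than `η/j` (Cauchy-Schwarz over all odd integers of the block), and the `k` such that `n` is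
divisible by a bad `d > 2^W` can be discarded (`2^W ≥ (log x)^4`).

RULES.  Every `S_X` is proved in its own file `Pool/Agent/Lib/MP_706923_coQ/X.lean`: `import
Pool.Agent.Lib.MP_706923_coQ.Spec` (and the files named in the docstring), `set_option autoImplicit false`,
`namespace Pool.Agent.Lib.MP_706923_coQ`, `theorem tX (h1 : S_A) (h2 : S_B) … : S_X` where `S_A`, … are the statements
named after `uses` (in this order); all other declarations private.  The docstrings contain the proofs.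
-/

set_option autoImplicit false

namespace Pool.Agent.Lib.MP_706923_coQ

open Finset Pool.Agent.Lib.MP_706923_co

/-! ## Part 1: difference sets -/

/-- What is used of a `(v,k,l)` difference set with `v` odd. -/
structure Adm (l k v : ℕ) : Prop where
  lt : l < k
  eq : (k : ℤ) ^ 2 - k + l = l * v
  odd : Odd v
  ord : ∀ p q : ℕ, p.Prime → q.Prime → q ∣ v → p ≠ q → Odd (padicValNat p (k - l)) →
    Odd (orderOf ((p : ℕ) : ZMod q))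

/-- (80 lines) Proof.  `G`, `D` as in `IsK`, `v = card G`: `ds_identity` (`Dens.lean`).  If `v` is even: `schutz`
(`Schutz.lean`).  Let `v` be odd, `q ∣ v`, `p ≠ q`.  `q` is odd, `x = (p : ZMod q) ≠ 0` has positive order.  If
the order is even, `2 j`, then `x^j ≠ 1`, `(x^j)^2 = 1`, so `x^j = -1` and `q ∣ p^j + 1`; by `mann` (`MannG.lean`; `D.card = k ≠ l`)
`padicValInt p (k - l)` is even, and `(k : ℤ) - l = ((k - l : ℕ) : ℤ)` (`padicValInt.of_nat`). -/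
def S_Ds : Prop := ∀ l k : ℕ, 1 ≤ l → l < k → IsK l k →
  (∃ s : ℕ, k = l + s ^ 2) ∨ ∃ v : ℕ, Adm l k v

/-- (60 lines) Proof.  `q` is odd.  `x = (p : ZMod q) ≠ 0` has odd order `o`, so `x = (x^((o+1)/2))^2` is a square
(`legendreSym.eq_one_iff`, `jacobiSym.legendreSym.to_jacobiSym`). -/
def S_Leg : Prop := ∀ l k v p q : ℕ, Adm l k v → p.Prime → q.Prime → q ∣ v → p ≠ q →
  Odd (padicValNat p (k - l)) → jacobiSym p q = 1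

/-- (120 lines; uses `S_Leg`) Proof.  `p` is odd, `p ∤ l`, `p ∣ k - l`.  `l v = k² - k + l ≡ l² mod p`, so `v ≡ l mod p` and
`p ∤ v`.  For every prime `q ∣ v` `(p/q) = 1` (`S_Leg`, `p ≠ q`), so `(p/v) = 1` (induction on the prime factors, `jacobiSym.mul_right`).
`v ≡ 1 mod 4`: `(p/v) = (v/p)` (`jacobiSym.quadratic_reciprocity_one_mod_four`), `(v/p) = (l/p)` (`jacobiSym.mod_left`), so `(l/p) = 1`.
`v ≡ 3 mod 4`: if `p ≡ 1 mod 4` then again `(l/p) = 1` and `(-1/p) = 1`; if `p ≡ 3 mod 4` then `(v/p) = -(p/v) = -1`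
(`jacobiSym.quadratic_reciprocity_three_mod_four`) and `(-1/p) = -1`. -/
def S_Rec : Prop := ∀ (l k v p : ℕ) (e : ℤ), 1 ≤ l → Adm l k v → p.Prime → 2 * l < p →
  Odd (padicValNat p (k - l)) → (v % 4 = 1 → e = 1) → (v % 4 = 3 → e = -1) →
  jacobiSym (e * l) p = 1

/-- (120 lines) Proof.  In the field `ZMod q`: `k² - k + l = l v = 0`, so `a b² = k - l = k²`; `k ≠ 0` (else `l = 0`), so `a ≠ 0`,
`b ≠ 0`.  For a prime `p ∣ a` the exponent of `p` in `k - l = a b²` is `1 + 2 v_p(b)`, odd, and `p ≠ q` (`q ∤ a`), so `p` has odd order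
(`Adm.ord`).  `a` is the product of its prime factors, so `a^m = 1` with `m` odd (the product of the orders).  `y = k/b`:
`y² = a`, so `y^(2m) = 1`.  `s = y^((q-1)/2)` is `1` or `-1`, and `s^m = (y^(2m))^((q-1)/4) = 1` with `m` odd, so `s = 1` (`-1 ≠ 1`).  So `y` is a
square (`ZMod.euler_criterion`), and `k b = y b²` is a nonzero square. -/
def S_Rt : Prop := ∀ l k v a b q : ℕ, 1 ≤ l → Adm l k v → k - l = a * b ^ 2 → Squarefree a →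
  q.Prime → q % 4 = 1 → q ∣ v → ¬ q ∣ l → jacobiSym (k * b) q = 1

/-- The roots of `X² - X + l` mod `q`. -/
def rts (l q : ℕ) : Finset ℕ := (range q).filter fun r => (q : ℤ) ∣ (r : ℤ) ^ 2 - r + l

/-- (120 lines) Proof.  `q` is odd, `q ∤ 4 l - 1` (as `0 < 4 l - 1 < q`), `s² = 1 - 4 l` in `ZMod q`, `s ≠ 0`.  The roots are
`(1 + s)/2`, `(1 - s)/2` (different), their product is `l`.  For `(l/q) = -1`, `q ∤ b`: `(r₁ b/q) (r₂ b/q) = (l b²/q) = -1`. -/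
def S_Roots : Prop := ∀ l q : ℕ, 1 ≤ l → q.Prime → 4 * l < q → jacobiSym (1 - 4 * l) q = 1 →
  (rts l q).card = 2 ∧ (jacobiSym l q = -1 → ∀ b : ℕ, ¬ q ∣ b →
    ∃ r ∈ rts l q, jacobiSym (r * b) q = -1)

/-- `1` if `q` cannot divide `n`. -/
def c0 (l : ℕ) (e : ℤ) (P q : ℕ) : ℕ := if q < P ∨ jacobiSym (e * l) q = -1 then 1 else 0

/-- The number of the excluded roots mod `q`. -/
def c1 (l : ℕ) (S : Finset ℕ) (q : ℕ) : ℕ :=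
  if jacobiSym (1 - 4 * l) q = 1 ∧ (∃ p ∈ S, jacobiSym p q = -1) then 2
  else if q % 4 = 1 ∧ jacobiSym (1 - 4 * l) q = 1 ∧ jacobiSym l q = -1 then 1 else 0

/-- (200 lines; uses `S_Leg`, `S_Rec`, `S_Rt`, `S_Roots`) **The excluded classes mod `q`.**

Proof.  Let `E` be the set of the excluded roots: `rts l q` in the first case of `c1`, `{r}` with `r ∈ rts l q`, `(r b/q) = -1`
(`S_Roots`) in the second case, `∅` otherwise; `E.card = c1`.  `Ω` = the `t < q` with `q ∣ M t - (r - l)` for some `r ∈ E` (one `t`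
for every `r`, as `q ∤ M`, different for different `r`; `t ≠ 0` since `r - l ≡ r² ≢ 0`, as `q ∤ l`), and `0` if `c0 = 1`.
Let `k = l + M t` be as in the statement; note `k - l = M t` and `l v = k² - k + l`.  If `t ≡ 0 mod q` and `c0 = 1`: `q ∣ M t`, so `q < P` is
impossible, so `(e l/q) = -1`; the exponent of `q` in `M t` is `1` (`M t > 0` as `l < k`; `q² ∤ M t`), `S_Rec` (`2 l < q`) gives `(e l/q) = 1`.
If `t` mod `q` is the class of `r ∈ E`: `k ≡ r`, so `q ∣ k² - k + l = l v`, `q ∣ v`.  First case: `p ∈ S` with `(p/q) = -1`, against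
`S_Leg`.  Second case: `(k b/q) = (r b/q) = -1` against `S_Rt`. -/
def S_Om : Prop := ∀ (l b M q P : ℕ) (e : ℤ) (S : Finset ℕ), 1 ≤ l → q.Prime → 4 * l + 6 ≤ q →
  ¬ q ∣ M → ¬ q ∣ b → (∀ p ∈ S, p.Prime ∧ p ≠ q) →
  ∃ Ω : Finset ℕ, Ω ⊆ range q ∧ Ω.card = c0 l e P q + c1 l S q ∧
    ∀ t v : ℕ, Adm l (l + M * t) v → (v % 4 = 1 → e = 1) → (v % 4 = 3 → e = -1) →
      (∃ a, Squarefree a ∧ M * t = a * b ^ 2) → (∀ p ∈ S, Odd (padicValNat p (M * t))) →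
      ¬ q ^ 2 ∣ M * t → (q < P → ¬ q ∣ M * t) → t % q ∉ Ω

/-! ## Part 2: characters -/

/-- (100 lines) Proof.  `d = σ 2^f m`, `σ = ± 1`, `m` odd, positive (`d ≠ 0`, as `0` is a square).
(A) `m` is not a square: by `jac` (`Pool/Agent/Lib/MP_706923_co/Jac.lean`, `theorem jac : S_Jac`, may be imported) there is `u` coprime to `m` with
`(u/m) = -1`; choose `b ≡ 1 mod 8`, `b ≡ u mod m`, `b > 0`: `(-1/b) = (2/b) = 1`, `(m/b) = (b/m) = (u/m) = -1`.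
(B) `m` is a square: `(m/b) = 1` if `b` is coprime to `m`.  If `f` is even then `σ = -1` (`d` is not a square), `b = 4 m - 1 ≡ 3 mod 4`:
`(d/b) = (-1/b) = -1`.  If `f` is odd: `b ≡ 5 mod 8`, `b ≡ 1 mod m`, `(-1/b) = 1`, `(2/b) = -1`. -/
def S_Nj : Prop := ∀ d : ℤ, ¬ IsSquare d → ∃ b : ℕ, Odd b ∧ jacobiSym d b = -1

/-- (120 lines; uses `S_Nj`) Proof.  `Q = 4 |d| > 0`, `f n = (d/n)` for odd `n`, `0` for even `n`; `f (n + Q) = f n` (`jacobiSym.mod_right`).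
`Z = ∑_{n < Q} f n = 0`: for `b` from `S_Nj` `gcd(b, Q) = 1`, `n ↦ b n mod Q` permutes `range Q` and keeps the parity, and
`f (b n mod Q) = f (b n) = - f n` (`jacobiSym.mul_right`).  So `∑_{n < N} f n = ∑_{n < N mod Q} f n`, of absolute value at most the
number of the odd `n < N mod Q`, `≤ Q/2`.  The sum over `Ioc a b` is the difference of two such sums. -/
def S_Per : Prop := ∀ d : ℤ, ¬ IsSquare d → ∀ a b : ℕ,
  |∑ n ∈ (Ioc a b).filter Odd, jacobiSym d n| ≤ 4 * |d|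

/-- (60 lines; `tMrt : MrtStmt` of `Pool/Agent/Lib/SG/Mrt.lean`, import it) **Mertens.**  Proof.  `MrtStmt` with `x = 2^i`, `y = 2^j`:
`log (log y / log x) = log (j/i)`, and the error is `C / (i log 2)`. -/
def S_Mr : Prop := ∃ C : ℝ, 0 < C ∧ ∀ i j : ℕ, 1 ≤ i → i ≤ j →
  |∑ p ∈ (Ioc (2 ^ i) (2 ^ j)).filter Nat.Prime, (1 : ℝ) / p - Real.log ((j : ℝ) / i)| ≤ C / i

/-- (200 lines; uses `S_Nj`; import `Pool/Agent/Lib/BV/All.lean` (`aSw : SwStmt`) and `Pool/Agent/Lib/BV/Lsw.lean`, `Lpc.lean` (`tLsw`,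
`tLpc`)) **Mertens sums of a fixed quadratic character are bounded.**

Proof.  `Q = 4 |d|`.  There is a Dirichlet character `χ` mod `Q` with `χ n = (d/n)` for all odd `n` (`MulChar.ofUnitHom`: the value at the unit
`u` is `(d/u.val) = ± 1`; units have odd `val` coprime to `d`; multiplicative by `jacobiSym.mul_right`, `jacobiSym.mod_right`; for odd `n` not
coprime to `d` both sides are `0`).  `χ ≠ 1` by `S_Nj`, so its conductor is `> 1`.  `LswStmt` with `A = 2`, `B = 1` and, for `P = 2^j`,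
`x = exp ((log P)²)`: for `j ≥ j₁` and `P ≤ u ≤ 2P` the sum of `χ(p)` over the primes of `(P, u]` is at most `C P / (log P)^4`.  By partial
summation the sum of `χ(p)/p` over the primes of `(2^j, 2^(j+1)]` is at most `2 C / (log P)^4 ≤ C'/j²` (`j ≥ j₁`), for `j < j₁` at most `1`
(trivial bound: `2^j` terms `≤ 2^(-j)`).  Sum over the blocks. -/
def S_Mj : Prop := ∀ d : ℤ, ¬ IsSquare d → ∃ C : ℝ, 0 < C ∧ ∀ i j : ℕ, 1 ≤ i → i ≤ j →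
  |∑ q ∈ (Ioc (2 ^ i) (2 ^ j)).filter Nat.Prime, (jacobiSym d q : ℝ) / q| ≤ C

/-- The sum of `(c d/q)/q` over the primes `q` of the dyadic block `j`. -/
noncomputable def bs (c : ℤ) (d j : ℕ) : ℝ :=
  ∑ q ∈ (Ioc (2 ^ j) (2 ^ (j + 1))).filter Nat.Prime, (jacobiSym (c * d) q : ℝ) / q

/-- (200 lines; uses `S_Per`, `S_Mr`) **Few bad conductors.**

Proof.  By `S_Mr` (`log (1 + 1/j) ≤ 1/j`) `∑ 1/q ≤ C₁/j` over the primes `q` of the block.  Let `F' ⊆ F`, `m = #F'`, `m³ ≤ 2^j`; let `σ_d = ± 1` be the sign of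
`S_d = ∑_q ψ(q) (d/q)/q` and `A(n) = ∑_{d ∈ F'} σ_d (d/n)`.  Then `m η/j ≤ ∑_{d ∈ F'} |S_d| = ∑_q (ψ(q)/q) A(q)`, so by Cauchy-Schwarz
`(m η/j)² ≤ (∑_q 1/q) (∑_q A(q)²/q) ≤ (C₁/j) 2^(-j) ∑ A(n)²`, the last sum over all odd `n ∈ (2^j, 2^(j+1)]`.  It is
`∑_{d,d'} σ_d σ_d' ∑_n (d d'/n)` (`jacobiSym.mul_left`).  `d = d'`: at most `2^j` each.  `d ≠ d'`: `d d'` is not a square (squarefree numbers), `S_Per`:
at most `4 d d'`, and `m d d' ≤ 2^j` (cubes).  Total `≤ m 2^j + m² 4 d d' ≤ 5 m 2^j` (with the maximum of `d d'`).  So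
`m ≤ 5 C₁ j/η² =: B_j`.  If `#F > B_j` then for `j ≥ j₀` (`(B_j + 1)³ ≤ 2^j`) there is `F' ⊆ F` with `⌊B_j⌋ + 1` elements
(`Finset.exists_subset_card_eq`), a contradiction.  So `C = 5 C₁/η²`. -/
def S_Bad : Prop := ∀ η : ℝ, 0 < η → ∃ (C : ℝ) (j₀ : ℕ), 0 < C ∧ ∀ (j : ℕ) (ψ : ℕ → ℝ) (F : Finset ℕ),
  j₀ ≤ j → (∀ q, |ψ q| ≤ 1) →
  (∀ d ∈ F, Odd d ∧ Squarefree d ∧ d ^ 3 ≤ 2 ^ j ∧
    η / j < |∑ q ∈ (Ioc (2 ^ j) (2 ^ (j + 1))).filter Nat.Prime, ψ q * (jacobiSym d q : ℝ) / q|) →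
  (F.card : ℝ) ≤ C * j

/-! ## Part 3: the sieve -/

/-- (200 lines; `arith_ls` of `Lib/MP_9f2731_nt/Sieve.lean`, `sum_inv_primes_le` of `Lib/MP_aa9ae4_nt/Mertens.lean`) **Sieve.**

Proof.  `c q = #Ω q`, `h q = c q / q ≤ 1/2`, `r = ⌊√X⌋`, `𝒟` = the `D ⊆ T` with `∏ D ≤ r`.  `arith_ls` (`N = X`, `R = r`):
`#S ∑_{D ∈ 𝒟} ∏_{q ∈ D} hw Ω q ≤ 20 (X + r²) ≤ 40 X`, `hw Ω q = c q/(q - c q) ≥ h q`.  `∑_{D ⊆ T} ∏ h q = ∏_{q ∈ T} (1 + h q) =: Π`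
(`Finset.prod_one_add`/`Finset.prod_add_one`).  Rankin: with `s = 1/(J log 2)`, `q^s ≤ e` for `q ≤ 2^J`:
`∑_{D ⊆ T, ∏ D > r} ∏ h q ≤ (r+1)^(-s) ∏_{q ∈ T} (1 + e h q) ≤ (r+1)^(-s) exp (9 ∑_{q ≤ 2^J} 1/q) ≤ (r+1)^(-s) exp (9 log J + C₁)` (`3 e ≤ 9`), and
`s log (r+1) ≥ s (log X)/2 ≥ (A/2) (1 + log J) ≥ 9 log J + C₁ + 1` if `A` is large (`log 2 ≤ 1`), so this is `≤ 1/2 ≤ Π/2`.  So
`#S Π/2 ≤ 40 X`.  `1 + u ≥ exp (u - u²)` for `0 ≤ u ≤ 1/2`, and `∑ h² ≤ 9 ∑_{q ≥ 6} 1/q² ≤ 2`, so `Π ≥ e^(-2) exp (∑ h)`. -/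
def S_Sv : Prop := ∃ A : ℝ, 0 < A ∧ ∀ (X J : ℕ) (T S : Finset ℕ) (Ω : ℕ → Finset ℕ), 1 ≤ J →
  1 ≤ X → A * J * (1 + Real.log J) ≤ Real.log X → (∀ q ∈ T, q.Prime ∧ 6 ≤ q ∧ q ≤ 2 ^ J) →
  (∀ q ∈ T, Ω q ⊆ range q ∧ 1 ≤ (Ω q).card ∧ (Ω q).card ≤ 3) →
  (∀ n ∈ S, n < X ∧ ∀ q ∈ T, n % q ∉ Ω q) →
  (S.card : ℝ) ≤ A * X * Real.exp (-∑ q ∈ T, ((Ω q).card : ℝ) / q)

/-- The primes of `(2^W, 2^J]` not in `S`. -/
def prs (W J : ℕ) (S : Finset ℕ) : Finset ℕ :=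
  (Ioc (2 ^ W) (2 ^ J)).filter fun q => q.Prime ∧ q ∉ S

/-- (200 lines; uses `S_Om`, `S_Sv`) **The number of the `k` for given `b`, `S`, `P`, `e`.**

Proof.  `M = b² ∏ S`.  For `k ∈ K`: `k - l = a b²`; `p ∈ S` divides `k - l` and not `b` (`p > 2^W ≥ b ≥ 1`), so `p ∣ a`, so `∏ S ∣ a`
(distinct primes, `Finset.prod_primes_dvd`), `M ∣ k - l`, `k = l + M t`, `t = (k - l)/M ≤ x/M`.  Let `X = ⌊x/M⌋ + 1`; `M ≤ M² ≤ x`,
`X ≤ 2x/M`, `log X ≥ log (x/M) ≥ (log x)/2`.  `T` = the `q ∈ prs W J S` with `c0 + c1 ≥ 1`; `q ∤ M`, `q ∤ b` (`q > 2^W ≥ b`, `q ∉ S`), so `S_Om`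
gives `Ω q` (`choose`), `c0 + c1 ≤ 3`.  The `t` satisfy the conditions of `S_Om`: for `p ∈ S` the exponent of `p` in `k - l` is `1`
(`p ∣ k - l`, `p² ∤ k - l` as `p > 2^W`), `q² ∤ k - l`, and the last condition.  Apply `S_Sv` to the set of the `t` (`k ↦ t` is injective).  The
`q ∉ T` contribute `0` to the sum. -/
def S_Cnt : Prop := ∃ A : ℝ, 0 < A ∧ ∀ (l x W J b P : ℕ) (e : ℤ) (S K : Finset ℕ), 1 ≤ l → 1 ≤ J →
  4 * l + 6 ≤ 2 ^ W → 1 ≤ b → b ≤ 2 ^ W → (∀ p ∈ S, p.Prime ∧ 2 ^ W < p) →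
  (b ^ 2 * ∏ p ∈ S, p) ^ 2 ≤ x → A * J * (1 + Real.log J) ≤ Real.log x →
  (∀ k ∈ K, k ≤ x ∧ (∃ v, Adm l k v ∧ (v % 4 = 1 → e = 1) ∧ (v % 4 = 3 → e = -1)) ∧
    (∃ a, Squarefree a ∧ k - l = a * b ^ 2) ∧ (∀ p ∈ S, p ∣ k - l) ∧
    (∀ m, 2 ^ W < m → ¬ m ^ 2 ∣ k - l) ∧
    ∀ p : ℕ, p.Prime → 2 ^ W < p → p ≤ 2 ^ J → p < P → p ∉ S → ¬ p ∣ k - l) →
  (K.card : ℝ) ≤ A * (x / ((b : ℝ) ^ 2 * ∏ p ∈ S, (p : ℝ))) *
    Real.exp (-∑ q ∈ prs W J S, ((c0 l e P q + c1 l S q : ℕ) : ℝ) / q)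

/-! ## Part 4: the weights -/

/-- (80 lines; uses `S_Mr`, `S_Mj`) Proof.  `e l` is not a square.  For a prime `q ∤ l` the indicator of `(e l/q) = -1` is
`(1 - (e l/q))/2`; for `q ∣ l` (at most `l` primes, each with `1/q ≤ 1`) the difference is `≤ 1`. -/
def S_FxB : Prop := ∀ l : ℕ, 1 ≤ l → ¬ IsSquare l → ∃ C : ℝ, 0 < C ∧ ∀ (e : ℤ) (i j : ℕ),
  (e = 1 ∨ e = -1) → 1 ≤ i → i ≤ j → Real.log ((j : ℝ) / i) / 2 - C ≤
    ∑ q ∈ (Ioc (2 ^ i) (2 ^ j)).filter (fun q => q.Prime ∧ jacobiSym (e * l) q = -1), (1 : ℝ) / q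

/-- (150 lines; uses `S_Mr`, `S_Mj`) Proof.  For a prime `q > 2`, `q ∤ l (4 l - 1)`, the indicator is
`(1 + (-1/q)) (1 + ((1-4l)/q)) (1 - (l/q)) / 8` (`(-1/q) = 1` iff `q ≡ 1 mod 4`), `= (1/8) (1 + (-1/q) + ((1-4l)/q) - (l/q) + ((4l-1)/q) - (-l/q) - ((1-4l)l/q)
- ((4l-1)l/q))`.  None of `-1`, `1-4l`, `l`, `4l-1` (`≡ 3 mod 4`), `-l`, `(1-4l) l`, `(4l-1) l` (coprime factors, `l` is not a square; `Nat.sq_of_coprime`
or `Int.sq_of_gcd_eq_one`) is a square, so by `S_Mj` all sums but the first are bounded.  The primes `q ∣ l (4l-1)` change the sum by at most a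
constant. -/
def S_FxC : Prop := ∀ l : ℕ, 1 ≤ l → ¬ IsSquare l → ∃ C : ℝ, 0 < C ∧ ∀ i j : ℕ, 1 ≤ i → i ≤ j →
  Real.log ((j : ℝ) / i) / 8 - C ≤
    ∑ q ∈ (Ioc (2 ^ i) (2 ^ j)).filter (fun q => q.Prime ∧ q % 4 = 1 ∧ jacobiSym (1 - 4 * l) q = 1 ∧
      jacobiSym l q = -1), (1 : ℝ) / q

/-- No product of elements of `S` is bad. -/
def Gd (l R : ℕ) (η : ℝ) (J i : ℕ) (S : Finset ℕ) : Prop := ∀ I ⊆ S, I.Nonempty →
  ∀ j : ℕ, 3 * R * i ≤ j → j < J → |bs 1 (∏ p ∈ I, p) j| ≤ η / j ∧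
    |bs (1 - 4 * l) (∏ p ∈ I, p) j| ≤ η / j

/-- (200 lines; uses `S_Mr`, `S_Mj`) Proof.  `a = 3 R i`.  For a prime `q > 2^a` (`≥ 2^i > p` for all `p ∈ S`, `q > 4 l`) `(p/q) = ± 1` for `p ∈ S` and
`s = ((1-4l)/q) = ± 1`, and twice the indicator is `(1 + s) (1 - ∏_{p ∈ S} (1 + (p/q))/2)`, which equals
`(1 - 2^(-R)) (1 + s) - 2^(-R) ∑_{∅ ≠ I ⊆ S} ((∏ I/q) + ((1-4l) ∏ I/q))` (`Finset.prod_one_add`, `jacobiSym.mul_left`).  Divide by `q` and sum over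
`(2^a, 2^J]`: `∑ 1/q ≥ log (J/a) - C₁` (`S_Mr`), `∑ s/q ≥ - C₂` (`S_Mj`, `1 - 4l < 0` is not a square), and for `I ≠ ∅` the sum is a sum of blocks
`a ≤ j < J`, at most `∑ η/j ≤ η (1 + log (J/a))` by `Gd`.  There are `2^R - 1` sets `I`, so the total is at least
`(1 - 2^(-R)) log (J/a) - 2 η (1 + log (J/a)) - C₁ - C₂`. -/
def S_Kil : Prop := ∀ (l R : ℕ) (η : ℝ), 1 ≤ l → 1 ≤ R → 0 < η → ∃ C : ℝ, 0 < C ∧
  ∀ (i J : ℕ) (S : Finset ℕ), 1 ≤ i → 3 * R * i ≤ J → S.card = R →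
  (∀ p ∈ S, p.Prime ∧ 4 * l + 6 ≤ p ∧ p < 2 ^ i) → Gd l R η J i S →
  (1 - (1 / 2 : ℝ) ^ R - 2 * η) * Real.log ((J : ℝ) / ((3 * R * i : ℕ) : ℝ)) - C ≤
    ∑ q ∈ (Ioc (2 ^ (3 * R * i)) (2 ^ J)).filter (fun q => q.Prime ∧ jacobiSym (1 - 4 * l) q = 1 ∧
      ∃ p ∈ S, jacobiSym p q = -1), (2 : ℝ) / q

/-- (250 lines; uses `S_Mr`, `S_FxB`, `S_FxC`, `S_Kil`) **The weight.**

Proof.  Removing the `q ∈ S` changes the sum by at most `3 R / 2^W ≤ 3 R` (`c0 + c1 ≤ 3`), so sum over all primes of `(2^W, 2^J]`.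
Case `S.card < R`, `P = 2^J + 1`: `c0 = 1` for all `q`, sum `≥ log (J/W) - C` (`S_Mr`); if `l` is not a square `c1 ≥ 1` on the set of `S_FxC`
(`i = W`, `j = J`), which adds `(1/8) log (J/W) - C`.
Case `S.card = R`: `i = log2 P + 1`, `2^(i-1) ≤ P < 2^i`, `P ∈ S` (`R ≥ 1`), `2^W < P ≤ 2^J`, so `W + 1 ≤ i ≤ J + 1`; let `δ = 2^(-R) + 2 η`, `λ₁ = log (i/W)`,
`λ₂ = log (J/i)` (`λ₁ ≥ 0`, `λ₁ + λ₂ = log (J/W)`, `λ₂ ≥ -1`).  `c0`: the `q ∈ (2^W, 2^(i-1)]` are `≤ P`, so `< P` or in `S`: sum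
`≥ log ((i-1)/W) - C ≥ λ₁ - C` (`i/(i-1) ≤ 2`).  `c1 = 2` on the set of `S_Kil` (if `3 R i ≤ J`): sum `≥ (1 - δ) log (J/(3 R i)) - C`, which is
`≥ (1 - δ) λ₂ - C'`; if `3 R i > J` then `λ₂ ≤ log (3R)` and the bound `0 ≥ (1 - δ) λ₂ - C'` is trivial (for a suitable `C'`, `|1 - δ| ≤ 1 + 2η`).
First alternative, `e0 ≤ 1 - δ` (so `1 - δ ≥ 0`): total `≥ λ₁ + (1 - δ) λ₂ - C ≥ (1 - δ) (λ₁ + λ₂) - C ≥ e0 log (J/W) - C` (`1 - δ ≤ 1`, `log (J/W) ≥ 0`).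
Second alternative (`l` not a square, `δ ≤ 3/8`, `e0 ≤ 9/8`): in addition `c0 = 1` on the set of `S_FxB` in `(2^i, 2^J]` (if `i ≤ J`): `≥ λ₂/2 - C`, and
`c1 ≥ 1` on the set of `S_FxC` in `(2^W, 2^(i-1)]`: `≥ (1/8) λ₁ - C` (disjoint from the set used for `S_Kil`, as `3 R i ≥ i - 1`; if
`i - 1 = W` the bound is trivial).  Total `≥ (9/8) λ₁ + (3/2 - δ) λ₂ - C ≥ (9/8) (λ₁ + λ₂) - C'` (if `λ₂ < 0` then `λ₂ ≥ -1`). -/
def S_Wt : Prop := ∀ (l R : ℕ) (η e0 : ℝ), 1 ≤ l → 1 ≤ R → 0 < η → 0 ≤ e0 →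
  (e0 ≤ 1 - (1 / 2 : ℝ) ^ R - 2 * η ∨
    (¬ IsSquare l ∧ e0 ≤ 9 / 8 ∧ (1 / 2 : ℝ) ^ R + 2 * η ≤ 3 / 8)) →
  ∃ C : ℝ, 0 < C ∧ ∀ (W J P : ℕ) (e : ℤ) (S : Finset ℕ), 1 ≤ W → W ≤ J → 4 * l + 6 ≤ 2 ^ W →
    (e = 1 ∨ e = -1) → (∀ p ∈ S, p.Prime ∧ 2 ^ W < p ∧ p ≤ 2 ^ J) →
    ((S.card = R ∧ P = S.sup id ∧ Gd l R η J (Nat.log 2 P + 1) S) ∨ (S.card < R ∧ P = 2 ^ J + 1)) →
    e0 * Real.log ((J : ℝ) / W) - C ≤
      ∑ q ∈ prs W J S, ((c0 l e P q + c1 l S q : ℕ) : ℝ) / q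

/-! ## Part 5: covering -/

/-- (60 lines; uses `S_Mr`) Proof.  `T` = the primes of `(2^W, 2^J]`, `σ = ∑_{p ∈ T} 1/p ≤ log (J/W) + C`.  By induction on `R`:
`∑_{S ⊆ T, #S ≤ R} ∏_{p ∈ S} 1/p ≤ (1 + σ)^R`: a nonempty `S` is `insert p S'` with `p ∈ S` (take `p = S.min'`), `S' = S.erase p`, so the sum is at
most `1 + ∑_{p ∈ T} (1/p) (1 + σ)^(R-1) ≤ (1 + σ)^R`. -/
def S_SumS : Prop := ∃ C : ℝ, 0 < C ∧ ∀ W J R : ℕ, 1 ≤ W → W ≤ J →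
  ∑ S ∈ (((Ioc (2 ^ W) (2 ^ J)).filter Nat.Prime).powerset).filter (fun S => S.card ≤ R),
    (1 : ℝ) / ∏ p ∈ S, (p : ℝ) ≤ (C + Real.log ((J : ℝ) / W)) ^ R

open Classical in
/-- (60 lines) Proof.  For every `m > w` at most `x/m²` of the numbers `k - l ∈ [1, x]` are divisible by `m²`, and
`∑_{m > w} 1/m² ≤ 1/w` (`1/m² ≤ 1/(m-1) - 1/m`). -/
def S_Ea : Prop := ∀ l x w : ℕ, 1 ≤ w →
  ((((Icc 1 x).filter fun k => l < k ∧ ∃ m, w < m ∧ m ^ 2 ∣ k - l).card : ℕ) : ℝ) ≤ x / w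

open Classical in
/-- (120 lines; uses `S_Bad`) Proof.  For every `j` with `W ≤ j < J` and `c ∈ {1, 1 - 4l}` the set of the `d` with these properties is finite
(`d³ ≤ 2^j`) and has at most `C₁ j` elements by `S_Bad` with `ψ q = (c/q)` (`jacobiSym.mul_left`; `|(c/q)| ≤ 1`).  A `d > 2^W` divides at most `x/d ≤ x/2^W` of the numbers
`k - l ∈ [1, x]`.  Total `≤ ∑_{j < J} 2 C₁ j x/2^W ≤ 2 C₁ J² x/2^W`. -/
def S_Eb : Prop := ∀ (l : ℕ) (η : ℝ), 1 ≤ l → 0 < η → ∃ (C : ℝ) (j₀ : ℕ), 0 < C ∧ ∀ x W J : ℕ,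
  j₀ ≤ W → W ≤ J →
  ((((Icc 1 x).filter fun k => l < k ∧ ∃ j d : ℕ, W ≤ j ∧ j < J ∧ Odd d ∧ Squarefree d ∧
    2 ^ W < d ∧ d ^ 3 ≤ 2 ^ j ∧ d ∣ k - l ∧ (η / j < |bs 1 d j| ∨ η / j < |bs (1 - 4 * l) d j|)).card
      : ℕ) : ℝ) ≤ C * (J : ℝ) ^ 2 * (x / 2 ^ W)

/-- (80 lines) Proof.  `n = b² a` with `a` squarefree (`Nat.sq_mul_squarefree`), `b ≥ 1`, `b ≤ 2^W` as `b² ∣ n`.  Let `T` be the set of the primes of `(2^W, 2^J]`
which divide `n`.  If `#T < R` let `S = T`.  Otherwise there is `S ⊆ T` with `R` elements which are less than all elements of `T \ S` (the `R` smallest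
elements; induction on `R`: add the minimum of `T \ S`), so a prime `p ∈ (2^W, S.sup id)` with `p ∉ S` is not in `T`. -/
def S_Dec : Prop := ∀ n W J R : ℕ, 1 ≤ n → 1 ≤ R → (∀ m, 2 ^ W < m → ¬ m ^ 2 ∣ n) →
  ∃ (a b : ℕ) (S : Finset ℕ), n = a * b ^ 2 ∧ Squarefree a ∧ 1 ≤ b ∧ b ≤ 2 ^ W ∧
    (∀ p ∈ S, p.Prime ∧ 2 ^ W < p ∧ p ≤ 2 ^ J ∧ p ∣ n) ∧
    ((S.card = R ∧ ∀ p : ℕ, p.Prime → 2 ^ W < p → p < S.sup id → p ∉ S → ¬ p ∣ n) ∨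
      (S.card < R ∧ ∀ p : ℕ, p.Prime → 2 ^ W < p → p ≤ 2 ^ J → p ∉ S → ¬ p ∣ n))

open Classical in
/-- (300 lines; uses `S_Ds`, `S_Cnt`, `S_Wt`, `S_SumS`, `S_Ea`, `S_Eb`, `S_Dec`) **Covering.**

Proof.  The `k` with `IsK l k`, `1 ≤ k ≤ x`, are of the following kinds: `k ≤ l`; `k = l + s²` (at most `√x + 1`); `k` in the set of `S_Ea` with
`w = 2^W`; `k` in the set of `S_Eb` (`= E`); and the other ones.  For these let `v` be from `S_Ds` (`Adm l k v`), `e = 1` if `v % 4 = 1`, `e = -1`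
otherwise, and `a`, `b`, `S` from `S_Dec` for `n = k - l`; `P(S) = S.sup id` if `#S = R`, `2^J + 1` otherwise.  So `k ∈ K(b, S, e)`, the set of the
`k ∈ [1, x] \ E` with the properties in `S_Cnt` (`P = P(S)`) where `b ∈ [1, 2^W]`, `S` is a set of at most `R` primes of `(2^W, 2^J]`, `e = ± 1`.
Bound of `#K(b, S, e)`: it may be assumed that it is not empty.  If `#S = R` then `Gd l R η J i S`, `i = log2 P + 1`: otherwise some `I ⊆ S`,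
`j` with `3 R i ≤ j < J`, is bad; `d = ∏ I` is odd, squarefree, `> 2^W`, divides `k - l` for all `k ∈ K(b, S, e)`, and `d ≤ (2^i)^R`, so `d³ ≤ 2^j`, and
`j ≥ i ≥ W` (`P > 2^W`), so `k ∈ E`.  So `S_Wt` applies, and `S_Cnt` (`M ≤ 2^(2W) 2^(J R)`, so `M² ≤ x`) gives
`#K(b, S, e) ≤ A (x/(b² ∏ S)) e^(C₁) (W/J)^(e0)` (`exp (-e0 log (J/W)) = (W/J)^(e0)`).  Sum over `e` (factor 2), `b` (`∑ 1/b² ≤ 2`) and `S` (`S_SumS`,
`log (J/W) ≤ log J`). -/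
def S_Cov : Prop := ∀ (l R : ℕ) (η e0 : ℝ), 1 ≤ l → 1 ≤ R → 0 < η → 0 ≤ e0 →
  (e0 ≤ 1 - (1 / 2 : ℝ) ^ R - 2 * η ∨
    (¬ IsSquare l ∧ e0 ≤ 9 / 8 ∧ (1 / 2 : ℝ) ^ R + 2 * η ≤ 3 / 8)) →
  ∃ (C : ℝ) (j₀ : ℕ), 1 ≤ C ∧ ∀ x W J : ℕ, j₀ ≤ W → W ≤ J → (2 ^ (2 * W + J * R)) ^ 2 ≤ x →
    C * J * (1 + Real.log J) ≤ Real.log x →
    ((((Icc 1 x).filter fun k => IsK l k).card : ℕ) : ℝ) ≤
      C * (Real.sqrt x + (J : ℝ) ^ 2 * (x / 2 ^ W) +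
        x * ((W : ℝ) / J) ^ e0 * (C + Real.log J) ^ R)

/-- (150 lines) **Choice of the parameters.**  Proof.  `L = log x`, `λ = log L`, `J = ⌊L/λ²⌋`, `W = ⌈6 λ⌉`.  For large `x`: `W ≥ j₀`, `W ≤ J`;
`2 (2W + J R) log 2 ≤ 4 (6 λ + 1) + 2 R L/λ² ≤ L`; `C J (1 + log J) ≤ C (L/λ²) (1 + λ) ≤ L`.  `2^W ≥ L^(6 log 2) ≥ L^4.1`, so `J² x/2^W ≤ x L^(-2.1)`;
`(W/J)^(e0) (C + log J)^R ≤ L^(-e0) (14 λ³)^(e0) (C + λ)^R ≤ L^(-e0) L^(ε/2)`.  As `e0 - ε < 2` every term, multiplied by `C`, is at most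
`x L^(-(e0 - ε))/3` for large `x`. -/
def S_Asy : Prop := ∀ (C e0 ε : ℝ) (j₀ R : ℕ), 1 ≤ C → 0 ≤ e0 → e0 ≤ 2 → 0 < ε → ∃ x₀ : ℕ, 2 ≤ x₀ ∧
  ∀ x : ℕ, x₀ ≤ x → ∃ W J : ℕ, j₀ ≤ W ∧ W ≤ J ∧ (2 ^ (2 * W + J * R)) ^ 2 ≤ x ∧
    C * J * (1 + Real.log J) ≤ Real.log x ∧
    C * (Real.sqrt x + (J : ℝ) ^ 2 * (x / 2 ^ W) +
      x * ((W : ℝ) / J) ^ e0 * (C + Real.log J) ^ R) ≤ x / Real.log x ^ (e0 - ε)

open Classical in
/-- (120 lines; uses `S_Cov`, `S_Asy`) **Main theorem.**  Proof.  First claim (`ε ≤ 1`, otherwise replace `ε` by `1`; `(log x)^(1-ε)` is smaller): choose `R`, `η`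
with `2^(-R) + 2 η ≤ ε/2`, `e0 = 1 - ε/2`, and `S_Asy` with `ε/2`.  Second claim: `R = 2`, `η = 1/16` (`1/4 + 1/8 = 3/8`), `e0 = 9/8`.  For `2 ≤ x < x₀` the
number is at most `x`, and `(log x)^(e)` is at most a constant (`e = 1 - ε` or `9/8 - ε`, `log x ∈ [log 2, log x₀]`; the exponent may be negative), so enlarge `C`. -/
def S_Main : Prop := ∀ (l : ℕ) (ε : ℝ), 1 ≤ l → 0 < ε →
  (∃ C : ℝ, 0 < C ∧ ∀ x : ℕ, 2 ≤ x → ((((Icc 1 x).filter fun k => IsK l k).card : ℕ) : ℝ) ≤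
    C * x / Real.log x ^ (1 - ε)) ∧
  (¬ IsSquare l → ∃ C : ℝ, 0 < C ∧ ∀ x : ℕ, 2 ≤ x →
    ((((Icc 1 x).filter fun k => IsK l k).card : ℕ) : ℝ) ≤ C * x / Real.log x ^ (9 / 8 - ε))

/-- (100 lines; general) **Convergence.**  Proof.  Blocks `(2^j, 2^(j+1)]`: the sum of `1/k` over the `k ∈ Q` in the block is at most
`2^(-j) C 2^(j+1)/((j+1) log 2)^(1+δ) ≤ C'/(j+1)^(1+δ)`, summable (`Real.summable_one_div_nat_rpow` / `summable_nat_rpow_inv`); so all finite sums are bounded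
(`summable_of_sum_le`). -/
def S_Cvg : Prop := ∀ (Q : Set ℕ) (C δ : ℝ), 0 < C → 0 < δ →
  (∀ x : ℕ, 2 ≤ x → (((Q ∩ Set.Icc 1 x).ncard : ℕ) : ℝ) ≤ C * x / Real.log x ^ (1 + δ)) →
  Summable (fun k : Q => (1 : ℝ) / (k : ℕ))

end Pool.Agent.Lib.MP_706923_coQ
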