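import Pool.Agent.Lib.MP_706923_coQ.Spec

/-!
# MP_706923_co, package Q: sums over small sets of primes
-/

set_option autoImplicit false

namespace Pool.Agent.Lib.MP_706923_coQ

open Finset

private theorem sum_small (a : ℕ → ℝ) (T : Finset ℕ) (ha : ∀ p ∈ T, 0 ≤ a p) :
    ∀ R : ℕ, ∑ S ∈ T.powerset, (if S.card ≤ R then ∏ p ∈ S, a p else 0) ≤
      (1 + ∑ p ∈ T, a p) ^ R := by
  classical
  induction T using Finset.induction_on with
  | empty =>
    intro R
    simp
  | insert q T hq ih =>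
    intro R
    have ha' : ∀ p ∈ T, 0 ≤ a p := fun p hp => ha p (mem_insert_of_mem hp)
    have haq : 0 ≤ a q := ha q (mem_insert_self q T)
    have hs : 0 ≤ ∑ p ∈ T, a p := sum_nonneg ha'
    rw [sum_powerset_insert hq, sum_insert hq]
    rcases R with _ | R
    · have h1 : ∑ S ∈ T.powerset, (if (insert q S).card ≤ 0 then ∏ p ∈ insert q S, a p else 0)
          = 0 := by
        refine sum_eq_zero fun S _ => ?_
        rw [if_neg]
        intro h
        have h2 : (insert q S).card = 0 := Nat.le_zero.1 h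
        rw [card_eq_zero] at h2
        exact insert_ne_empty q S h2
      rw [h1, add_zero, pow_zero]
      have h2 := ih ha' 0
      rwa [pow_zero] at h2
    · have h1 : ∑ S ∈ T.powerset, (if (insert q S).card ≤ R + 1 then ∏ p ∈ insert q S, a p
          else 0) = a q * ∑ S ∈ T.powerset, (if S.card ≤ R then ∏ p ∈ S, a p else 0) := by
        rw [mul_sum]
        refine sum_congr rfl fun S hS => ?_
        have hqS : q ∉ S := fun h => hq (mem_powerset.1 hS h)
        rw [card_insert_of_notMem hqS, prod_insert hqS]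
        by_cases h : S.card ≤ R
        · rw [if_pos h, if_pos (by omega)]
        · rw [if_neg h, if_neg (by omega), mul_zero]
      rw [h1]
      have h2 := ih ha' (R + 1)
      have h3 := ih ha' R
      have h4 : (1 + ∑ p ∈ T, a p) ^ R ≤ (1 + (a q + ∑ p ∈ T, a p)) ^ R :=
        pow_le_pow_left₀ (by linarith) (by linarith) R
      calc _ ≤ (1 + ∑ p ∈ T, a p) ^ (R + 1) + a q * (1 + ∑ p ∈ T, a p) ^ R :=
            add_le_add h2 (mul_le_mul_of_nonneg_left h3 haq)
        _ = (1 + ∑ p ∈ T, a p) ^ R * (1 + (a q + ∑ p ∈ T, a p)) := by ring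
        _ ≤ (1 + (a q + ∑ p ∈ T, a p)) ^ R * (1 + (a q + ∑ p ∈ T, a p)) :=
            mul_le_mul_of_nonneg_right h4 (by linarith)
        _ = (1 + (a q + ∑ p ∈ T, a p)) ^ (R + 1) := by ring

theorem tSumS (h1 : S_Mr) : S_SumS := by
  obtain ⟨C, hC, h⟩ := h1
  refine ⟨1 + C, by linarith, fun W J R hW hWJ => ?_⟩
  set T := (Ioc (2 ^ W) (2 ^ J)).filter Nat.Prime with hT
  have h2 := sum_small (fun p => (1 : ℝ) / p) T (fun p _ => by positivity) R
  have h3 : ∑ S ∈ T.powerset.filter (fun S => S.card ≤ R), (1 : ℝ) / ∏ p ∈ S, (p : ℝ) =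
      ∑ S ∈ T.powerset, (if S.card ≤ R then ∏ p ∈ S, (1 : ℝ) / p else 0) := by
    rw [sum_filter]
    refine sum_congr rfl fun S _ => ?_
    congr 1
    rw [prod_div_distrib, prod_const_one]
  rw [h3]
  refine h2.trans ?_
  have h4 := (abs_le.1 (h W J hW hWJ)).2
  have hW' : (1 : ℝ) ≤ W := by exact_mod_cast hW
  have h5 : C / W ≤ C := div_le_self hC.le hW'
  refine pow_le_pow_left₀ ?_ ?_ R
  · have : 0 ≤ ∑ p ∈ T, (1 : ℝ) / p := sum_nonneg fun p _ => by positivity
    linarith
  · linarith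

end Pool.Agent.Lib.MP_706923_coQ
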