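import Pool.Agent.Lib.MP_706923_coQ.Spec
import Pool.Agent.Lib.MP_aa9ae4_nt.Mertens

/-!
# MP_706923_co, package Q: the sieve
-/

set_option autoImplicit false

namespace Pool.Agent.Lib.MP_706923_coQ

open Finset Pool.Agent.Lib.MP_706923_co

private theorem sv_exp {u : ℝ} (hu : 0 ≤ u) : Real.exp (u - u ^ 2) ≤ 1 + u := by
  have h1 := Real.le_log_one_add_of_nonneg hu
  have h2 : u - u ^ 2 ≤ 2 * u / (u + 2) := by
    rw [le_div_iff₀ (by linarith)]
    nlinarith [pow_nonneg hu 2, pow_nonneg hu 3]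
  calc Real.exp (u - u ^ 2) ≤ Real.exp (Real.log (1 + u)) := Real.exp_le_exp.2 (h2.trans h1)
    _ = 1 + u := Real.exp_log (by linarith)

/-- The sum of the squares. -/
private theorem sv_sq (T : Finset ℕ) (h : ℕ → ℝ) (hT : ∀ q ∈ T, 6 ≤ q)
    (hh : ∀ q ∈ T, 0 ≤ h q ∧ h q ≤ 3 / q) : ∑ q ∈ T, h q ^ 2 ≤ 2 := by
  have h1 : ∀ q ∈ T, h q ^ 2 ≤ 9 * ((q : ℝ) ^ 2)⁻¹ := by
    intro q hq
    obtain ⟨a, b⟩ := hh q hq
    have : h q ^ 2 ≤ (3 / (q : ℝ)) ^ 2 := pow_le_pow_left₀ a b 2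
    refine this.trans (le_of_eq ?_)
    rw [div_pow]
    ring
  refine (sum_le_sum h1).trans ?_
  rw [← mul_sum]
  set N := T.sup id + 6 with hN
  have h2 : ∑ q ∈ T, ((q : ℝ) ^ 2)⁻¹ ≤ ∑ q ∈ Ioc 5 N, ((q : ℝ) ^ 2)⁻¹ := by
    refine sum_le_sum_of_subset_of_nonneg (fun q hq => ?_) fun q _ _ => by positivity
    rw [mem_Ioc]
    have h3 : id q ≤ T.sup id := le_sup (f := id) hq
    have h4 := hT q hq
    simp only [id] at h3
    omega
  have h3 := sum_Ioc_inv_sq_le_sub (α := ℝ) (k := 5) (n := N) (by norm_num) (by omega)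
  have h4 : (0 : ℝ) ≤ (N : ℝ)⁻¹ := by positivity
  have h5 : ((5 : ℕ) : ℝ)⁻¹ = 1 / 5 := by norm_num
  rw [h5] at h3
  linarith

/-- Rankin's trick. -/
private theorem sv_rankin (T : Finset ℕ) (h : ℕ → ℝ) (r J : ℕ) (hJ : 1 ≤ J)
    (hT : ∀ q ∈ T, 0 < q ∧ q ≤ 2 ^ J) (hh : ∀ q ∈ T, 0 ≤ h q ∧ h q ≤ 3 / q) :
    ∑ D ∈ T.powerset.filter (fun D => ¬ ∏ q ∈ D, q ≤ r), ∏ q ∈ D, h q ≤
      Real.exp (-(1 / (J * Real.log 2) * Real.log (r + 1))) *
        Real.exp (9 * ∑ q ∈ T, (1 : ℝ) / q) := by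
  classical
  have hl2 : 0 < Real.log 2 := Real.log_pos (by norm_num)
  have hJ' : (0 : ℝ) < J := by exact_mod_cast hJ
  set s : ℝ := 1 / (J * Real.log 2) with hs
  have hs0 : 0 < s := by positivity
  have hr0 : (0 : ℝ) < (r : ℝ) + 1 := by positivity
  -- `q ^ s ≤ 3`
  have hqs : ∀ q ∈ T, Real.exp (s * Real.log q) ≤ 3 := by
    intro q hq
    obtain ⟨a, b⟩ := hT q hq
    have h1 : Real.log q ≤ J * Real.log 2 := by
      have : (q : ℝ) ≤ 2 ^ J := by exact_mod_cast b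
      calc Real.log q ≤ Real.log (2 ^ J) := Real.log_le_log (by exact_mod_cast a) this
        _ = J * Real.log 2 := by rw [Real.log_pow]
    have h2 : s * Real.log q ≤ 1 := by
      calc s * Real.log q ≤ s * (J * Real.log 2) := mul_le_mul_of_nonneg_left h1 hs0.le
        _ = 1 := by rw [hs]; field_simp
    calc Real.exp (s * Real.log q) ≤ Real.exp 1 := Real.exp_le_exp.2 h2
      _ ≤ 3 := by have := Real.exp_one_lt_d9; linarith
  have hterm : ∀ D ∈ T.powerset.filter (fun D => ¬ ∏ q ∈ D, q ≤ r), ∏ q ∈ D, h q ≤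
      Real.exp (-(s * Real.log (r + 1))) * ∏ q ∈ D, 3 * h q := by
    intro D hD
    rw [mem_filter, mem_powerset, not_le] at hD
    obtain ⟨hDT, hDr⟩ := hD
    have h1 : (1 : ℝ) ≤ Real.exp (-(s * Real.log (r + 1))) *
        ∏ q ∈ D, Real.exp (s * Real.log q) := by
      rw [← Real.exp_sum, ← Real.exp_add, ← mul_sum]
      apply Real.one_le_exp
      have h2 : ∑ q ∈ D, Real.log q = Real.log ((∏ q ∈ D, q : ℕ) : ℝ) := by
        push_cast
        rw [Real.log_prod]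
        intro q hq
        have := (hT q (hDT hq)).1
        exact_mod_cast this.ne'
      have h3 : Real.log (r + 1) ≤ Real.log ((∏ q ∈ D, q : ℕ) : ℝ) := by
        apply Real.log_le_log hr0
        exact_mod_cast hDr
      rw [h2]
      nlinarith [mul_le_mul_of_nonneg_left h3 hs0.le]
    have h4 : 0 ≤ ∏ q ∈ D, h q := prod_nonneg fun q hq => (hh q (hDT hq)).1
    calc ∏ q ∈ D, h q = 1 * ∏ q ∈ D, h q := (one_mul _).symm
      _ ≤ (Real.exp (-(s * Real.log (r + 1))) * ∏ q ∈ D, Real.exp (s * Real.log q)) *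
          ∏ q ∈ D, h q := mul_le_mul_of_nonneg_right h1 h4
      _ = Real.exp (-(s * Real.log (r + 1))) * ∏ q ∈ D, (Real.exp (s * Real.log q) * h q) := by
          rw [mul_assoc, ← prod_mul_distrib]
      _ ≤ Real.exp (-(s * Real.log (r + 1))) * ∏ q ∈ D, 3 * h q := by
          apply mul_le_mul_of_nonneg_left _ (Real.exp_pos _).le
          refine prod_le_prod (fun q hq => ?_) fun q hq => ?_
          · exact mul_nonneg (Real.exp_pos _).le (hh q (hDT hq)).1
          · exact mul_le_mul_of_nonneg_right (hqs q (hDT hq)) (hh q (hDT hq)).1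
  refine (sum_le_sum hterm).trans ?_
  rw [← mul_sum]
  apply mul_le_mul_of_nonneg_left _ (Real.exp_pos _).le
  calc ∑ D ∈ T.powerset.filter (fun D => ¬ ∏ q ∈ D, q ≤ r), ∏ q ∈ D, 3 * h q
      ≤ ∑ D ∈ T.powerset, ∏ q ∈ D, 3 * h q := by
        refine sum_le_sum_of_subset_of_nonneg (filter_subset _ _) fun D hD _ => ?_
        rw [mem_powerset] at hD
        exact prod_nonneg fun q hq => mul_nonneg (by norm_num) (hh q (hD hq)).1
    _ = ∏ q ∈ T, (1 + 3 * h q) := by rw [Finset.prod_one_add]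
    _ ≤ ∏ q ∈ T, Real.exp (9 * (1 / (q : ℝ))) := by
        refine prod_le_prod (fun q hq => ?_) fun q hq => ?_
        · have := (hh q hq).1
          linarith
        · have h5 := (hh q hq).2
          have h6 := Real.add_one_le_exp (9 * (1 / (q : ℝ)))
          have h7 : 3 * (3 / (q : ℝ)) = 9 * (1 / (q : ℝ)) := by ring
          linarith
    _ = Real.exp (9 * ∑ q ∈ T, (1 : ℝ) / q) := by rw [← Real.exp_sum, mul_sum]

theorem tSv : S_Sv := by
  classical
  obtain ⟨C₀, hC₀, hM⟩ := Pool.Agent.Lib.MP_aa9ae4_nt.sum_inv_primes_le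
  refine ⟨2 * (9 * (1 + C₀)) + 1000, by positivity, ?_⟩
  intro X J T S Ω hJ hX hlog hT hΩ hS
  have hl2 : 0 < Real.log 2 := Real.log_pos (by norm_num)
  have hl2' : Real.log 2 ≤ 1 := by have := Real.log_two_lt_d9; linarith
  have hJ' : (1 : ℝ) ≤ J := by exact_mod_cast hJ
  have hlJ : 0 ≤ Real.log J := Real.log_nonneg hJ'
  have hXr : (1 : ℝ) ≤ X := by exact_mod_cast hX
  set h : ℕ → ℝ := fun q => ((Ω q).card : ℝ) / q with hh
  have hh' : ∀ q ∈ T, 0 ≤ h q ∧ h q ≤ 3 / q := by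
    intro q hq
    refine ⟨by simp only [hh]; positivity, ?_⟩
    simp only [hh]
    apply div_le_div_of_nonneg_right _ (Nat.cast_nonneg q)
    exact_mod_cast (hΩ q hq).2.2
  set r := Nat.sqrt X with hr
  have hr1 : r ^ 2 ≤ X := Nat.sqrt_le' X
  have hr2 : X < (r + 1) ^ 2 := Nat.lt_succ_sqrt' X
  -- Mertens
  have hmer : ∑ q ∈ T, (1 : ℝ) / q ≤ Real.log J + (1 + C₀) := by
    have h1 := hM (2 ^ J) (by
      calc 2 = 2 ^ 1 := (pow_one 2).symm
        _ ≤ 2 ^ J := Nat.pow_le_pow_right (by norm_num) hJ)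
    have h2 : ∑ q ∈ T, (1 : ℝ) / q ≤ ∑ p ∈ (Icc 1 (2 ^ J)).filter Nat.Prime, (1 : ℝ) / p := by
      refine sum_le_sum_of_subset_of_nonneg (fun q hq => ?_) fun q _ _ => by positivity
      obtain ⟨a, b, c⟩ := hT q hq
      rw [mem_filter, mem_Icc]
      exact ⟨⟨a.one_le, c⟩, a⟩
    have h3 : Real.log (Real.log ((2 ^ J : ℕ) : ℝ) + 1) ≤ Real.log J + 1 := by
      push_cast
      rw [Real.log_pow]
      calc Real.log (J * Real.log 2 + 1) ≤ Real.log (2 * J) :=
            Real.log_le_log (by positivity) (by nlinarith)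
        _ = Real.log 2 + Real.log J := Real.log_mul (by norm_num) (by positivity)
        _ ≤ Real.log J + 1 := by linarith
    linarith
  -- the sums
  set Pr : ℝ := ∏ q ∈ T, (1 + h q) with hPr
  have hPr1 : 1 ≤ Pr := by
    rw [hPr]
    calc (1 : ℝ) = ∏ q ∈ T, (1 : ℝ) := by rw [prod_const_one]
      _ ≤ ∏ q ∈ T, (1 + h q) := prod_le_prod (fun _ _ => zero_le_one)
          fun q hq => by have := (hh' q hq).1; linarith
  have hsplit : Pr = ∑ D ∈ T.powerset.filter (fun D => ∏ q ∈ D, q ≤ r), ∏ q ∈ D, h q +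
      ∑ D ∈ T.powerset.filter (fun D => ¬ ∏ q ∈ D, q ≤ r), ∏ q ∈ D, h q := by
    rw [hPr, Finset.prod_one_add, sum_filter_add_sum_filter_not]
  have hrank := sv_rankin T h r J hJ (fun q hq => ⟨(hT q hq).1.pos, (hT q hq).2.2⟩) hh'
  have hsmall : ∑ D ∈ T.powerset.filter (fun D => ¬ ∏ q ∈ D, q ≤ r), ∏ q ∈ D, h q ≤ 1 / 2 := by
    refine hrank.trans ?_
    rw [← Real.exp_add]
    have h1 : Real.log X / 2 ≤ Real.log (r + 1) := by
      have h2 : (X : ℝ) ≤ ((r : ℝ) + 1) ^ 2 := by exact_mod_cast hr2.le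
      have h3 : Real.log X ≤ 2 * Real.log (r + 1) := by
        calc Real.log X ≤ Real.log (((r : ℝ) + 1) ^ 2) := Real.log_le_log (by linarith) h2
          _ = 2 * Real.log (r + 1) := by rw [Real.log_pow]; norm_num
      linarith
    have h4 : (9 * (1 + C₀) + 500) * (1 + Real.log J) ≤
        1 / (J * Real.log 2) * Real.log (r + 1) := by
      rw [one_div, inv_mul_eq_div, le_div_iff₀ (by positivity)]
      have h5 : 0 ≤ (9 * (1 + C₀) + 500) * (1 + Real.log J) * J := by positivity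
      calc (9 * (1 + C₀) + 500) * (1 + Real.log J) * (J * Real.log 2)
          = (9 * (1 + C₀) + 500) * (1 + Real.log J) * J * Real.log 2 := by ring
        _ ≤ (9 * (1 + C₀) + 500) * (1 + Real.log J) * J * 1 :=
            mul_le_mul_of_nonneg_left hl2' h5
        _ = ((2 * (9 * (1 + C₀)) + 1000) * J * (1 + Real.log J)) / 2 := by ring
        _ ≤ Real.log X / 2 := by linarith
        _ ≤ Real.log (r + 1) := h1
    have h6 : -(1 / (J * Real.log 2) * Real.log (r + 1)) + 9 * ∑ q ∈ T, (1 : ℝ) / q ≤ -1 := by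
      nlinarith [mul_nonneg hC₀.le hlJ]
    calc Real.exp (-(1 / (J * Real.log 2) * Real.log (r + 1)) + 9 * ∑ q ∈ T, (1 : ℝ) / q)
        ≤ Real.exp (-1) := Real.exp_le_exp.2 h6
      _ ≤ 1 / 2 := by
          rw [Real.exp_neg, one_div]
          apply inv_anti₀ (by norm_num)
          have := Real.add_one_le_exp (1 : ℝ)
          linarith
  -- the large sieve
  have hls := Pool.Agent.Lib.MP_9f2731_nt.arith_ls X r
    (T.powerset.filter (fun D => ∏ q ∈ D, q ≤ r)) Ω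
    (fun D hD => by
      rw [mem_filter, mem_powerset] at hD
      exact ⟨fun q hq => (hT q (hD.1 hq)).1, hD.2⟩)
    (fun D hD q hq => by
      rw [mem_filter, mem_powerset] at hD
      have h1 := hΩ q (hD.1 hq)
      have h2 := (hT q (hD.1 hq)).2.1
      exact ⟨h1.1, by omega, by omega⟩) S
    (fun n hn => ⟨(hS n hn).1, fun D hD q hq => by
      rw [mem_filter, mem_powerset] at hD
      exact (hS n hn).2 q (hD.1 hq)⟩)
  have hcmp : ∑ D ∈ T.powerset.filter (fun D => ∏ q ∈ D, q ≤ r), ∏ q ∈ D, h q ≤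
      ∑ D ∈ T.powerset.filter (fun D => ∏ q ∈ D, q ≤ r),
        ∏ q ∈ D, Pool.Agent.Lib.MP_9f2731_nt.hw Ω q := by
    refine sum_le_sum fun D hD => ?_
    rw [mem_filter, mem_powerset] at hD
    refine prod_le_prod (fun q hq => (hh' q (hD.1 hq)).1) fun q hq => ?_
    unfold Pool.Agent.Lib.MP_9f2731_nt.hw
    simp only [hh]
    have h1 : ((Ω q).card : ℝ) ≤ 3 := by exact_mod_cast (hΩ q (hD.1 hq)).2.2
    have h2 : (6 : ℝ) ≤ q := by exact_mod_cast (hT q (hD.1 hq)).2.1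
    have h3 : (0 : ℝ) ≤ (Ω q).card := Nat.cast_nonneg _
    apply div_le_div_of_nonneg_left h3 (by linarith) (by linarith)
  have hS0 : (0 : ℝ) ≤ S.card := Nat.cast_nonneg _
  have h80 : (S.card : ℝ) * Pr ≤ 80 * X := by
    have h1 : (S.card : ℝ) * (Pr / 2) ≤ 20 * ((X : ℝ) + (r : ℝ) ^ 2) := by
      refine le_trans (mul_le_mul_of_nonneg_left ?_ hS0) hls
      linarith
    have h2 : ((r : ℝ)) ^ 2 ≤ X := by exact_mod_cast hr1
    linarith
  -- the lower bound for `Pr`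
  have hlow : Real.exp (∑ q ∈ T, h q - 2) ≤ Pr := by
    have h1 := sv_sq T h (fun q hq => (hT q hq).2.1) hh'
    calc Real.exp (∑ q ∈ T, h q - 2) ≤ Real.exp (∑ q ∈ T, (h q - h q ^ 2)) := by
          apply Real.exp_le_exp.2
          rw [sum_sub_distrib]
          linarith
      _ = ∏ q ∈ T, Real.exp (h q - h q ^ 2) := Real.exp_sum _ _
      _ ≤ Pr := prod_le_prod (fun q _ => (Real.exp_pos _).le) fun q hq => sv_exp (hh' q hq).1
  have hfin : (S.card : ℝ) ≤ 80 * X * Real.exp (2 - ∑ q ∈ T, h q) := by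
    have h1 : (S.card : ℝ) * Real.exp (∑ q ∈ T, h q - 2) ≤ 80 * X :=
      (mul_le_mul_of_nonneg_left hlow hS0).trans h80
    have h2 : Real.exp (∑ q ∈ T, h q - 2) * Real.exp (2 - ∑ q ∈ T, h q) = 1 := by
      rw [← Real.exp_add]
      simp
    calc (S.card : ℝ) = S.card * (Real.exp (∑ q ∈ T, h q - 2) * Real.exp (2 - ∑ q ∈ T, h q)) := by
          rw [h2, mul_one]
      _ = S.card * Real.exp (∑ q ∈ T, h q - 2) * Real.exp (2 - ∑ q ∈ T, h q) := by ring
      _ ≤ 80 * X * Real.exp (2 - ∑ q ∈ T, h q) :=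
          mul_le_mul_of_nonneg_right h1 (Real.exp_pos _).le
  refine hfin.trans ?_
  have he : Real.exp (2 - ∑ q ∈ T, h q) ≤ 9 * Real.exp (-∑ q ∈ T, h q) := by
    rw [sub_eq_add_neg, Real.exp_add]
    apply mul_le_mul_of_nonneg_right _ (Real.exp_pos _).le
    have h1 : Real.exp 2 = Real.exp 1 ^ 2 := by
      rw [← Real.exp_nat_mul]
      norm_num
    have h2 := Real.exp_one_lt_d9
    have h3 := Real.exp_pos 1
    rw [h1]
    nlinarith
  calc 80 * X * Real.exp (2 - ∑ q ∈ T, h q) ≤ 80 * X * (9 * Real.exp (-∑ q ∈ T, h q)) :=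
        mul_le_mul_of_nonneg_left he (by positivity)
    _ = 720 * (X * Real.exp (-∑ q ∈ T, h q)) := by ring
    _ ≤ (2 * (9 * (1 + C₀)) + 1000) * (X * Real.exp (-∑ q ∈ T, h q)) := by
        apply mul_le_mul_of_nonneg_right _ (by positivity)
        linarith
    _ = (2 * (9 * (1 + C₀)) + 1000) * X * Real.exp (-∑ q ∈ T, h q) := by ring

end Pool.Agent.Lib.MP_706923_coQ
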