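import Pool.Agent.Lib.MP_706923_coQ.Spec

/-! # MP_706923_co, package Q: the weight -/

set_option autoImplicit false

namespace Pool.Agent.Lib.MP_706923_coQ

open Finset

private theorem wtSub {W J : ℕ} {S A : Finset ℕ} (c : ℝ) (hc : 0 ≤ c)
    (hS : ∀ p ∈ S, 1 ≤ p) (hA : A ⊆ (Ioc (2 ^ W) (2 ^ J)).filter Nat.Prime) :
    ∑ q ∈ A, c / (q : ℝ) - c * S.card ≤
      ∑ q ∈ prs W J S, if q ∈ A then c / (q : ℝ) else 0 := by
  rw [← Finset.sum_filter]
  have hsub : A ⊆ (prs W J S).filter (· ∈ A) ∪ S := by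
    intro q hq
    by_cases hqS : q ∈ S
    · exact mem_union_right _ hqS
    · refine mem_union_left _ (mem_filter.2 ⟨?_, hq⟩)
      have h := mem_filter.1 (hA hq)
      exact mem_filter.2 ⟨h.1, h.2, hqS⟩
  have h1 : ∑ q ∈ A, c / (q : ℝ) ≤
      ∑ q ∈ (prs W J S).filter (· ∈ A), c / (q : ℝ) + ∑ q ∈ S, c / (q : ℝ) := by
    calc ∑ q ∈ A, c / (q : ℝ) ≤ ∑ q ∈ (prs W J S).filter (· ∈ A) ∪ S, c / (q : ℝ) :=
          sum_le_sum_of_subset_of_nonneg hsub fun _ _ _ => by positivity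
      _ ≤ _ := by
          rw [← sum_union_inter]
          exact le_add_of_nonneg_right (sum_nonneg fun _ _ => by positivity)
  have h2 : ∑ q ∈ S, c / (q : ℝ) ≤ c * S.card := by
    calc ∑ q ∈ S, c / (q : ℝ) ≤ ∑ q ∈ S, c :=
          sum_le_sum fun q hq => div_le_self hc (by exact_mod_cast hS q hq)
      _ = c * S.card := by rw [sum_const, nsmul_eq_mul, mul_comm]
  linarith

private theorem wtPt {l P q : ℕ} {e : ℤ} {S : Finset ℕ} {x1 x2 x3 x4 : Prop} [Decidable x1]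
    [Decidable x2] [Decidable x3] [Decidable x4] (h1 : x1 → q < P)
    (h2 : x2 → q % 4 = 1 ∧ jacobiSym (1 - 4 * l) q = 1 ∧ jacobiSym l q = -1)
    (h3 : x3 → jacobiSym (e * l) q = -1)
    (h4 : x4 → jacobiSym (1 - 4 * l) q = 1 ∧ ∃ p ∈ S, jacobiSym p q = -1)
    (h13 : x1 → ¬ x3) (h24 : x2 → ¬ x4) :
    (if x1 then (1 : ℝ) / q else 0) + (if x2 then (1 : ℝ) / q else 0) +
      (if x3 then (1 : ℝ) / q else 0) + (if x4 then (2 : ℝ) / q else 0) ≤
      ((c0 l e P q + c1 l S q : ℕ) : ℝ) / q := by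
  have e0 : (if x1 then 1 else 0) + (if x3 then 1 else 0) ≤ c0 l e P q := by
    unfold c0
    by_cases a1 : x1
    · rw [if_pos a1, if_neg (h13 a1), if_pos (Or.inl (h1 a1))]
    · by_cases a3 : x3
      · rw [if_neg a1, if_pos a3, if_pos (Or.inr (h3 a3))]
      · rw [if_neg a1, if_neg a3]
        exact Nat.zero_le _
  have e1 : (if x2 then 1 else 0) + (if x4 then 2 else 0) ≤ c1 l S q := by
    unfold c1
    by_cases a4 : x4
    · have a2 : ¬ x2 := fun a2 => h24 a2 a4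
      rw [if_neg a2, if_pos a4, if_pos (h4 a4)]
    · by_cases a2 : x2
      · rw [if_pos a2, if_neg a4]
        split_ifs with b1 b2
        · norm_num
        · norm_num
        · exact absurd (h2 a2) b2
      · rw [if_neg a2, if_neg a4]
        exact Nat.zero_le _
  have e2 : ((((if x1 then 1 else 0) + (if x3 then 1 else 0)) +
      ((if x2 then 1 else 0) + (if x4 then 2 else 0)) : ℕ) : ℝ) / q ≤
      ((c0 l e P q + c1 l S q : ℕ) : ℝ) / q := by
    apply div_le_div_of_nonneg_right _ (Nat.cast_nonneg q)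
    exact_mod_cast add_le_add e0 e1
  refine le_trans (le_of_eq ?_) e2
  push_cast
  split_ifs <;> ring

private theorem wtGen {l W J P : ℕ} {e : ℤ} {S A1 A2 A3 A4 : Finset ℕ} (hS : ∀ p ∈ S, 1 ≤ p)
    (hA1 : A1 ⊆ (Ioc (2 ^ W) (2 ^ J)).filter Nat.Prime)
    (hA2 : A2 ⊆ (Ioc (2 ^ W) (2 ^ J)).filter Nat.Prime)
    (hA3 : A3 ⊆ (Ioc (2 ^ W) (2 ^ J)).filter Nat.Prime)
    (hA4 : A4 ⊆ (Ioc (2 ^ W) (2 ^ J)).filter Nat.Prime)
    (k1 : ∀ q ∈ A1, q ∉ S → q < P)
    (k2 : ∀ q ∈ A2, q % 4 = 1 ∧ jacobiSym (1 - 4 * l) q = 1 ∧ jacobiSym l q = -1)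
    (k3 : ∀ q ∈ A3, jacobiSym (e * l) q = -1)
    (k4 : ∀ q ∈ A4, jacobiSym (1 - 4 * l) q = 1 ∧ ∃ p ∈ S, jacobiSym p q = -1)
    (k13 : ∀ q ∈ A1, q ∉ A3) (k24 : ∀ q ∈ A2, q ∉ A4) :
    ∑ q ∈ A1, (1 : ℝ) / q + ∑ q ∈ A2, (1 : ℝ) / q + ∑ q ∈ A3, (1 : ℝ) / q +
      ∑ q ∈ A4, (2 : ℝ) / q - 5 * S.card ≤
      ∑ q ∈ prs W J S, ((c0 l e P q + c1 l S q : ℕ) : ℝ) / q := by
  have s1 := wtSub (W := W) (J := J) 1 zero_le_one hS hA1
  have s2 := wtSub (W := W) (J := J) 1 zero_le_one hS hA2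
  have s3 := wtSub (W := W) (J := J) 1 zero_le_one hS hA3
  have s4 := wtSub (W := W) (J := J) 2 zero_le_two hS hA4
  have s5 : ∑ q ∈ prs W J S, ((if q ∈ A1 then (1 : ℝ) / q else 0) +
      (if q ∈ A2 then (1 : ℝ) / q else 0) +
      (if q ∈ A3 then (1 : ℝ) / q else 0) + (if q ∈ A4 then (2 : ℝ) / q else 0)) ≤
      ∑ q ∈ prs W J S, ((c0 l e P q + c1 l S q : ℕ) : ℝ) / q := by
    refine sum_le_sum fun q hq => ?_
    have hqS : q ∉ S := (mem_filter.1 hq).2.2
    exact wtPt (fun h => k1 q h hqS) (k2 q) (k3 q) (k4 q) (k13 q) (k24 q)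
  rw [sum_add_distrib, sum_add_distrib, sum_add_distrib] at s5
  linarith

/-- Numbers `i - 1 ≥ 1` and logarithms. -/
private theorem wtLog1 {W i : ℕ} (hW : 1 ≤ W) (hi : W + 1 ≤ i) :
    Real.log ((i : ℝ) / W) - 1 ≤ Real.log (((i - 1 : ℕ) : ℝ) / W) := by
  have hW' : (0 : ℝ) < W := by exact_mod_cast hW
  have hi' : (0 : ℝ) < ((i - 1 : ℕ) : ℝ) := by
    have : 1 ≤ i - 1 := by omega
    exact_mod_cast this
  have h2 : (i : ℝ) ≤ 2 * ((i - 1 : ℕ) : ℝ) := by
    have : i ≤ 2 * (i - 1) := by omega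
    exact_mod_cast this
  have hi0 : (0 : ℝ) < i := by
    have : 1 ≤ i := by omega
    exact_mod_cast this
  have h3 : Real.log (i : ℝ) ≤ Real.log 2 + Real.log ((i - 1 : ℕ) : ℝ) := by
    rw [← Real.log_mul (by norm_num) hi'.ne']
    exact Real.log_le_log hi0 h2
  have h4 : Real.log 2 ≤ 1 := by
    have := Real.log_le_sub_one_of_pos (show (0 : ℝ) < 2 by norm_num)
    linarith
  rw [Real.log_div hi0.ne' hW'.ne', Real.log_div hi'.ne' hW'.ne']
  linarith

private theorem wtLog2 {J i : ℕ} (hi : 2 ≤ i) (hJ : i - 1 ≤ J) :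
    -1 ≤ Real.log ((J : ℝ) / i) := by
  have hi0 : (0 : ℝ) < i := by
    have : 1 ≤ i := by omega
    exact_mod_cast this
  have hJ0 : (0 : ℝ) < J := by
    have : 1 ≤ J := by omega
    exact_mod_cast this
  have h2 : (i : ℝ) ≤ 2 * (J : ℝ) := by
    have : i ≤ 2 * J := by omega
    exact_mod_cast this
  have h3 : Real.log (i : ℝ) ≤ Real.log 2 + Real.log (J : ℝ) := by
    rw [← Real.log_mul (by norm_num) hJ0.ne']
    exact Real.log_le_log hi0 h2
  have h4 : Real.log 2 ≤ 1 := by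
    have := Real.log_le_sub_one_of_pos (show (0 : ℝ) < 2 by norm_num)
    linarith
  rw [Real.log_div hJ0.ne' hi0.ne']
  linarith

/-- The set of `S_Kil` in both cases. -/
private theorem wtKil {l R : ℕ} {η CK : ℝ} (hR : 1 ≤ R) (hη : 0 < η) (hCK : 0 < CK)
    (hK : ∀ (i J : ℕ) (S : Finset ℕ), 1 ≤ i → 3 * R * i ≤ J → S.card = R →
      (∀ p ∈ S, p.Prime ∧ 4 * l + 6 ≤ p ∧ p < 2 ^ i) → Gd l R η J i S →
      (1 - (1 / 2 : ℝ) ^ R - 2 * η) * Real.log ((J : ℝ) / ((3 * R * i : ℕ) : ℝ)) - CK ≤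
        ∑ q ∈ (Ioc (2 ^ (3 * R * i)) (2 ^ J)).filter (fun q => q.Prime ∧
          jacobiSym (1 - 4 * l) q = 1 ∧ ∃ p ∈ S, jacobiSym p q = -1), (2 : ℝ) / q)
    {i J : ℕ} {S : Finset ℕ} (hi : 2 ≤ i) (hiJ : i - 1 ≤ J) (hS : S.card = R)
    (hp : ∀ p ∈ S, p.Prime ∧ 4 * l + 6 ≤ p ∧ p < 2 ^ i) (hG : Gd l R η J i S) :
    (1 - (1 / 2 : ℝ) ^ R - 2 * η) * Real.log ((J : ℝ) / i) -
      ((1 + 2 * η) * (1 + Real.log (3 * R)) + CK) ≤
        ∑ q ∈ (Ioc (2 ^ (3 * R * i)) (2 ^ J)).filter (fun q => q.Prime ∧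
          jacobiSym (1 - 4 * l) q = 1 ∧ ∃ p ∈ S, jacobiSym p q = -1), (2 : ℝ) / q := by
  have hi0 : (0 : ℝ) < i := by
    have : 1 ≤ i := by omega
    exact_mod_cast this
  have hJ0 : (0 : ℝ) < J := by
    have : 1 ≤ J := by omega
    exact_mod_cast this
  have hR0 : (1 : ℝ) ≤ R := by exact_mod_cast hR
  have h3R : (0 : ℝ) ≤ Real.log (3 * R) := Real.log_nonneg (by linarith)
  have hp0 : (0 : ℝ) < (1 / 2 : ℝ) ^ R := by positivity
  have hp1 : (1 / 2 : ℝ) ^ R ≤ 1 := pow_le_one₀ (by norm_num) (by norm_num)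
  set D : ℝ := 1 - (1 / 2 : ℝ) ^ R - 2 * η with hD
  have hD1 : D ≤ 1 + 2 * η := by rw [hD]; linarith
  have hD2 : -(1 + 2 * η) ≤ D := by rw [hD]; linarith
  have hl2 := wtLog2 hi hiJ
  by_cases hc : 3 * R * i ≤ J
  · refine le_trans ?_ (hK i J S (by omega) hc hS hp hG)
    have e1 : Real.log ((J : ℝ) / ((3 * R * i : ℕ) : ℝ)) =
        Real.log ((J : ℝ) / i) - Real.log (3 * R) := by
      push_cast
      rw [Real.log_div hJ0.ne' (by positivity), Real.log_div hJ0.ne' hi0.ne',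
        Real.log_mul (by positivity) hi0.ne']
      ring
    rw [e1]
    nlinarith [mul_le_mul_of_nonneg_right hD1 h3R]
  · have h0 : (0 : ℝ) ≤ ∑ q ∈ (Ioc (2 ^ (3 * R * i)) (2 ^ J)).filter (fun q => q.Prime ∧
          jacobiSym (1 - 4 * l) q = 1 ∧ ∃ p ∈ S, jacobiSym p q = -1), (2 : ℝ) / q :=
      sum_nonneg fun _ _ => by positivity
    refine le_trans ?_ h0
    have hc' : (J : ℝ) ≤ (3 * R) * i := by
      have : J ≤ 3 * R * i := by omega
      exact_mod_cast this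
    have e1 : Real.log ((J : ℝ) / i) ≤ Real.log (3 * R) := by
      apply Real.log_le_log (by positivity)
      rw [div_le_iff₀ hi0]
      exact hc'
    have e2 : |Real.log ((J : ℝ) / i)| ≤ 1 + Real.log (3 * R) := by
      rw [abs_le]
      constructor <;> linarith
    have e3 : |D| ≤ 1 + 2 * η := abs_le.2 ⟨hD2, hD1⟩
    have e4 : D * Real.log ((J : ℝ) / i) ≤ (1 + 2 * η) * (1 + Real.log (3 * R)) := by
      refine (le_abs_self _).trans ?_
      rw [abs_mul]
      exact mul_le_mul e3 e2 (abs_nonneg _) (by linarith)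
    linarith

private theorem wtIoc {W J a b : ℕ} {Q : ℕ → Prop} [DecidablePred Q] (ha : W ≤ a) (hb : b ≤ J) :
    (Ioc (2 ^ a) (2 ^ b)).filter (fun q => q.Prime ∧ Q q) ⊆
      (Ioc (2 ^ W) (2 ^ J)).filter Nat.Prime := by
  intro q hq
  obtain ⟨h1, h2, -⟩ := mem_filter.1 hq
  obtain ⟨h3, h4⟩ := mem_Ioc.1 h1
  exact mem_filter.2 ⟨mem_Ioc.2 ⟨lt_of_le_of_lt (Nat.pow_le_pow_right (by norm_num) ha) h3,
    h4.trans (Nat.pow_le_pow_right (by norm_num) hb)⟩, h2⟩

private theorem wtIoc' {W J a b : ℕ} (ha : W ≤ a) (hb : b ≤ J) :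
    (Ioc (2 ^ a) (2 ^ b)).filter Nat.Prime ⊆ (Ioc (2 ^ W) (2 ^ J)).filter Nat.Prime := by
  intro q hq
  obtain ⟨h1, h2⟩ := mem_filter.1 hq
  obtain ⟨h3, h4⟩ := mem_Ioc.1 h1
  exact mem_filter.2 ⟨mem_Ioc.2 ⟨lt_of_le_of_lt (Nat.pow_le_pow_right (by norm_num) ha) h3,
    h4.trans (Nat.pow_le_pow_right (by norm_num) hb)⟩, h2⟩

/-- The index `i`. -/
private theorem wtIdx {W J : ℕ} {S : Finset ℕ} (hSn : S.Nonempty)
    (hS : ∀ p ∈ S, p.Prime ∧ 2 ^ W < p ∧ p ≤ 2 ^ J) :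
    S.sup id ∈ S ∧ 2 ^ (Nat.log 2 (S.sup id)) ≤ S.sup id ∧
      (∀ p ∈ S, p < 2 ^ (Nat.log 2 (S.sup id) + 1)) ∧ W ≤ Nat.log 2 (S.sup id) ∧
      Nat.log 2 (S.sup id) ≤ J := by
  obtain ⟨p, hp, hpe⟩ := Finset.exists_mem_eq_sup S hSn id
  have hm : S.sup id ∈ S := by rw [hpe]; exact hp
  obtain ⟨h1, h2, h3⟩ := hS _ hm
  have h4 : 2 ^ (Nat.log 2 (S.sup id)) ≤ S.sup id := Nat.pow_log_le_self 2 h1.ne_zero
  have h5 : S.sup id < 2 ^ (Nat.log 2 (S.sup id) + 1) :=
    Nat.lt_pow_succ_log_self (by norm_num) _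
  refine ⟨hm, h4, fun p hp => lt_of_le_of_lt (Finset.le_sup (f := id) hp) h5, ?_, ?_⟩
  · have := (Nat.pow_lt_pow_iff_right (show 1 < 2 by norm_num)).1 (h2.trans h5)
    omega
  · exact (Nat.pow_le_pow_iff_right (show 1 < 2 by norm_num)).1 (h4.trans h3)

/-- **Wt**. -/
theorem tWt (h1 : S_Mr) (h2 : S_FxB) (h3 : S_FxC) (h4 : S_Kil) : S_Wt := by
  intro l R η e0 hl hR hη he0 halt
  obtain ⟨C1, hC1, hM⟩ := h1
  obtain ⟨CK, hCK, hK⟩ := h4 l R η hl hR hη
  have hp0 : (0 : ℝ) < (1 / 2 : ℝ) ^ R := by positivity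
  have hR0 : (1 : ℝ) ≤ R := by exact_mod_cast hR
  have h3R : (0 : ℝ) ≤ Real.log (3 * R) := Real.log_nonneg (by linarith)
  have hMer : ∀ i j : ℕ, 1 ≤ i → i ≤ j → Real.log ((j : ℝ) / i) - C1 ≤
      ∑ p ∈ (Ioc (2 ^ i) (2 ^ j)).filter Nat.Prime, (1 : ℝ) / p := by
    intro i j hi hij
    have e1 := (abs_le.1 (hM i j hi hij)).1
    have hi' : (1 : ℝ) ≤ i := by exact_mod_cast hi
    have e2 : C1 / i ≤ C1 := div_le_self hC1.le hi'
    linarith
  set K4 : ℝ := (1 + 2 * η) * (1 + Real.log (3 * R)) + CK with hK4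
  have hK4p : 0 < K4 := by
    rw [hK4]
    have : 0 ≤ (1 + 2 * η) * (1 + Real.log (3 * R)) := by positivity
    linarith
  rcases halt with halt | ⟨hsq, he9, hδ⟩
  · -- first alternative
    refine ⟨C1 + K4 + 5 * R + 1, by positivity, ?_⟩
    intro W J P e S hW hWJ hlW he hS hcase
    have hS1 : ∀ p ∈ S, 1 ≤ p := fun p hp => (hS p hp).1.one_lt.le
    have hW' : (1 : ℝ) ≤ W := by exact_mod_cast hW
    have hWJ' : (W : ℝ) ≤ J := by exact_mod_cast hWJ
    have hL : 0 ≤ Real.log ((J : ℝ) / W) :=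
      Real.log_nonneg (by rw [le_div_iff₀ (by linarith)]; linarith)
    rcases hcase with ⟨hc, hP, hG⟩ | ⟨hc, hP⟩
    · have hSn : S.Nonempty := by
        rw [← Finset.card_pos]
        omega
      obtain ⟨i1, i2, i3, i4, i5⟩ := wtIdx hSn hS
      rw [← hP] at i1 i2 i3 i4 i5
      set i : ℕ := Nat.log 2 P + 1 with hi
      have hi2 : 2 ≤ i := by omega
      have hk := wtKil hR hη hCK hK hi2 (J := J) (by omega) hc (fun p hp =>
        ⟨(hS p hp).1, by have := (hS p hp).2.1; omega, i3 p hp⟩) hG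
      have hm := hMer W (i - 1) hW (by omega)
      have hlog := wtLog1 (i := i) hW (by omega)
      have hg := wtGen (l := l) (W := W) (J := J) (P := P) (e := e) (S := S)
        (A1 := (Ioc (2 ^ W) (2 ^ (i - 1))).filter Nat.Prime) (A2 := ∅) (A3 := ∅)
        (A4 := (Ioc (2 ^ (3 * R * i)) (2 ^ J)).filter (fun q => q.Prime ∧
          jacobiSym (1 - 4 * l) q = 1 ∧ ∃ p ∈ S, jacobiSym p q = -1)) hS1
        (wtIoc' le_rfl (by omega)) (empty_subset _) (empty_subset _)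
        (wtIoc (by nlinarith) le_rfl)
        (by
          intro q hq hqS
          have h5 := (mem_Ioc.1 (mem_filter.1 hq).1).2
          have h6 : q ≤ P := h5.trans i2
          rcases h6.lt_or_eq with h | h
          · exact h
          · rw [h] at hqS
            exact absurd i1 hqS)
        (by simp) (by simp) (fun q hq => (mem_filter.1 hq).2.2) (by simp) (by simp)
      have hsplit : Real.log ((J : ℝ) / W) = Real.log ((i : ℝ) / W) + Real.log ((J : ℝ) / i) := by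
        have hi0 : (0 : ℝ) < i := by
          have : 1 ≤ i := by omega
          exact_mod_cast this
        have hJ0 : (0 : ℝ) < J := by linarith
        have hW0 : (0 : ℝ) < W := by linarith
        rw [Real.log_div hJ0.ne' hW0.ne', Real.log_div hi0.ne' hW0.ne',
          Real.log_div hJ0.ne' hi0.ne']
        ring
      have hl1 : 0 ≤ Real.log ((i : ℝ) / W) := by
        apply Real.log_nonneg
        rw [le_div_iff₀ (by linarith), one_mul]
        have : W ≤ i := by omega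
        exact_mod_cast this
      have hcR : (S.card : ℝ) = R := by rw [hc]
      rw [hcR, sum_empty] at hg
      have e1 : e0 * Real.log ((J : ℝ) / W) ≤
          (1 - (1 / 2 : ℝ) ^ R - 2 * η) * Real.log ((J : ℝ) / W) :=
        mul_le_mul_of_nonneg_right halt hL
      rw [hsplit] at e1 ⊢
      have e2 : (1 - (1 / 2 : ℝ) ^ R - 2 * η) * Real.log ((i : ℝ) / W) ≤
          1 * Real.log ((i : ℝ) / W) :=
        mul_le_mul_of_nonneg_right (by linarith) hl1
      linarith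
    · have hm := hMer W J hW hWJ
      have hg := wtGen (l := l) (W := W) (J := J) (P := P) (e := e) (S := S)
        (A1 := (Ioc (2 ^ W) (2 ^ J)).filter Nat.Prime) (A2 := ∅) (A3 := ∅)
        (A4 := ∅) hS1 subset_rfl (empty_subset _) (empty_subset _) (empty_subset _)
        (by
          intro q hq _
          have h5 := (mem_Ioc.1 (mem_filter.1 hq).1).2
          omega)
        (by simp) (by simp) (by simp) (by simp) (by simp)
      have hcR : (S.card : ℝ) ≤ R := by exact_mod_cast hc.le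
      rw [sum_empty, sum_empty] at hg
      have e2 : e0 * Real.log ((J : ℝ) / W) ≤ 1 * Real.log ((J : ℝ) / W) :=
        mul_le_mul_of_nonneg_right (by linarith) hL
      linarith
  · -- second alternative
    obtain ⟨CB, hCB, hB⟩ := h2 l hl hsq
    obtain ⟨CC, hCC, hCx⟩ := h3 l hl hsq
    refine ⟨C1 + K4 + CB + CC + 5 * R + 3, by positivity, ?_⟩
    intro W J P e S hW hWJ hlW he hS hcase
    have hS1 : ∀ p ∈ S, 1 ≤ p := fun p hp => (hS p hp).1.one_lt.le
    have hW' : (1 : ℝ) ≤ W := by exact_mod_cast hW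
    have hWJ' : (W : ℝ) ≤ J := by exact_mod_cast hWJ
    have hL : 0 ≤ Real.log ((J : ℝ) / W) :=
      Real.log_nonneg (by rw [le_div_iff₀ (by linarith)]; linarith)
    have e1 : e0 * Real.log ((J : ℝ) / W) ≤ 9 / 8 * Real.log ((J : ℝ) / W) :=
      mul_le_mul_of_nonneg_right he9 hL
    rcases hcase with ⟨hc, hP, hG⟩ | ⟨hc, hP⟩
    · have hSn : S.Nonempty := by
        rw [← Finset.card_pos]
        omega
      obtain ⟨i1, i2, i3, i4, i5⟩ := wtIdx hSn hS
      rw [← hP] at i1 i2 i3 i4 i5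
      set i : ℕ := Nat.log 2 P + 1 with hi
      have hi2 : 2 ≤ i := by omega
      have hk := wtKil hR hη hCK hK hi2 (J := J) (by omega) hc (fun p hp =>
        ⟨(hS p hp).1, by have := (hS p hp).2.1; omega, i3 p hp⟩) hG
      have hm := hMer W (i - 1) hW (by omega)
      have hcx := hCx W (i - 1) hW (by omega)
      have hlog := wtLog1 (i := i) hW (by omega)
      have hlog2 := wtLog2 (i := i) (J := J) hi2 (by omega)
      have hb : Real.log ((J : ℝ) / i) / 2 - CB ≤ ∑ q ∈ (Ioc (2 ^ i) (2 ^ J)).filter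
          (fun q => q.Prime ∧ jacobiSym (e * l) q = -1), (1 : ℝ) / q := by
        by_cases hij : i ≤ J
        · exact hB e i J he (by omega) hij
        · have h0 : (0 : ℝ) ≤ ∑ q ∈ (Ioc (2 ^ i) (2 ^ J)).filter
              (fun q => q.Prime ∧ jacobiSym (e * l) q = -1), (1 : ℝ) / q :=
            sum_nonneg fun _ _ => by positivity
          have h5 : Real.log ((J : ℝ) / i) ≤ 0 := by
            apply Real.log_nonpos (by positivity)
            have hi0 : (0 : ℝ) < i := by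
              have : 1 ≤ i := by omega
              exact_mod_cast this
            rw [div_le_one hi0]
            have : J ≤ i := by omega
            exact_mod_cast this
          linarith
      have hlt : ∀ q, q ∈ (Ioc (2 ^ W) (2 ^ (i - 1))) → ∀ a, i - 1 ≤ a →
          q ∉ (Ioc (2 ^ a) (2 ^ J)) := by
        intro q hq a ha hq2
        have h5 := (mem_Ioc.1 hq).2
        have h6 := (mem_Ioc.1 hq2).1
        have h7 : 2 ^ (i - 1) ≤ 2 ^ a := Nat.pow_le_pow_right (by norm_num) ha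
        omega
      have h3Ri : i - 1 ≤ 3 * R * i := by
        have : i ≤ 3 * R * i := by nlinarith
        omega
      have hg := wtGen (l := l) (W := W) (J := J) (P := P) (e := e) (S := S)
        (A1 := (Ioc (2 ^ W) (2 ^ (i - 1))).filter Nat.Prime)
        (A2 := (Ioc (2 ^ W) (2 ^ (i - 1))).filter (fun q => q.Prime ∧ q % 4 = 1 ∧
          jacobiSym (1 - 4 * l) q = 1 ∧ jacobiSym l q = -1))
        (A3 := (Ioc (2 ^ i) (2 ^ J)).filter (fun q => q.Prime ∧ jacobiSym (e * l) q = -1))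
        (A4 := (Ioc (2 ^ (3 * R * i)) (2 ^ J)).filter (fun q => q.Prime ∧
          jacobiSym (1 - 4 * l) q = 1 ∧ ∃ p ∈ S, jacobiSym p q = -1)) hS1
        (wtIoc' le_rfl (by omega)) (wtIoc le_rfl (by omega)) (wtIoc (by omega) le_rfl)
        (wtIoc (by omega) le_rfl)
        (by
          intro q hq hqS
          have h5 := (mem_Ioc.1 (mem_filter.1 hq).1).2
          have h6 : q ≤ P := h5.trans i2
          rcases h6.lt_or_eq with h | h
          · exact h
          · rw [h] at hqS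
            exact absurd i1 hqS)
        (fun q hq => (mem_filter.1 hq).2.2) (fun q hq => (mem_filter.1 hq).2.2)
        (fun q hq => (mem_filter.1 hq).2.2)
        (fun q hq hq2 => hlt q (mem_filter.1 hq).1 i (by omega) (mem_filter.1 hq2).1)
        (fun q hq hq2 => hlt q (mem_filter.1 hq).1 _ h3Ri (mem_filter.1 hq2).1)
      have hsplit : Real.log ((J : ℝ) / W) = Real.log ((i : ℝ) / W) + Real.log ((J : ℝ) / i) := by
        have hi0 : (0 : ℝ) < i := by
          have : 1 ≤ i := by omega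
          exact_mod_cast this
        have hJ0 : (0 : ℝ) < J := by linarith
        have hW0 : (0 : ℝ) < W := by linarith
        rw [Real.log_div hJ0.ne' hW0.ne', Real.log_div hi0.ne' hW0.ne',
          Real.log_div hJ0.ne' hi0.ne']
        ring
      have hcR : (S.card : ℝ) = R := by rw [hc]
      rw [hcR] at hg
      rw [hsplit] at e1 ⊢
      have hD : 5 / 8 ≤ 1 - (1 / 2 : ℝ) ^ R - 2 * η := by linarith
      have hD1 : 1 - (1 / 2 : ℝ) ^ R - 2 * η ≤ 1 := by linarith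
      have e3 : 5 / 8 * Real.log ((J : ℝ) / i) - 1 ≤
          (1 - (1 / 2 : ℝ) ^ R - 2 * η) * Real.log ((J : ℝ) / i) := by
        nlinarith
      linarith
    · have hm := hMer W J hW hWJ
      have hcx := hCx W J hW hWJ
      have hg := wtGen (l := l) (W := W) (J := J) (P := P) (e := e) (S := S)
        (A1 := (Ioc (2 ^ W) (2 ^ J)).filter Nat.Prime)
        (A2 := (Ioc (2 ^ W) (2 ^ J)).filter (fun q => q.Prime ∧ q % 4 = 1 ∧
          jacobiSym (1 - 4 * l) q = 1 ∧ jacobiSym l q = -1)) (A3 := ∅)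
        (A4 := ∅) hS1 subset_rfl (wtIoc le_rfl le_rfl) (empty_subset _) (empty_subset _)
        (by
          intro q hq _
          have h5 := (mem_Ioc.1 (mem_filter.1 hq).1).2
          omega)
        (fun q hq => (mem_filter.1 hq).2.2) (by simp) (by simp) (by simp) (by simp)
      have hcR : (S.card : ℝ) ≤ R := by exact_mod_cast hc.le
      rw [sum_empty, sum_empty] at hg
      linarith

end Pool.Agent.Lib.MP_706923_coQ
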